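import Pool.Agent.V5helper26.DD.CaseGL

/-! The bounded interval case. -/

set_option autoImplicit false

open MeasureTheory Polynomial Filter Topology Set

namespace Pool.Agent.V5helper26.DD

section
variable {φ : Measure ℝ} {A B P Q : ℝ[X]} {g h G : ℝ → ℝ}

lemma Reg.endJ (R : Reg φ A B P Q g h G) {l r α β κ C0 : ℝ} {L : ℝ[X]} (hlr : l < r)
    (hA : A = (X - C l) ^ 2 * ((X - C r) ^ 2 * C κ)) (hB : B = (X - C l) * ((X - C r) * L))
    (hκ : 0 < κ) (hα : L.eval l = (α + 2) * (κ * (l - r))) (hC0 : 0 < C0)
    (hw : ∀ x ∈ Ioo l r, wt A g x = C0 * ((x - l) ^ α * (r - x) ^ β))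
    (hpos : ∀ x ∈ Ioo l r, x ∉ Zs A ∧ 0 < g x) (hleft : φ (Iio l) = 0) :
    -1 < α ∧ (φ {l} ≠ 0 → α = 0 ∧
      2 * (κ * (r - l) ^ 2) * (C0 * (r - l) ^ β) = -(Q.eval l * φ.real {l})) := by
  have hrl : 0 < r - l := sub_pos.2 hlr
  set W : ℝ → ℝ := fun x => C0 * (r - x) ^ β with hW
  have hWc : ContinuousAt W l := by
    have h1 : ContinuousAt (fun x : ℝ => r - x) l := (continuous_const.sub continuous_id).continuousAt
    exact continuousAt_const.mul (h1.rpow_const (Or.inl hrl.ne'))
  have hWl : 0 < W l := mul_pos hC0 (Real.rpow_pos_of_pos hrl _)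
  have hrep : ∀ x ∈ Ioo l r, wt A g x = W x * (x - l) ^ α := by
    intro x hx; rw [hw x hx]; simp only [hW]; ring
  have hα1 : -1 < α := alpha_gt hlr R.wt_int hWc hWl hrep
  refine ⟨hα1, fun hm => ?_⟩
  have hA2l : ((X - C r) ^ 2 * C κ : ℝ[X]).eval l = κ * (r - l) ^ 2 := by
    simp only [eval_mul, eval_pow, eval_sub, eval_X, eval_C]; ring
  have h1 := R.mass_left hlr hpos hleft hA hB (by rw [hA2l]; positivity)
    (by rw [hA2l]; simp only [eval_mul, eval_sub, eval_X, eval_C]; rw [hα]; ring)
    hα1 hWc hWl hrep hm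
  rw [hA2l] at h1
  exact h1

theorem caseJ (K : Krall φ A B P Q) (R : Reg φ A B P Q g h G) {l r t₀ : ℝ} (hl : l ∈ Zs A)
    (hr : r ∈ Zs A) (hlr0 : ∀ x ∈ Ioo l r, x ∉ Zs A) (ht : t₀ ∈ Ioo l r) (ht₀ : 0 < g t₀) :
    Concl φ := by
  have hfin := R.fin
  have hlr : l < r := ht.1.trans ht.2
  have hrl : 0 < r - l := sub_pos.2 hlr
  have hpos : ∀ t ∈ Ioo l r, 0 < g t := fun t ht' => R.pos_prop isOpen_Ioo ordConnected_Ioo
    hlr0 ht ht' ht₀
  have hactL := R.active hl (fun δ hδ => by
    have h1 : 0 < min δ (r - l) := lt_min hδ hrl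
    have h2 := min_le_left δ (r - l)
    have h3 := min_le_right δ (r - l)
    exact ⟨l + min δ (r - l) / 2, ⟨by linarith, by linarith⟩, hpos _ ⟨by linarith, by linarith⟩⟩)
  have hactR := R.active hr (fun δ hδ => by
    have h1 : 0 < min δ (r - l) := lt_min hδ hrl
    have h2 := min_le_left δ (r - l)
    have h3 := min_le_right δ (r - l)
    exact ⟨r - min δ (r - l) / 2, ⟨by linarith, by linarith⟩, hpos _ ⟨by linarith, by linarith⟩⟩)
  have hcop : IsCoprime (X - C l : ℝ[X]) (X - C r) :=
    pairwise_coprime_X_sub_C (s := fun x : ℝ => x) (fun _ _ h => h) hlr.ne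
  obtain ⟨A3, hA3⟩ := (hcop.pow (m := 2) (n := 2)).mul_dvd hactL.1 hactR.1
  obtain ⟨L, hL⟩ := hcop.mul_dvd hactL.2 hactR.2
  have hA30 : A3 ≠ 0 := by rintro rfl; apply R.A0; rw [hA3]; simp
  have hq0 : ((X - C l) ^ 2 * (X - C r) ^ 2 : ℝ[X]) ≠ 0 :=
    mul_ne_zero (pow_ne_zero _ (X_sub_C_ne_zero l)) (pow_ne_zero _ (X_sub_C_ne_zero r))
  have hqd : ((X - C l) ^ 2 * (X - C r) ^ 2 : ℝ[X]).natDegree = 4 := by
    rw [natDegree_mul (pow_ne_zero _ (X_sub_C_ne_zero l)) (pow_ne_zero _ (X_sub_C_ne_zero r)),
      natDegree_pow, natDegree_pow, natDegree_X_sub_C, natDegree_X_sub_C]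
  have hdegA : A.natDegree = 4 + A3.natDegree := by
    rw [hA3, natDegree_mul hq0 hA30, hqd]
  have hA3d : A3.natDegree = 0 := by have := R.degA; omega
  have hA4 : A.natDegree = 4 := by omega
  obtain ⟨κ, hκ⟩ : ∃ κ, A3 = C κ := ⟨_, eq_C_of_natDegree_eq_zero hA3d⟩
  have hκ0 : κ ≠ 0 := by rintro rfl; apply hA30; rw [hκ]; simp
  have hAx : ∀ x, A.eval x = (x - l) ^ 2 * (x - r) ^ 2 * κ := by
    intro x; rw [hA3, hκ]; simp
  have hκpos : 0 < κ := by
    rcases lt_or_gt_of_ne hκ0 with h | h
    · exfalso
      have : A.eval t₀ < 0 := by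
        rw [hAx]
        have h1 : 0 < (t₀ - l) ^ 2 := by
          have : 0 < t₀ - l := by linarith [ht.1]
          positivity
        have h2 : 0 < (t₀ - r) ^ 2 := by
          have : t₀ - r ≠ 0 := by linarith [ht.2]
          positivity
        have h3 := mul_pos h1 h2
        nlinarith
      rw [R.g_zero_of_neg this] at ht₀
      exact lt_irrefl _ ht₀
    · exact h
  have hLd : L.natDegree ≤ 1 := by
    by_cases hL0 : L = 0
    · rw [hL0]; simp
    · have h1 : B.natDegree = 2 + L.natDegree := by
        rw [hL, natDegree_mul (mul_ne_zero (X_sub_C_ne_zero l) (X_sub_C_ne_zero r)) hL0,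
          natDegree_mul (X_sub_C_ne_zero l) (X_sub_C_ne_zero r), natDegree_X_sub_C, natDegree_X_sub_C]
      have := R.degB
      omega
  obtain ⟨b1, b0, hLe⟩ := exists_eq_X_add_C_of_natDegree_le_one hLd
  have hZ : Zs A = {l, r} := by
    ext x
    simp only [Zs, mem_ofPred_eq, mem_insert_iff, mem_singleton_iff, hAx]
    constructor
    · intro h
      rcases mul_eq_zero.1 h with h1 | h1
      · rcases mul_eq_zero.1 h1 with h2 | h2
        · left; have := pow_eq_zero_iff (two_ne_zero) |>.1 h2; linarith
        · right; have := pow_eq_zero_iff (two_ne_zero) |>.1 h2; linarith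
      · exact absurd h1 hκ0
    · rintro (rfl | rfl) <;> simp
  -- dead outside
  have hdeadR : ∀ s, r < s → g s = 0 := by
    intro s hs
    by_contra hne
    have hspos : 0 < g s := lt_of_le_of_ne (R.g0 s) (Ne.symm hne)
    have hnz : ∀ x ∈ Ioi r, x ∉ Zs A := by
      intro x hx; rw [hZ]
      have hx' : r < x := hx
      simp only [mem_insert_iff, mem_singleton_iff, not_or]
      exact ⟨by linarith, by linarith⟩
    have h1 : ∀ t, r < t → 0 < g t := fun t ht => R.pos_prop isOpen_Ioi ordConnected_Ioi hnz
      (show s ∈ Ioi r from hs) (show t ∈ Ioi r from ht) hspos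
    have h2 := (R.inf_right (M := r) (fun x hx => ⟨hnz x hx, h1 x hx⟩)).2
    omega
  have hdeadL : ∀ s, s < l → g s = 0 := by
    intro s hs
    by_contra hne
    have hspos : 0 < g s := lt_of_le_of_ne (R.g0 s) (Ne.symm hne)
    have hnz : ∀ x ∈ Iio l, x ∉ Zs A := by
      intro x hx; rw [hZ]
      have hx' : x < l := hx
      simp only [mem_insert_iff, mem_singleton_iff, not_or]
      exact ⟨by linarith, by linarith⟩
    have h1 : ∀ t, t < l → 0 < g t := fun t ht => R.pos_prop isOpen_Iio ordConnected_Iio hnz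
      (show s ∈ Iio l from hs) (show t ∈ Iio l from ht) hspos
    have h2 := (inf_left K R (M := l) (fun x hx => ⟨hnz x hx, h1 x hx⟩)).2
    omega
  set α := L.eval l / (κ * (l - r)) - 2 with hα
  set β := L.eval r / (κ * (r - l)) - 2 with hβ
  have hlr' : l - r ≠ 0 := by linarith
  have hαe : L.eval l = (α + 2) * (κ * (l - r)) := by rw [hα]; field_simp; ring
  have hβe : L.eval r = (β + 2) * (κ * (r - l)) := by
    have : r - l ≠ 0 := hrl.ne'
    rw [hβ]; field_simp; ring
  have hLx : ∀ x, L.eval x = (α + 2) * κ * (x - r) + (β + 2) * κ * (x - l) := by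
    intro x
    have e1 : b1 * l + b0 = (α + 2) * (κ * (l - r)) := by
      rw [← hαe, hLe]; simp
    have e2 : b1 * r + b0 = (β + 2) * (κ * (r - l)) := by
      rw [← hβe, hLe]; simp
    rw [hLe]
    simp only [eval_add, eval_mul, eval_C, eval_X]
    have h3 : (b1 * x + b0) * (l - r) = ((α + 2) * κ * (x - r) + (β + 2) * κ * (x - l)) * (l - r) := by
      linear_combination (x - r) * e1 - (x - l) * e2
    exact mul_right_cancel₀ hlr' h3
  have hF : ∀ x ∈ Ioo l r, HasDerivAt (fun x => (α + 2) * Real.log (x - l) + (β + 2) * Real.log (r - x))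
      (B.eval x / A.eval x) x := by
    intro x hx
    have hxl : 0 < x - l := sub_pos.2 hx.1
    have hxr : 0 < r - x := sub_pos.2 hx.2
    have h1 : HasDerivAt (fun x : ℝ => (α + 2) * Real.log (x - l) + (β + 2) * Real.log (r - x))
        ((α + 2) * (1 / (x - l)) + (β + 2) * (-1 / (r - x))) x :=
      ((((hasDerivAt_id x).sub_const l).log hxl.ne').const_mul (α + 2)).add
        ((((hasDerivAt_id x).const_sub r).log hxr.ne').const_mul (β + 2))
    convert h1 using 1
    have hBx : B.eval x = (x - l) * (x - r) * L.eval x := by rw [hL]; simp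
    have hxr' : x - r ≠ 0 := by linarith
    rw [hAx, hBx, hLx]
    have h2 : r - x = -(x - r) := by ring
    rw [h2]
    field_simp
  obtain ⟨C0, hC0, hrep⟩ : ∃ C0 : ℝ, 0 < C0 ∧ ∀ x ∈ Ioo l r,
      wt A g x = C0 * ((x - l) ^ α * (r - x) ^ β) := by
    refine ⟨g t₀ * Real.exp (-((α + 2) * Real.log (t₀ - l) + (β + 2) * Real.log (r - t₀))) / κ,
      by positivity, ?_⟩
    intro x hx
    have hxl : 0 < x - l := sub_pos.2 hx.1
    have hxr : 0 < r - x := sub_pos.2 hx.2
    have h1 := R.rep isOpen_Ioo ordConnected_Ioo hlr0 hF ht hx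
    set C1 := g t₀ * Real.exp (-((α + 2) * Real.log (t₀ - l) + (β + 2) * Real.log (r - t₀))) with hC1
    have h2 : g x = C1 * Real.exp ((α + 2) * Real.log (x - l) + (β + 2) * Real.log (r - x)) := by
      rw [← h1, mul_assoc, ← Real.exp_add]; simp
    have h3 : Real.exp ((α + 2) * Real.log (x - l) + (β + 2) * Real.log (r - x)) =
        ((x - l) ^ α * (x - l) ^ 2) * ((r - x) ^ β * (r - x) ^ 2) := by
      rw [Real.exp_add]
      congr 1
      · rw [mul_comm, ← Real.rpow_def_of_pos hxl, Real.rpow_add hxl]
        norm_num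
      · rw [mul_comm, ← Real.rpow_def_of_pos hxr, Real.rpow_add hxr]
        norm_num
    have h4 : (x - r) ^ 2 = (r - x) ^ 2 := by ring
    rw [wt, h2, h3, hAx, h4]
    field_simp
  have hwout : ∀ x, x ∉ Ioo l r → wt A g x = 0 := by
    intro x hx
    rw [mem_Ioo, not_and_or, not_lt, not_lt] at hx
    rcases hx with hx | hx
    · rcases hx.lt_or_eq with h1 | h1
      · rw [wt, hdeadL x h1]; simp
      · rw [wt, h1, R.g_zero hl]; simp
    · rcases hx.lt_or_eq with h1 | h1
      · rw [wt, hdeadR x h1]; simp
      · rw [wt, ← h1, R.g_zero hr]; simp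
  have hside : ∀ S : Set ℝ, MeasurableSet S → S ∩ Zs A = ∅ → (∀ x ∈ S, x ∉ Ioo l r) → φ S = 0 := by
    intro S hS h1 h2
    have h3 : φ S = (φ.restrict (Zs A)ᶜ) S := by
      rw [Measure.restrict_apply hS]
      congr 1
      ext x
      constructor
      · intro h
        refine ⟨h, fun h4 => ?_⟩
        have : x ∈ S ∩ Zs A := ⟨h, h4⟩
        rw [h1] at this; exact this
      · intro h; exact h.1
    rw [h3, R.restrict_eq, withDensity_apply _ hS]
    rw [setLIntegral_congr_fun (g := fun _ => 0) hS]
    · simp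
    · intro x hx
      simp only
      rw [hwout x (h2 x hx)]; simp
  have hleft : φ (Iio l) = 0 := by
    apply hside _ measurableSet_Iio
    · ext x; rw [hZ]
      simp only [mem_inter_iff, mem_Iio, mem_insert_iff, mem_singleton_iff, mem_empty_iff_false,
        iff_false, not_and, not_or]
      intro h; exact ⟨by linarith, by linarith⟩
    · intro x hx hx2
      have : x < l := hx
      linarith [hx2.1]
  have hright : φ (Ioi r) = 0 := by
    apply hside _ measurableSet_Ioi
    · ext x; rw [hZ]
      simp only [mem_inter_iff, mem_Ioi, mem_insert_iff, mem_singleton_iff, mem_empty_iff_false,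
        iff_false, not_and, not_or]
      intro h; exact ⟨by linarith, by linarith⟩
    · intro x hx hx2
      have : r < x := hx
      linarith [hx2.2]
  -- the end points
  have hE1 := R.endJ (L := L) hlr (by rw [hA3, hκ]; ring) (by rw [hL]; ring) hκpos hαe hC0 hrep
    (fun x hx => ⟨hlr0 x hx, hpos x hx⟩) hleft
  obtain ⟨g', h', G', R', hg'⟩ := refl_reg K R
  have hwt' : ∀ x, wt (rf A) g' x = wt A g (-x) := by
    intro x; rw [wt, wt, hg', rf_eval]
  have hE2 := R'.endJ (l := -r) (r := -l) (α := β) (β := α) (κ := κ) (C0 := C0) (L := -rf L)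
    (by linarith)
    (by
      apply Polynomial.funext; intro x
      rw [rf_eval, hAx]
      simp only [eval_mul, eval_pow, eval_sub, eval_X, eval_C]
      ring)
    (by
      apply Polynomial.funext; intro x
      rw [hL]
      simp only [eval_neg, rf_eval, eval_mul, eval_sub, eval_X, eval_C]
      ring)
    hκpos
    (by
      rw [eval_neg, rf_eval, neg_neg, hβe]; ring)
    hC0
    (by
      intro x hx
      rw [hwt', hrep (-x) ⟨by linarith [hx.2], by linarith [hx.1]⟩]
      have e1 : x - -r = r - -x := by ring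
      have e2 : -l - x = -x - l := by ring
      rw [e1, e2]; ring)
    (by
      intro x hx
      refine ⟨?_, ?_⟩
      · intro h3
        apply hlr0 (-x) ⟨by linarith [hx.2], by linarith [hx.1]⟩
        simpa [Zs] using h3
      · rw [hg']
        exact hpos (-x) ⟨by linarith [hx.2], by linarith [hx.1]⟩)
    (by
      rw [rm_apply]
      convert hright using 2
      ext x; simp)
  have hrmr : rm φ {-r} = φ {r} := by
    rw [rm_apply]; congr 1; ext x; simp
  have hrmr' : (rm φ).real {-r} = φ.real {r} := by
    rw [measureReal_def, measureReal_def, hrmr]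
  rw [hrmr, hrmr'] at hE2
  obtain ⟨hα1, hmL⟩ := hE1
  obtain ⟨hβ1, hmR⟩ := hE2
  -- integrals
  have hsplit : ∀ f : ℝ[X], ∫ x, f.eval x ∂φ = (∫ x, f.eval x * wt A g x) +
      (φ.real {l} * f.eval l + φ.real {r} * f.eval r) := by
    intro f
    rw [R.int_split f, hZ]
    congr 1
    have h1 : ({l, r} : Set ℝ) = {l} ∪ {r} := rfl
    rw [h1, setIntegral_union (by simp [hlr.ne]) (measurableSet_singleton r)
      (integrable_poly R.int f).integrableOn (integrable_poly R.int f).integrableOn,
      integral_singleton, integral_singleton, smul_eq_mul, smul_eq_mul]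
  have hane : ∀ z : ℝ, ∀ᵐ y : ℝ, y ≠ z := by
    intro z; rw [ae_iff]; simp
  set a := (r - l) / 2 with ha
  set b := (l + r) / 2 with hb
  have hapos : 0 < a := by rw [ha]; linarith
  by_cases hml : φ {l} = 0
  · by_cases hmr : φ {r} = 0
    · -- Jacobi
      have hkey : ∀ᵐ y : ℝ, (Icc (-1 : ℝ) 1).indicator (fun y : ℝ => (1 - y) ^ β * (1 + y) ^ α) y =
          (1 / (C0 * (a ^ α * a ^ β))) * wt A g (a * y + b) := by
        filter_upwards [hane (-1), hane 1] with y hy1 hy2
        by_cases hy : y ∈ Icc (-1 : ℝ) 1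
        · rw [indicator_of_mem hy]
          have h1 : -1 < y := lt_of_le_of_ne hy.1 (Ne.symm hy1)
          have h2 : y < 1 := lt_of_le_of_ne hy.2 hy2
          have e1 : a * y + b - l = a * (1 + y) := by rw [ha, hb]; ring
          have e2 : r - (a * y + b) = a * (1 - y) := by rw [ha, hb]; ring
          have h3 : 0 < 1 + y := by linarith
          have h4 : 0 < 1 - y := by linarith
          have h5 := mul_pos hapos h3
          have h6 := mul_pos hapos h4
          rw [hrep _ ⟨by linarith, by linarith⟩, e1, e2, Real.mul_rpow hapos.le h3.le,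
            Real.mul_rpow hapos.le h4.le]
          have h7 : a ^ α ≠ 0 := (Real.rpow_pos_of_pos hapos α).ne'
          have h8 : a ^ β ≠ 0 := (Real.rpow_pos_of_pos hapos β).ne'
          field_simp
        · rw [indicator_of_notMem hy, hwout, mul_zero]
          intro h1
          apply hy
          have e1 : a * y + b - l = a * (1 + y) := by rw [ha, hb]; ring
          have e2 : r - (a * y + b) = a * (1 - y) := by rw [ha, hb]; ring
          have h2 : 0 < a * (1 + y) := by rw [← e1]; linarith [h1.1]
          have h3 : 0 < a * (1 - y) := by rw [← e2]; linarith [h1.2]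
          have h4 := (mul_pos_iff_of_pos_left hapos).1 h2
          have h5 := (mul_pos_iff_of_pos_left hapos).1 h3
          exact ⟨by linarith, by linarith⟩
      have hd := fun f => R.dens_int (W := (Icc (-1 : ℝ) 1).indicator
        (fun y : ℝ => (1 - y) ^ β * (1 + y) ^ α)) (a := a) (b := b)
        (κ := 1 / (C0 * (a ^ α * a ^ β))) hapos.ne'
        (Measurable.indicator (by fun_prop) measurableSet_Icc)
        (fun y => indicator_nonneg (fun x hx => mul_nonneg (Real.rpow_nonneg (by linarith [hx.2]) _)
          (Real.rpow_nonneg (by linarith [hx.1]) _)) y) hkey f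
      refine ⟨_, Or.inl ⟨β, α, hβ1, hα1, rfl⟩, a, b, 1 / (C0 * (a ^ α * a ^ β)) * |a|⁻¹, hapos.ne', ?_,
        fun f => ?_⟩
      · have h7 : 0 < a ^ α := Real.rpow_pos_of_pos hapos α
        have h8 : 0 < a ^ β := Real.rpow_pos_of_pos hapos β
        have : |a| ≠ 0 := abs_ne_zero.2 hapos.ne'
        positivity
      · rw [(hd f).2, hsplit f, measureReal_def, measureReal_def, hml, hmr]; simp
    · -- mass at the right only
      have hβ0 := (hmR hmr).1
      have hmrr : 0 < φ.real {r} := ENNReal.toReal_pos hmr (measure_ne_top _ _)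
      have hkey : ∀ᵐ y : ℝ, (Ico (0 : ℝ) 1).indicator (fun y : ℝ => (1 - y) ^ α) y =
          (1 / (C0 * (r - l) ^ α)) * wt A g (-(r - l) * y + r) := by
        filter_upwards [hane 0] with y hy1
        by_cases hy : y ∈ Ico (0 : ℝ) 1
        · rw [indicator_of_mem hy]
          have h1 : 0 < y := lt_of_le_of_ne hy.1 (Ne.symm hy1)
          have h3 : 0 < 1 - y := by linarith [hy.2]
          have e1 : -(r - l) * y + r - l = (r - l) * (1 - y) := by ring
          have e2 : r - (-(r - l) * y + r) = (r - l) * y := by ring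
          have h5 := mul_pos hrl h3
          have h6 := mul_pos hrl h1
          rw [hrep _ ⟨by linarith, by linarith⟩, e1, e2, hβ0, Real.rpow_zero,
            Real.mul_rpow hrl.le h3.le]
          have h7 : (r - l) ^ α ≠ 0 := (Real.rpow_pos_of_pos hrl α).ne'
          field_simp
        · rw [indicator_of_notMem hy, hwout, mul_zero]
          intro h1
          apply hy
          have e1 : -(r - l) * y + r - l = (r - l) * (1 - y) := by ring
          have e2 : r - (-(r - l) * y + r) = (r - l) * y := by ring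
          have h2 : 0 < (r - l) * (1 - y) := by rw [← e1]; linarith [h1.1]
          have h3 : 0 < (r - l) * y := by rw [← e2]; linarith [h1.2]
          have h4 := (mul_pos_iff_of_pos_left hrl).1 h2
          have h5 := (mul_pos_iff_of_pos_left hrl).1 h3
          exact ⟨by linarith, by linarith⟩
      have hrl' : -(r - l) ≠ 0 := neg_ne_zero.2 hrl.ne'
      have hd := fun f => R.dens_int (W := (Ico (0 : ℝ) 1).indicator
        (fun y : ℝ => (1 - y) ^ α)) (a := -(r - l)) (b := r)
        (κ := 1 / (C0 * (r - l) ^ α)) hrl'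
        (Measurable.indicator (by fun_prop) measurableSet_Ico)
        (fun y => indicator_nonneg (fun x hx => Real.rpow_nonneg (by linarith [hx.2]) _) y) hkey f
      have hKpos : 0 < 1 / (C0 * (r - l) ^ α) * |-(r - l)|⁻¹ := by
        have h7 : 0 < (r - l) ^ α := Real.rpow_pos_of_pos hrl α
        have : 0 < |-(r - l)| := abs_pos.2 hrl'
        positivity
      refine ⟨_, Or.inr (Or.inr (Or.inr (Or.inr (Or.inr ⟨α,
        1 / (1 / (C0 * (r - l) ^ α) * |-(r - l)|⁻¹ * φ.real {r}), hα1, by positivity, rfl⟩)))),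
        -(r - l), r, 1 / (C0 * (r - l) ^ α) * |-(r - l)|⁻¹, hrl', hKpos.ne', fun f => ?_⟩
      rw [one_div_one_div, int_add_dirac (hd f).1 (by positivity), (hd f).2, hsplit f]
      simp only [eval_comp, eval_add, eval_mul, eval_C, eval_X, mul_zero, zero_add]
      rw [measureReal_def φ {l}, hml]
      simp only [ENNReal.toReal_zero, zero_mul, zero_add]
      ring
  · by_cases hmr : φ {r} = 0
    · -- mass at the left only
      have hα0 := (hmL hml).1
      have hmlr : 0 < φ.real {l} := ENNReal.toReal_pos hml (measure_ne_top _ _)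
      have hkey : ∀ᵐ y : ℝ, (Ico (0 : ℝ) 1).indicator (fun y : ℝ => (1 - y) ^ β) y =
          (1 / (C0 * (r - l) ^ β)) * wt A g ((r - l) * y + l) := by
        filter_upwards [hane 0] with y hy1
        by_cases hy : y ∈ Ico (0 : ℝ) 1
        · rw [indicator_of_mem hy]
          have h1 : 0 < y := lt_of_le_of_ne hy.1 (Ne.symm hy1)
          have h3 : 0 < 1 - y := by linarith [hy.2]
          have e1 : (r - l) * y + l - l = (r - l) * y := by ring
          have e2 : r - ((r - l) * y + l) = (r - l) * (1 - y) := by ring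
          have h5 := mul_pos hrl h3
          have h6 := mul_pos hrl h1
          rw [hrep _ ⟨by linarith, by linarith⟩, e1, e2, hα0, Real.rpow_zero,
            Real.mul_rpow hrl.le h3.le]
          have h7 : (r - l) ^ β ≠ 0 := (Real.rpow_pos_of_pos hrl β).ne'
          field_simp
        · rw [indicator_of_notMem hy, hwout, mul_zero]
          intro h1
          apply hy
          have e1 : (r - l) * y + l - l = (r - l) * y := by ring
          have e2 : r - ((r - l) * y + l) = (r - l) * (1 - y) := by ring
          have h2 : 0 < (r - l) * y := by rw [← e1]; linarith [h1.1]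
          have h3 : 0 < (r - l) * (1 - y) := by rw [← e2]; linarith [h1.2]
          have h4 := (mul_pos_iff_of_pos_left hrl).1 h2
          have h5 := (mul_pos_iff_of_pos_left hrl).1 h3
          exact ⟨by linarith, by linarith⟩
      have hd := fun f => R.dens_int (W := (Ico (0 : ℝ) 1).indicator
        (fun y : ℝ => (1 - y) ^ β)) (a := r - l) (b := l)
        (κ := 1 / (C0 * (r - l) ^ β)) hrl.ne'
        (Measurable.indicator (by fun_prop) measurableSet_Ico)
        (fun y => indicator_nonneg (fun x hx => Real.rpow_nonneg (by linarith [hx.2]) _) y) hkey f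
      have hKpos : 0 < 1 / (C0 * (r - l) ^ β) * |r - l|⁻¹ := by
        have h7 : 0 < (r - l) ^ β := Real.rpow_pos_of_pos hrl β
        have : 0 < |r - l| := abs_pos.2 hrl.ne'
        positivity
      refine ⟨_, Or.inr (Or.inr (Or.inr (Or.inr (Or.inr ⟨β,
        1 / (1 / (C0 * (r - l) ^ β) * |r - l|⁻¹ * φ.real {l}), hβ1, by positivity, rfl⟩)))),
        r - l, l, 1 / (C0 * (r - l) ^ β) * |r - l|⁻¹, hrl.ne', hKpos.ne', fun f => ?_⟩
      rw [one_div_one_div, int_add_dirac (hd f).1 (by positivity), (hd f).2, hsplit f]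
      simp only [eval_comp, eval_add, eval_mul, eval_C, eval_X, mul_zero, zero_add]
      rw [measureReal_def φ {r}, hmr]
      simp only [ENNReal.toReal_zero, zero_mul, add_zero]
      ring
    · -- two masses
      obtain ⟨hα0, hQl⟩ := hmL hml
      obtain ⟨hβ0, hQr⟩ := hmR hmr
      have hmlr : 0 < φ.real {l} := ENNReal.toReal_pos hml (measure_ne_top _ _)
      have hmrr : 0 < φ.real {r} := ENNReal.toReal_pos hmr (measure_ne_top _ _)
      rw [hβ0, Real.rpow_zero, mul_one] at hQl
      rw [hα0, Real.rpow_zero, mul_one, eval_neg, rf_eval, neg_neg] at hQr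
      have hwC : ∀ x ∈ Ioo l r, wt A g x = C0 := by
        intro x hx; rw [hrep x hx, hα0, hβ0]; simp
      have hQint : ∫ x, Q.eval x * wt A g x = C0 * ((r - l) * (Q.eval l + Q.eval r) / 2) := by
        obtain ⟨q1, q0, hQe⟩ := exists_eq_X_add_C_of_natDegree_le_one R.degQ
        have h1 : ∫ x, Q.eval x * wt A g x = ∫ x in Ioo l r, Q.eval x * wt A g x := by
          rw [setIntegral_eq_integral_of_forall_compl_eq_zero]
          intro x hx
          rw [hwout x hx, mul_zero]
        rw [h1, setIntegral_congr_fun (g := fun x => Q.eval x * C0) measurableSet_Ioo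
          (fun x hx => by simp only; rw [hwC x hx]), ← integral_Ioc_eq_integral_Ioo,
          ← intervalIntegral.integral_of_le hlr.le, intervalIntegral.integral_mul_const, hQe]
        simp only [eval_add, eval_mul, eval_C, eval_X]
        rw [intervalIntegral.integral_add ((by fun_prop : Continuous fun x : ℝ => q1 * x).intervalIntegrable _ _)
          intervalIntegrable_const, intervalIntegral.integral_const_mul, integral_id,
          intervalIntegral.integral_const, smul_eq_mul]
        ring
      have hQt := hsplit Q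
      rw [R.Q_tot, hQint] at hQt
      have hmeq : φ.real {l} = φ.real {r} := by
        have h1 : Q.eval l + Q.eval r = 0 := by
          have h0 : φ.real {l} * Q.eval l + φ.real {r} * Q.eval r = 0 := by
            linear_combination hQl - hQr
          have h2 : C0 * ((r - l) * (Q.eval l + Q.eval r) / 2) = 0 := by
            linear_combination -hQt - h0
          have h3 : C0 * (r - l) * (Q.eval l + Q.eval r) = 0 := by linarith
          exact (mul_eq_zero.1 h3).resolve_left (by positivity)
        have h2 : 0 < 2 * (κ * (r - l) ^ 2) * C0 := by positivity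
        have h3 : Q.eval l ≠ 0 := by
          intro h4; rw [h4] at hQl; linarith
        have h4 : Q.eval l * (φ.real {l} - φ.real {r}) = 0 := by
          have h5 : Q.eval r = -Q.eval l := by linarith
          rw [h5] at hQr
          linear_combination hQl - hQr
        have := (mul_eq_zero.1 h4).resolve_left h3
        linarith
      have hkey : ∀ᵐ y : ℝ, (Icc (-1 : ℝ) 1).indicator (fun _ : ℝ => (1 : ℝ)) y =
          (1 / C0) * wt A g (a * y + b) := by
        filter_upwards [hane (-1), hane 1] with y hy1 hy2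
        by_cases hy : y ∈ Icc (-1 : ℝ) 1
        · rw [indicator_of_mem hy]
          have h1 : -1 < y := lt_of_le_of_ne hy.1 (Ne.symm hy1)
          have h2 : y < 1 := lt_of_le_of_ne hy.2 hy2
          have e1 : a * y + b - l = a * (1 + y) := by rw [ha, hb]; ring
          have e2 : r - (a * y + b) = a * (1 - y) := by rw [ha, hb]; ring
          have h3 : 0 < 1 + y := by linarith
          have h4 : 0 < 1 - y := by linarith
          have h5 := mul_pos hapos h3
          have h6 := mul_pos hapos h4
          rw [hwC _ ⟨by linarith, by linarith⟩]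
          field_simp
        · rw [indicator_of_notMem hy, hwout, mul_zero]
          intro h1
          apply hy
          have e1 : a * y + b - l = a * (1 + y) := by rw [ha, hb]; ring
          have e2 : r - (a * y + b) = a * (1 - y) := by rw [ha, hb]; ring
          have h2 : 0 < a * (1 + y) := by rw [← e1]; linarith [h1.1]
          have h3 : 0 < a * (1 - y) := by rw [← e2]; linarith [h1.2]
          have h4 := (mul_pos_iff_of_pos_left hapos).1 h2
          have h5 := (mul_pos_iff_of_pos_left hapos).1 h3
          exact ⟨by linarith, by linarith⟩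
      have hd := fun f => R.dens_int (W := (Icc (-1 : ℝ) 1).indicator
        (fun _ : ℝ => (1 : ℝ))) (a := a) (b := b)
        (κ := 1 / C0) hapos.ne'
        (Measurable.indicator (by fun_prop) measurableSet_Icc)
        (fun y => indicator_nonneg (fun x hx => zero_le_one) y) hkey f
      have hvol : (volume.withDensity fun y => ENNReal.ofReal ((Icc (-1 : ℝ) 1).indicator
          (fun _ : ℝ => (1 : ℝ)) y)) = volume.restrict (Icc (-1 : ℝ) 1) := by
        rw [← withDensity_indicator_one measurableSet_Icc]
        congr 1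
        funext y
        by_cases hy : y ∈ Icc (-1 : ℝ) 1
        · rw [indicator_of_mem hy, indicator_of_mem hy]; simp
        · rw [indicator_of_notMem hy, indicator_of_notMem hy]; simp
      rw [hvol] at hd
      have hKpos : 0 < 1 / C0 * |a|⁻¹ := by
        have : 0 < |a| := abs_pos.2 hapos.ne'
        positivity
      refine ⟨_, Or.inr (Or.inr (Or.inr (Or.inl ⟨1 / (1 / C0 * |a|⁻¹ * φ.real {l}),
        by positivity, rfl⟩))), a, b, 1 / C0 * |a|⁻¹, hapos.ne', hKpos.ne', fun f => ?_⟩
      have hmm : (0 : ℝ) ≤ 1 / C0 * |a|⁻¹ * φ.real {l} := by positivity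
      rw [one_div_one_div, smul_add, ← add_assoc, int_add_dirac _ hmm, int_add_dirac (hd f).1 hmm,
        (hd f).2, hsplit f]
      · simp only [eval_comp, eval_add, eval_mul, eval_C, eval_X]
        have e1 : a * -1 + b = l := by rw [ha, hb]; ring
        have e2 : a * 1 + b = r := by rw [ha, hb]; ring
        rw [e1, e2, ← hmeq]
        ring
      · exact (hd f).1.add_measure ((integrable_dirac (by simp)).smul_measure ENNReal.ofReal_ne_top)

/-- The classification. -/
theorem Krall.concl {φ : Measure ℝ} {A B P Q : ℝ[X]} (K : Krall φ A B P Q) : Concl φ := by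
  obtain ⟨g, h, G, R⟩ := K.reg
  obtain ⟨t, htZ, htg⟩ := R.exists_pos
  rcases nearest_left R.A0 htZ with hL | ⟨l, hlt, hlZ, hlI⟩
  · rcases nearest_right R.A0 htZ with hR | ⟨r, hrt, hrZ, hrI⟩
    · apply caseG K R (fun x => ?_) htg
      rcases le_total x t with h1 | h1
      · exact hL x h1
      · exact hR x h1
    · apply Concl_of_rm
      obtain ⟨g', h', G', R', hg'⟩ := refl_reg K R
      apply caseL K.refl R' (l := -r) (t₀ := -t)
      · show (rf A).eval (-r) = 0
        rw [rf_eval, neg_neg]; exact hrZ
      · intro x hx hx2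
        have hx3 : A.eval (-x) = 0 := by
          have : (rf A).eval x = 0 := hx2
          rwa [rf_eval] at this
        rcases le_total (-x) t with h1 | h1
        · exact hL _ h1 hx3
        · exact hrI (-x) ⟨h1, by linarith⟩ hx3
      · linarith
      · rw [hg', neg_neg]; exact htg
  · rcases nearest_right R.A0 htZ with hR | ⟨r, hrt, hrZ, hrI⟩
    · apply caseL K R hlZ (fun x hx => ?_) hlt htg
      rcases le_total x t with h1 | h1
      · exact hlI x ⟨hx, h1⟩
      · exact hR x h1
    · apply caseJ K R hlZ hrZ (fun x hx => ?_) ⟨hlt, hrt⟩ htg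
      rcases le_total x t with h1 | h1
      · exact hlI x ⟨hx.1, h1⟩
      · exact hrI x ⟨h1, hx.2⟩

end

end Pool.Agent.V5helper26.DD
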