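import Pool.Agent.V5helper26.DD.Fub

/-! From the orthogonality relations to the equations for the measure. -/

set_option autoImplicit false

open MeasureTheory Polynomial Filter Topology Set

namespace Pool.Agent.V5helper26.DD

/-- The integral as a linear functional on polynomials. -/
noncomputable def Lf (μ : Measure ℝ) (h : ∀ k : ℕ, Integrable (fun x : ℝ => x ^ k) μ) :
    ℝ[X] →ₗ[ℝ] ℝ where
  toFun f := ∫ x, f.eval x ∂μ
  map_add' f g := by
    simp only [eval_add]
    exact integral_add (integrable_poly h f) (integrable_poly h g)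
  map_smul' c f := by
    simp only [eval_smul, smul_eq_mul, RingHom.id_apply]
    exact integral_const_mul _ _

lemma Lf_apply (μ : Measure ℝ) (h : ∀ k : ℕ, Integrable (fun x : ℝ => x ^ k) μ) (f : ℝ[X]) :
    Lf μ h f = ∫ x, f.eval x ∂μ := rfl

/-- expansion in a sequence of polynomials with the right degrees -/
lemma expand {p : ℕ → ℝ[X]} (hp : ∀ n : ℕ, (p n).degree = ((n : ℕ) : WithBot ℕ)) (d : ℕ) :
    ∀ f : ℝ[X], f.natDegree ≤ d → ∃ c : ℕ → ℝ, f = ∑ i ∈ Finset.range (d + 1), C (c i) * p i := by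
  have hpn : ∀ n, (p n).natDegree = n := fun n => natDegree_eq_of_degree_eq_some (hp n)
  have hlc : ∀ n, (p n).coeff n ≠ 0 := by
    intro n
    have h1 : (p n) ≠ 0 := by
      intro h; have := hp n; rw [h, degree_zero] at this
      exact absurd this (by simp)
    have h2 := leadingCoeff_ne_zero.2 h1
    rwa [leadingCoeff, hpn] at h2
  induction d with
  | zero =>
    intro f hf
    have hf0 : f = C (f.coeff 0) := eq_C_of_natDegree_eq_zero (Nat.le_zero.1 hf)
    have hp0 : p 0 = C ((p 0).coeff 0) := eq_C_of_natDegree_eq_zero (hpn 0)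
    refine ⟨fun _ => f.coeff 0 / (p 0).coeff 0, ?_⟩
    simp only [zero_add, Finset.range_one, Finset.sum_singleton]
    rw [hp0, ← C_mul, coeff_C_zero, div_mul_cancel₀ _ (hlc 0)]
    exact hf0
  | succ d ih =>
    intro f hf
    set c0 := f.coeff (d + 1) / (p (d + 1)).coeff (d + 1) with hc0
    have hg : (f - C c0 * p (d + 1)).natDegree ≤ d := by
      rw [natDegree_le_iff_coeff_eq_zero]
      intro N hN
      rw [coeff_sub, coeff_C_mul]
      rcases Nat.lt_or_ge (d + 1) N with h | h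
      · rw [coeff_eq_zero_of_natDegree_lt (by omega : f.natDegree < N),
          coeff_eq_zero_of_natDegree_lt (by rw [hpn]; exact h)]
        simp
      · have : N = d + 1 := by omega
        rw [this, hc0, div_mul_cancel₀ _ (hlc _), sub_self]
    obtain ⟨c, hc⟩ := ih _ hg
    refine ⟨fun i => if i = d + 1 then c0 else c i, ?_⟩
    rw [Finset.sum_range_succ]
    simp only [if_true]
    have : ∑ i ∈ Finset.range (d + 1), C (if i = d + 1 then c0 else c i) * p i =
        ∑ i ∈ Finset.range (d + 1), C (c i) * p i := by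
      apply Finset.sum_congr rfl
      intro i hi
      have : i ≠ d + 1 := by
        have := Finset.mem_range.1 hi; omega
      rw [if_neg this]
    rw [this, ← hc]
    ring

/-- The operator symmetrising the second form against the first. -/
lemma oper {p : ℕ → ℝ[X]} (hp : ∀ n : ℕ, (p n).degree = ((n : ℕ) : WithBot ℕ))
    (L N : ℝ[X] →ₗ[ℝ] ℝ[X] →ₗ[ℝ] ℝ) (hL : ∀ n m, n ≠ m → L (p n) (p m) = 0)
    (hL0 : ∀ n, L (p n) (p n) ≠ 0) (hN : ∀ n m, n ≠ m → N (p n) (p m) = 0) (d : ℕ) (f : ℝ[X])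
    (hf : f.natDegree ≤ d) : ∃ q : ℝ[X], q.natDegree ≤ d ∧ ∀ g, L q g = N f g := by
  have hpn : ∀ n, (p n).natDegree = n := fun n => natDegree_eq_of_degree_eq_some (hp n)
  obtain ⟨c, hc⟩ := expand hp d f hf
  refine ⟨∑ i ∈ Finset.range (d + 1), C (c i * (N (p i) (p i) / L (p i) (p i))) * p i, ?_, ?_⟩
  · apply natDegree_sum_le_of_forall_le
    intro i hi
    refine (natDegree_C_mul_le _ _).trans ?_
    rw [hpn]
    have := Finset.mem_range.1 hi; omega
  · intro g
    obtain ⟨e, he⟩ := expand hp g.natDegree g le_rfl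
    have key : ∀ i, ∀ g, L (C (c i * (N (p i) (p i) / L (p i) (p i))) * p i) g = N (C (c i) * p i) g := by
      intro i g
      obtain ⟨e, he⟩ := expand hp g.natDegree g le_rfl
      rw [he, map_sum, map_sum]
      apply Finset.sum_congr rfl
      intro j _
      simp only [← smul_eq_C_mul, map_smul, LinearMap.smul_apply, smul_eq_mul]
      by_cases hij : i = j
      · subst hij
        have := hL0 i
        field_simp
      · rw [hL i j hij, hN i j hij]; simp
    rw [hc, map_sum, map_sum, LinearMap.sum_apply, LinearMap.sum_apply]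
    exact Finset.sum_congr rfl fun i _ => key i g

/-- The equations satisfied by the measure. -/
structure Krall (φ : Measure ℝ) (A B P Q : ℝ[X]) : Prop where
  int : ∀ k : ℕ, Integrable (fun x : ℝ => x ^ k) φ
  inf : ∀ s : Finset ℝ, φ ((↑s : Set ℝ)ᶜ) ≠ 0
  A0 : A ≠ 0
  degA : A.natDegree ≤ 4
  degB : B.natDegree ≤ 3
  degP : P.natDegree ≤ 2
  degQ : Q.natDegree ≤ 1
  eta : ∃ η : Measure ℝ, (∀ k : ℕ, Integrable (fun x : ℝ => x ^ k) η) ∧
    ∀ f : ℝ[X], ∫ x, f.eval x ∂η = ∫ x, (A * f).eval x ∂φ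
  E1 : ∀ f : ℝ[X], ∫ x, (A * derivative f + B * f).eval x ∂φ = 0
  E2 : ∀ f : ℝ[X], ∫ x, (B * derivative (derivative f) + P * derivative f + Q * f).eval x ∂φ = 0

theorem krall_of_orth (φ ψ η : Measure ℝ) (p : ℕ → ℝ[X])
    (hφ : ∀ k : ℕ, Integrable (fun x : ℝ => x ^ k) φ)
    (hψ : ∀ k : ℕ, Integrable (fun x : ℝ => x ^ k) ψ)
    (hη : ∀ k : ℕ, Integrable (fun x : ℝ => x ^ k) η)
    (hinf : ∀ s : Finset ℝ, φ ((↑s : Set ℝ)ᶜ) ≠ 0) (hη0 : η ≠ 0)
    (hp : ∀ n : ℕ, (p n).degree = ((n : ℕ) : WithBot ℕ))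
    (h1 : ∀ n m : ℕ, n ≠ m → ∫ x, (p n).eval x * (p m).eval x ∂φ = 0)
    (h2 : ∀ n : ℕ, ∫ x, (p n).eval x * (p n).eval x ∂φ ≠ 0)
    (h3 : ∀ n m : ℕ, n ≠ m →
      (∫ x, (p n).eval x * (p m).eval x ∂φ)
        + (∫ x, (Polynomial.derivative (p n)).eval x
              * (Polynomial.derivative (p m)).eval x ∂ψ)
        + (∫ x, (Polynomial.derivative (Polynomial.derivative (p n))).eval x
              * (Polynomial.derivative (Polynomial.derivative (p m))).eval x ∂η) = 0) :
    ∃ A B P Q : ℝ[X], Krall φ A B P Q := by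
  let D : ℝ[X] →ₗ[ℝ] ℝ[X] := derivative
  let Lφ := Lf φ hφ
  let Lψ := Lf ψ hψ
  let Lη := Lf η hη
  let bil : (ℝ[X] →ₗ[ℝ] ℝ) → (ℝ[X] →ₗ[ℝ] ℝ[X] →ₗ[ℝ] ℝ) := fun L => (LinearMap.mul ℝ ℝ[X]).compr₂ L
  have hbil : ∀ L f g, bil L f g = L (f * g) := fun L f g => rfl
  let N : ℝ[X] →ₗ[ℝ] ℝ[X] →ₗ[ℝ] ℝ := (bil Lψ).compl₁₂ D D + (bil Lη).compl₁₂ (D ∘ₗ D) (D ∘ₗ D)
  have hN : ∀ f g, N f g = Lψ (derivative f * derivative g) +
      Lη (derivative (derivative f) * derivative (derivative g)) := fun f g => rfl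
  have hop := oper hp (bil Lφ) N
    (fun n m hnm => by
      rw [hbil]; show ∫ x, (p n * p m).eval x ∂φ = 0
      simp only [eval_mul]; exact h1 n m hnm)
    (fun n => by
      rw [hbil]; show ∫ x, (p n * p n).eval x ∂φ ≠ 0
      simp only [eval_mul]; exact h2 n)
    (fun n m hnm => by
      rw [hN]
      have e1 := h1 n m hnm
      have e3 := h3 n m hnm
      rw [e1, zero_add] at e3
      show ∫ x, (derivative (p n) * derivative (p m)).eval x ∂ψ +
        ∫ x, (derivative (derivative (p n)) * derivative (derivative (p m))).eval x ∂η = 0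
      simp only [eval_mul]; exact e3)
  obtain ⟨q1, hq1d, hq1⟩ := hop 1 X natDegree_X_le
  obtain ⟨q2, hq2d, hq2⟩ := hop 2 (C (1 / 2) * X ^ 2) ((natDegree_C_mul_le _ _).trans (natDegree_X_pow_le 2))
  obtain ⟨q3, hq3d, hq3⟩ := hop 3 (C (1 / 6) * X ^ 3) ((natDegree_C_mul_le _ _).trans (natDegree_X_pow_le 3))
  obtain ⟨q4, hq4d, hq4⟩ := hop 4 (C (1 / 24) * X ^ 4) ((natDegree_C_mul_le _ _).trans (natDegree_X_pow_le 4))
  have hCC : ∀ (a b : ℝ), (C a * C b : ℝ[X]) = C (a * b) := fun a b => (C_mul).symm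
  -- derivative formulas
  have d1 : derivative (X : ℝ[X]) = 1 := derivative_X
  have d2 : derivative (C (1 / 2) * X ^ 2 : ℝ[X]) = X := by
    rw [derivative_C_mul, derivative_X_pow]
    simp only [Nat.cast_ofNat, Nat.add_one_sub_one, pow_one]
    rw [← mul_assoc]
    rw [show (C (1 / 2) * C (2 : ℝ) : ℝ[X]) = 1 by rw [hCC]; norm_num, one_mul]
  have d3 : derivative (C (1 / 6) * X ^ 3 : ℝ[X]) = C (1 / 2) * X ^ 2 := by
    rw [derivative_C_mul, derivative_X_pow]
    simp only [Nat.cast_ofNat, Nat.add_one_sub_one]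
    rw [← mul_assoc]
    rw [show (C (1 / 6) * C (3 : ℝ) : ℝ[X]) = C (1 / 2) by rw [hCC]; norm_num]
  have d4 : derivative (C (1 / 24) * X ^ 4 : ℝ[X]) = C (1 / 6) * X ^ 3 := by
    rw [derivative_C_mul, derivative_X_pow]
    simp only [Nat.cast_ofNat, Nat.add_one_sub_one]
    rw [← mul_assoc]
    rw [show (C (1 / 24) * C (4 : ℝ) : ℝ[X]) = C (1 / 6) by rw [hCC]; norm_num]
  have R1 : ∀ g, Lφ (q1 * g) = Lψ (derivative g) := by
    intro g
    have := hq1 g
    rw [hbil, hN, d1] at this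
    simpa using this
  have R2 : ∀ g, Lφ (q2 * g) = Lψ (X * derivative g) + Lη (derivative (derivative g)) := by
    intro g
    have := hq2 g
    rw [hbil, hN, d2, d1, one_mul] at this
    exact this
  have R3 : ∀ g, Lφ (q3 * g) = Lψ (C (1 / 2) * X ^ 2 * derivative g) + Lη (X * derivative (derivative g)) := by
    intro g
    have := hq3 g
    rw [hbil, hN, d3, d2] at this
    exact this
  have R4 : ∀ g, Lφ (q4 * g) = Lψ (C (1 / 6) * X ^ 3 * derivative g) +
      Lη (C (1 / 2) * X ^ 2 * derivative (derivative g)) := by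
    intro g
    have := hq4 g
    rw [hbil, hN, d4, d3] at this
    exact this
  set P := q2 - X * q1 with hP
  have A3 : ∀ g, Lη (derivative (derivative g)) - Lψ g = Lφ (P * g) := by
    intro g
    have e1 : derivative (X * g) = g + X * derivative g := by
      rw [derivative_mul, derivative_X, one_mul]
    have e2 : Lψ (X * derivative g) = Lφ (q1 * (X * g)) - Lψ g := by
      rw [R1, e1, map_add]; ring
    have e3 : P * g = q2 * g - q1 * (X * g) := by rw [hP]; ring
    rw [e3, map_sub, R2, e2]; ring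
  set T := q3 - X * P - C (1 / 2) * X ^ 2 * q1 with hT
  have dX2 : ∀ g : ℝ[X], derivative (C (1 / 2) * X ^ 2 * g) = X * g + C (1 / 2) * X ^ 2 * derivative g := by
    intro g; rw [derivative_mul, d2]
  have dX3 : ∀ g : ℝ[X], derivative (C (1 / 6) * X ^ 3 * g) = C (1 / 2) * X ^ 2 * g + C (1 / 6) * X ^ 3 * derivative g := by
    intro g; rw [derivative_mul, d3]
  have ddX : ∀ g : ℝ[X], derivative (derivative (X * g)) = 2 * derivative g + X * derivative (derivative g) := by
    intro g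
    rw [derivative_mul, derivative_X, one_mul, derivative_add, derivative_mul, derivative_X]; ring
  have ddX2 : ∀ g : ℝ[X], derivative (derivative (C (1 / 2) * X ^ 2 * g)) =
      g + 2 * (X * derivative g) + C (1 / 2) * X ^ 2 * derivative (derivative g) := by
    intro g
    rw [dX2, derivative_add, dX2, derivative_mul, derivative_X]; ring
  have two : ∀ (L : ℝ[X] →ₗ[ℝ] ℝ) (g : ℝ[X]), L (2 * g) = 2 * L g := by
    intro L g
    have hC2 : (C (2 : ℝ) : ℝ[X]) = 2 := map_ofNat C 2
    rw [← hC2, ← smul_eq_C_mul, map_smul, smul_eq_mul]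
  have A2 : ∀ g, -(2 * Lη (derivative g)) = Lφ (T * g) := by
    intro g
    have e1 : Lψ (C (1 / 2) * X ^ 2 * derivative g) = Lφ (q1 * (C (1 / 2) * X ^ 2 * g)) - Lψ (X * g) := by
      rw [R1, dX2, map_add]; ring
    have e2 : Lη (X * derivative (derivative g)) = Lη (derivative (derivative (X * g))) - 2 * Lη (derivative g) := by
      rw [ddX, map_add, two]; ring
    have e3 := A3 (X * g)
    have e4 : T * g = q3 * g - P * (X * g) - q1 * (C (1 / 2) * X ^ 2 * g) := by rw [hT]; ring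
    rw [e4, map_sub, map_sub, R3, e1, e2, ← e3]; ring
  set A := q4 - C (1 / 6) * X ^ 3 * q1 - C (1 / 2) * X ^ 2 * P - X * T with hA
  have A1 : ∀ g, Lη g = Lφ (A * g) := by
    intro g
    have e1 : Lψ (C (1 / 6) * X ^ 3 * derivative g) =
        Lφ (q1 * (C (1 / 6) * X ^ 3 * g)) - Lψ (C (1 / 2) * X ^ 2 * g) := by
      rw [R1, dX3, map_add]; ring
    have e2 : Lη (C (1 / 2) * X ^ 2 * derivative (derivative g)) =
        Lη (derivative (derivative (C (1 / 2) * X ^ 2 * g))) - 2 * Lη (derivative (X * g)) + Lη g := by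
      rw [ddX2, map_add, map_add, two, derivative_mul, derivative_X, one_mul, map_add]; ring
    have e3 := A3 (C (1 / 2) * X ^ 2 * g)
    have e4 := A2 (X * g)
    have e5 : A * g = q4 * g - q1 * (C (1 / 6) * X ^ 3 * g) - P * (C (1 / 2) * X ^ 2 * g) - T * (X * g) := by
      rw [hA]; ring
    rw [e5, map_sub, map_sub, map_sub, R4, e1, e2, ← e3, ← e4]; ring
  have hXdeg : (X : ℝ[X]).natDegree ≤ 1 := natDegree_X_le
  have hX2deg : (C (1 / 2) * X ^ 2 : ℝ[X]).natDegree ≤ 2 := (natDegree_C_mul_le _ _).trans (natDegree_X_pow_le 2)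
  have hX3deg : (C (1 / 6) * X ^ 3 : ℝ[X]).natDegree ≤ 3 := (natDegree_C_mul_le _ _).trans (natDegree_X_pow_le 3)
  have hPd : P.natDegree ≤ 2 := by
    refine (natDegree_sub_le _ _).trans (max_le hq2d ?_)
    exact natDegree_mul_le.trans (by omega)
  have hTd : T.natDegree ≤ 3 := by
    refine (natDegree_sub_le _ _).trans (max_le ((natDegree_sub_le _ _).trans (max_le hq3d ?_)) ?_)
    · exact natDegree_mul_le.trans (by omega)
    · exact natDegree_mul_le.trans (by omega)
  have hAd : A.natDegree ≤ 4 := by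
    refine (natDegree_sub_le _ _).trans (max_le ((natDegree_sub_le _ _).trans
      (max_le ((natDegree_sub_le _ _).trans (max_le hq4d ?_)) ?_)) ?_)
    · exact natDegree_mul_le.trans (by omega)
    · exact natDegree_mul_le.trans (by omega)
    · exact natDegree_mul_le.trans (by omega)
  have half : ∀ (L : ℝ[X] →ₗ[ℝ] ℝ) (g : ℝ[X]), L (C (1 / 2) * g) = 1 / 2 * L g := by
    intro L g
    rw [← smul_eq_C_mul, map_smul, smul_eq_mul]
  refine ⟨A, C (1 / 2) * T, P, q1, hφ, hinf, ?_, hAd, (natDegree_C_mul_le _ _).trans hTd, hPd, hq1d,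
    ⟨η, hη, A1⟩, ?_, ?_⟩
  · intro h0
    have e := A1 1
    rw [h0, zero_mul, map_zero] at e
    have e2 : Lη 1 = ∫ _x : ℝ, (1 : ℝ) ∂η := by
      show ∫ x, (1 : ℝ[X]).eval x ∂η = _
      simp
    rw [e2] at e
    have hfin : IsFiniteMeasure η := by
      have := hη 0
      simp only [pow_zero] at this
      rwa [integrable_const_iff_isFiniteMeasure one_ne_zero] at this
    simp only [integral_const, smul_eq_mul, mul_one] at e
    apply hη0
    rw [← Measure.measure_univ_eq_zero]
    exact (measureReal_eq_zero_iff).1 e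
  · intro f
    show Lφ (A * derivative f + C (1 / 2) * T * f) = 0
    rw [map_add, ← A1, mul_assoc, half, ← A2]; ring
  · intro f
    show Lφ (C (1 / 2) * T * derivative (derivative f) + P * derivative f + q1 * f) = 0
    rw [map_add, map_add, mul_assoc, half, ← A2, ← A3, R1]; ring

end Pool.Agent.V5helper26.DD
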