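import Pool.Agent.V5helper26.DD.Gen

/-! The Gaussian and the half-line cases. -/

set_option autoImplicit false

open MeasureTheory Polynomial Filter Topology Set

namespace Pool.Agent.V5helper26.DD

section
variable {φ : Measure ℝ} {A B P Q : ℝ[X]} {g h G : ℝ → ℝ}

/-- No zeros at all: the Gaussian. -/
theorem caseG (K : Krall φ A B P Q) (R : Reg φ A B P Q g h G) (hZ : ∀ x, x ∉ Zs A) {t₀ : ℝ}
    (ht₀ : 0 < g t₀) : Concl φ := by
  have hpos : ∀ t, 0 < g t := fun t => R.pos_prop isOpen_univ ordConnected_univ (fun x _ => hZ x)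
    (mem_univ t₀) (mem_univ t) ht₀
  have hr := R.inf_right (M := 0) (fun x _ => ⟨hZ x, hpos x⟩)
  have hl := inf_left K R (M := 0) (fun x _ => ⟨hZ x, hpos x⟩)
  have hdeg : A.natDegree = 0 ∧ B.natDegree = 1 := by
    rcases hr.2 with h | h | h | h
    · exfalso
      have h1 := hl.1
      rw [h.1, h.2] at h1
      have h2 := hr.1
      norm_num at h1
      linarith
    · exact h
    · exfalso
      have h1 := hl.1
      rw [h.1, h.2] at h1
      have h2 := hr.1
      norm_num at h1
      linarith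
    · exfalso
      have h1 := hl.1
      rw [h.1, h.2] at h1
      have h2 := hr.1
      norm_num at h1
      linarith
  obtain ⟨κ, hκ⟩ : ∃ κ, A = C κ := ⟨_, eq_C_of_natDegree_eq_zero hdeg.1⟩
  obtain ⟨b1, b0, hB⟩ := exists_eq_X_add_C_of_natDegree_le_one (le_of_eq hdeg.2)
  have hκ0 : κ ≠ 0 := by rintro rfl; apply R.A0; rw [hκ]; simp
  have hκpos : 0 < κ := by
    rcases lt_or_gt_of_ne hκ0 with h | h
    · exfalso
      have : A.eval t₀ < 0 := by rw [hκ, eval_C]; exact h
      rw [R.g_zero_of_neg this] at ht₀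
      exact lt_irrefl _ ht₀
    · exact h
  have hb10 : b1 ≠ 0 := by
    rintro rfl
    have := hdeg.2
    rw [hB] at this
    simp at this
  have hb1 : b1 < 0 := by
    have h1 := hr.1
    rw [hκ, hB, leadingCoeff_C, leadingCoeff_linear hb10] at h1
    nlinarith
  set c := -b1 / (2 * κ) with hc
  have hcpos : 0 < c := by rw [hc]; exact div_pos (by linarith) (by linarith)
  set m := -b0 / b1 with hm
  have hF : ∀ x ∈ (univ : Set ℝ), HasDerivAt (fun x => -(c * (x - m) ^ 2)) (B.eval x / A.eval x) x := by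
    intro x _
    have h1 : HasDerivAt (fun x : ℝ => -(c * (x - m) ^ 2)) (-(c * (2 * (x - m) ^ 1 * 1))) x :=
      ((((hasDerivAt_id x).sub_const m).pow 2).const_mul c).neg
    convert h1 using 1
    rw [hκ, hB, hc, hm]
    simp only [eval_add, eval_mul, eval_C, eval_X]
    field_simp
    ring
  have hrep : ∀ t, g t = g m * Real.exp (-(c * (t - m) ^ 2)) := by
    intro t
    have h1 := R.rep isOpen_univ ordConnected_univ (fun x _ => hZ x) hF (mem_univ m) (mem_univ t)
    simp only [sub_self, ne_eq, OfNat.ofNat_ne_zero, not_false_eq_true, zero_pow, mul_zero, neg_zero,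
      Real.exp_zero, mul_one, neg_neg] at h1
    rw [← h1, mul_assoc, ← Real.exp_add]
    simp
  have hgm := hpos m
  set a := (Real.sqrt c)⁻¹ with ha
  have hsc : 0 < Real.sqrt c := Real.sqrt_pos.2 hcpos
  have ha0 : a ≠ 0 := inv_ne_zero hsc.ne'
  have hd := fun f => R.dens_int (W := fun y => Real.exp (-(y ^ 2))) (a := a) (b := m)
    (κ := κ / g m) ha0 (by fun_prop) (fun y => (Real.exp_pos _).le) (ae_of_all _ fun y => by
      rw [wt, hrep (a * y + m), hκ, eval_C]
      have h1 : c * (a * y + m - m) ^ 2 = y ^ 2 := by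
        rw [ha, add_sub_cancel_right, mul_pow, inv_pow, Real.sq_sqrt hcpos.le]
        field_simp
      rw [h1]
      field_simp) f
  refine ⟨_, Or.inr (Or.inr (Or.inl rfl)), a, m, κ / g m * |a|⁻¹, ha0, ?_, fun f => ?_⟩
  · have : |a| ≠ 0 := abs_ne_zero.2 ha0
    positivity
  · rw [(hd f).2, R.int_split f]
    have : Zs A = ∅ := by ext x; simp [hZ x]
    rw [this]; simp

/-- One zero on the left, none on the right. -/
theorem caseL (K : Krall φ A B P Q) (R : Reg φ A B P Q g h G) {l t₀ : ℝ} (hl : l ∈ Zs A)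
    (hr : ∀ x, l < x → x ∉ Zs A) (hlt : l < t₀) (ht₀ : 0 < g t₀) : Concl φ := by
  have hfin := R.fin
  have hpos : ∀ t, l < t → 0 < g t := fun t ht => R.pos_prop isOpen_Ioi ordConnected_Ioi
    (fun x hx => hr x hx) (show t₀ ∈ Ioi l from hlt) (show t ∈ Ioi l from ht) ht₀
  have hinf := R.inf_right (M := l) (fun x hx => ⟨hr x hx, hpos x hx⟩)
  obtain ⟨⟨A2, hA2⟩, ⟨B1, hB1⟩⟩ := R.active hl (fun δ hδ => ⟨l + δ / 2, ⟨by linarith, by linarith⟩,
    hpos _ (by linarith)⟩)
  have hA20 : A2 ≠ 0 := by rintro rfl; apply R.A0; rw [hA2]; simp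
  have hdegA : A.natDegree = 2 + A2.natDegree := by
    rw [hA2, natDegree_mul (pow_ne_zero _ (X_sub_C_ne_zero l)) hA20, natDegree_pow, natDegree_X_sub_C]
  have hdeg : A.natDegree = 2 ∧ B.natDegree = 2 := by
    rcases hinf.2 with h | h | h | h <;> first | exact h | (exfalso; omega)
  have hA2d : A2.natDegree = 0 := by omega
  obtain ⟨κ, hκ⟩ : ∃ κ, A2 = C κ := ⟨_, eq_C_of_natDegree_eq_zero hA2d⟩
  have hκ0 : κ ≠ 0 := by rintro rfl; apply hA20; rw [hκ]; simp
  have hAx : ∀ x, A.eval x = (x - l) ^ 2 * κ := by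
    intro x; rw [hA2, hκ]; simp
  have hκpos : 0 < κ := by
    rcases lt_or_gt_of_ne hκ0 with h | h
    · exfalso
      have : A.eval t₀ < 0 := by
        rw [hAx]
        have : 0 < (t₀ - l) ^ 2 := by
          have : 0 < t₀ - l := by linarith
          positivity
        nlinarith
      rw [R.g_zero_of_neg this] at ht₀
      exact lt_irrefl _ ht₀
    · exact h
  have hB10 : B1 ≠ 0 := by rintro rfl; have := hdeg.2; rw [hB1] at this; simp at this
  have hB1d : B1.natDegree = 1 := by
    have h1 : B.natDegree = 1 + B1.natDegree := by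
      rw [hB1, natDegree_mul (X_sub_C_ne_zero l) hB10, natDegree_X_sub_C]
    omega
  obtain ⟨b1, b0, hB1e⟩ := exists_eq_X_add_C_of_natDegree_le_one (le_of_eq hB1d)
  have hb10 : b1 ≠ 0 := by
    rintro rfl
    rw [hB1e] at hB1d
    simp at hB1d
  have hleadA : A.leadingCoeff = κ := by
    rw [hA2, hκ, leadingCoeff_mul, leadingCoeff_pow, leadingCoeff_X_sub_C, leadingCoeff_C]; simp
  have hleadB : B.leadingCoeff = b1 := by
    rw [hB1, leadingCoeff_mul, leadingCoeff_X_sub_C, hB1e, leadingCoeff_linear hb10]; simp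
  have hb1 : b1 < 0 := by
    have h1 := hinf.1
    rw [hleadA, hleadB] at h1
    nlinarith
  -- dead on the left
  have hZ : Zs A = {l} := by
    ext x
    simp only [Zs, mem_ofPred_eq, mem_singleton_iff, hAx]
    constructor
    · intro h
      rcases mul_eq_zero.1 h with h1 | h1
      · have := pow_eq_zero_iff (two_ne_zero) |>.1 h1
        linarith
      · exact absurd h1 hκ0
    · rintro rfl; simp
  have hdead : ∀ s, s < l → g s = 0 := by
    intro s hs
    by_contra hne
    have hspos : 0 < g s := lt_of_le_of_ne (R.g0 s) (Ne.symm hne)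
    have hnz : ∀ x ∈ Iio l, x ∉ Zs A := by
      intro x hx; rw [hZ]; exact ne_of_lt hx
    have h1 : ∀ t, t < l → 0 < g t := fun t ht => R.pos_prop isOpen_Iio ordConnected_Iio hnz
      (show s ∈ Iio l from hs) (show t ∈ Iio l from ht) hspos
    have h2 := (inf_left K R (M := l) (fun x hx => ⟨hnz x hx, h1 x hx⟩)).1
    rw [hdeg.1, hdeg.2, hleadA, hleadB] at h2
    norm_num at h2
    nlinarith
  -- the parameters
  set c := -b1 / κ with hc
  have hcpos : 0 < c := div_pos (by linarith) hκpos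
  set α := B1.eval l / κ - 2 with hα
  have hBx : ∀ x, B.eval x = (x - l) * (b1 * (x - l) + (α + 2) * κ) := by
    intro x
    rw [hB1, hα, hB1e]
    simp only [eval_add, eval_mul, eval_C, eval_X, eval_sub]
    field_simp
    ring
  have hF : ∀ x ∈ Ioi l, HasDerivAt (fun x => (α + 2) * Real.log (x - l) - c * (x - l))
      (B.eval x / A.eval x) x := by
    intro x hx
    have hxl : 0 < x - l := sub_pos.2 hx
    have h1 : HasDerivAt (fun x : ℝ => (α + 2) * Real.log (x - l) - c * (x - l))
        ((α + 2) * (1 / (x - l)) - c * 1) x :=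
      ((((hasDerivAt_id x).sub_const l).log hxl.ne').const_mul (α + 2)).sub
        (((hasDerivAt_id x).sub_const l).const_mul c)
    convert h1 using 1
    rw [hAx, hBx, hc]
    field_simp
    ring
  obtain ⟨C0, hC0, hrep⟩ : ∃ C0 : ℝ, 0 < C0 ∧ ∀ x, l < x →
      wt A g x = C0 * ((x - l) ^ α * Real.exp (-(c * (x - l)))) := by
    refine ⟨g t₀ * Real.exp (-((α + 2) * Real.log (t₀ - l) - c * (t₀ - l))) / κ, by positivity, ?_⟩
    intro x hx
    have hxl : 0 < x - l := sub_pos.2 hx
    have h1 := R.rep isOpen_Ioi ordConnected_Ioi (fun x hx => hr x hx) hF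
      (show t₀ ∈ Ioi l from hlt) (show x ∈ Ioi l from hx)
    set C1 := g t₀ * Real.exp (-((α + 2) * Real.log (t₀ - l) - c * (t₀ - l))) with hC1
    have h2 : g x = C1 * Real.exp ((α + 2) * Real.log (x - l) - c * (x - l)) := by
      rw [← h1, mul_assoc, ← Real.exp_add]; simp
    have h3 : Real.exp ((α + 2) * Real.log (x - l) - c * (x - l)) =
        (x - l) ^ α * (x - l) ^ 2 * Real.exp (-(c * (x - l))) := by
      rw [sub_eq_add_neg, Real.exp_add]
      congr 1
      rw [mul_comm, ← Real.rpow_def_of_pos hxl, Real.rpow_add hxl]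
      norm_num
    rw [wt, h2, h3, hAx]
    field_simp
  have hwl : ∀ x, x ≤ l → wt A g x = 0 := by
    intro x hx
    rcases hx.lt_or_eq with h1 | h1
    · rw [wt, hdead x h1]; simp
    · rw [wt, h1, R.g_zero hl]; simp
  set W : ℝ → ℝ := fun x => C0 * Real.exp (-(c * (x - l))) with hW
  have hWc : ContinuousAt W l := by
    have : Continuous W := by fun_prop
    exact this.continuousAt
  have hWl : 0 < W l := by simp only [hW]; positivity
  have hrepW : ∀ x ∈ Ioo l (l + 1), wt A g x = W x * (x - l) ^ α := by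
    intro x hx
    rw [hrep x hx.1]; simp only [hW]; ring
  have hα1 : -1 < α := alpha_gt (show l < l + 1 by linarith) R.wt_int hWc hWl hrepW
  have hleft : φ (Iio l) = 0 := by
    have h1 : φ (Iio l) = (φ.restrict (Zs A)ᶜ) (Iio l) := by
      rw [Measure.restrict_apply measurableSet_Iio]
      congr 1
      ext x
      simp only [mem_Iio, mem_inter_iff, mem_compl_iff, hZ, mem_singleton_iff]
      constructor
      · intro h; exact ⟨h, ne_of_lt h⟩
      · intro h; exact h.1
    rw [h1, R.restrict_eq, withDensity_apply _ measurableSet_Iio]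
    rw [setLIntegral_congr_fun (g := fun _ => 0) measurableSet_Iio]
    · simp
    · intro x hx
      simp only
      rw [hwl x (le_of_lt hx)]; simp
  have hmass : φ {l} ≠ 0 → α = 0 := by
    intro hm
    refine (R.mass_left (show l < l + 1 by linarith) (fun x hx => ⟨hr x hx.1, hpos x hx.1⟩) hleft
      hA2 hB1 (by rw [hκ, eval_C]; exact hκ0) ?_ hα1 hWc hWl hrepW hm).1
    rw [hκ, eval_C, hα]
    field_simp
    ring
  -- the integrals
  have hsplit : ∀ f : ℝ[X], ∫ x, f.eval x ∂φ = (∫ x, f.eval x * wt A g x) + φ.real {l} * f.eval l := by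
    intro f
    rw [R.int_split f, hZ, integral_singleton, smul_eq_mul]
  have ha0 : c⁻¹ ≠ 0 := inv_ne_zero hcpos.ne'
  have hkey : ∀ᵐ y : ℝ, (Ioi (0 : ℝ)).indicator (fun y : ℝ => y ^ α * Real.exp (-y)) y =
      (c ^ α / C0) * wt A g (c⁻¹ * y + l) := by
    refine ae_of_all _ fun y => ?_
    by_cases hy : 0 < y
    · rw [indicator_of_mem (show y ∈ Ioi 0 from hy)]
      have h1 : l < c⁻¹ * y + l := by
        have : 0 < c⁻¹ * y := by positivity
        linarith
      rw [hrep _ h1, add_sub_cancel_right]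
      have h2 : c * (c⁻¹ * y) = y := by field_simp
      have h3 : (c⁻¹ * y) ^ α = (c ^ α)⁻¹ * y ^ α := by
        rw [Real.mul_rpow (by positivity) hy.le, Real.inv_rpow hcpos.le]
      rw [h2, h3]
      have : c ^ α ≠ 0 := (Real.rpow_pos_of_pos hcpos α).ne'
      field_simp
    · rw [indicator_of_notMem (show y ∉ Ioi 0 from hy), hwl _ (by
        have h1 : y ≤ 0 := not_lt.1 hy
        have : c⁻¹ * y ≤ 0 := mul_nonpos_of_nonneg_of_nonpos (by positivity) h1
        linarith)]
      simp
  have hd := fun f => R.dens_int (W := (Ioi (0 : ℝ)).indicator (fun y : ℝ => y ^ α * Real.exp (-y)))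
    (a := c⁻¹) (b := l) (κ := c ^ α / C0) ha0
    (Measurable.indicator (by fun_prop) measurableSet_Ioi)
    (fun y => indicator_nonneg (fun x hx => mul_nonneg (Real.rpow_nonneg (le_of_lt hx) _)
      (Real.exp_pos _).le) y) hkey f
  have hK : c ^ α / C0 * |c⁻¹|⁻¹ ≠ 0 := by
    have h1 : c ^ α ≠ 0 := (Real.rpow_pos_of_pos hcpos α).ne'
    have : |c⁻¹| ≠ 0 := abs_ne_zero.2 ha0
    positivity
  by_cases hm : φ {l} = 0
  · refine ⟨_, Or.inr (Or.inl ⟨α, hα1, rfl⟩), c⁻¹, l, c ^ α / C0 * |c⁻¹|⁻¹, ha0, hK, fun f => ?_⟩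
    rw [(hd f).2, hsplit f, measureReal_def, hm]; simp
  · have hα0 := hmass hm
    have hmr : 0 < φ.real {l} := ENNReal.toReal_pos hm (measure_ne_top _ _)
    have hfun : (fun y : ℝ => y ^ α * Real.exp (-y)) = fun y => Real.exp (-y) := by
      funext y; rw [hα0]; simp
    rw [hfun] at hd
    have hKpos : 0 < c ^ α / C0 * |c⁻¹|⁻¹ := by
      have h1 : 0 < c ^ α := Real.rpow_pos_of_pos hcpos α
      have : 0 < |c⁻¹| := abs_pos.2 ha0
      positivity
    refine ⟨_, Or.inr (Or.inr (Or.inr (Or.inr (Or.inl ⟨1 / (c ^ α / C0 * |c⁻¹|⁻¹ * φ.real {l}),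
      by positivity, rfl⟩)))), c⁻¹, l, c ^ α / C0 * |c⁻¹|⁻¹, ha0, hK, fun f => ?_⟩
    rw [one_div_one_div, int_add_dirac (hd f).1 (by positivity), (hd f).2, hsplit f]
    simp only [eval_comp, eval_add, eval_mul, eval_C, eval_X, mul_zero, zero_add]
    ring

end

end Pool.Agent.V5helper26.DD
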