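import Pool.Agent.V5helper26.DD.Reg

/-! The density of the measure away from the zeros of `A`. -/

set_option autoImplicit false

open MeasureTheory Polynomial Filter Topology Set

namespace Pool.Agent.V5helper26.DD

/-- The density. -/
noncomputable def wt (A : ℝ[X]) (g : ℝ → ℝ) (t : ℝ) : ℝ := g t / A.eval t

/-- The zeros of `A`. -/
def Zs (A : ℝ[X]) : Set ℝ := {x | A.eval x = 0}

lemma Zs_closed (A : ℝ[X]) : IsClosed (Zs A) := isClosed_eq A.continuous continuous_const

lemma Zs_finite {A : ℝ[X]} (hA : A ≠ 0) : (Zs A).Finite := by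
  have : Zs A = (A.roots.toFinset : Set ℝ) := by
    ext x; simp [Zs, hA]
  rw [this]; exact Finset.finite_toSet _

lemma Zs_meas (A : ℝ[X]) : MeasurableSet (Zs A) := (Zs_closed A).measurableSet

section
variable {φ : Measure ℝ} {A B P Q : ℝ[X]} {g h G : ℝ → ℝ}

lemma Reg.g_zero_of_neg (R : Reg φ A B P Q g h G) {t : ℝ} (ht : A.eval t < 0) : g t = 0 := by
  by_contra hne
  have hpos : 0 < g t := lt_of_le_of_ne (R.g0 t) (Ne.symm hne)
  set U : Set ℝ := {x | A.eval x < 0} ∩ {x | 0 < g x} with hU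
  have hUo : IsOpen U := (isOpen_lt A.continuous continuous_const).inter
    (isOpen_lt continuous_const R.g_cont)
  have h1 := R.F1 U hUo.measurableSet
  have h2 : φ U = 0 := measure_mono_null inter_subset_left R.Apos
  rw [Measure.restrict_eq_zero.2 h2, integral_zero_measure] at h1
  have h3 : 0 < ∫ x in U, g x := by
    rw [setIntegral_pos_iff_support_of_nonneg_ae (ae_of_all _ fun x => R.g0 x)
      R.g_int.integrableOn]
    have h4 : Function.support g ∩ U = U := by
      apply inter_eq_right.2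
      intro x hx
      exact (ne_of_gt hx.2)
    rw [h4]
    exact hUo.measure_pos _ ⟨t, ht, hpos⟩
  linarith

lemma Reg.wt_nonneg (R : Reg φ A B P Q g h G) (t : ℝ) : 0 ≤ wt A g t := by
  rcases lt_trichotomy (A.eval t) 0 with h1 | h1 | h1
  · rw [wt, R.g_zero_of_neg h1]; simp
  · rw [wt, h1]; simp
  · exact div_nonneg (R.g0 t) h1.le

lemma Reg.wt_meas (R : Reg φ A B P Q g h G) : Measurable (wt A g) :=
  R.g_cont.measurable.div (meas_eval A)

lemma Reg.wt_contAt (R : Reg φ A B P Q g h G) {t : ℝ} (ht : t ∉ Zs A) : ContinuousAt (wt A g) t :=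
  R.g_cont.continuousAt.div A.continuous.continuousAt ht

lemma Reg.restrict_eq (R : Reg φ A B P Q g h G) :
    φ.restrict (Zs A)ᶜ = volume.withDensity fun x => ENNReal.ofReal (wt A g x) := by
  have hfin := R.fin
  have hA0 : 0 ≤ᵐ[φ] fun x => A.eval x := by
    rw [Filter.EventuallyLE, ae_iff]
    have : {a | ¬(0 : ℝ → ℝ) a ≤ eval a A} = {x | A.eval x < 0} := by
      ext x; simp
    rw [this]; exact R.Apos
  have key : (φ.withDensity fun x => ENNReal.ofReal (A.eval x)) =
      volume.withDensity fun x => ENNReal.ofReal (g x) := by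
    ext E hE
    rw [withDensity_apply _ hE, withDensity_apply _ hE,
      ← ofReal_integral_eq_lintegral_ofReal (integrable_poly R.int A).integrableOn
        (ae_restrict_of_ae hA0),
      ← ofReal_integral_eq_lintegral_ofReal R.g_int.integrableOn (ae_of_all _ fun x => R.g0 x),
      R.F1 E hE]
  have hAm : Measurable fun x => ENNReal.ofReal (A.eval x) := (meas_eval A).ennreal_ofReal
  have hgm : Measurable fun x => ENNReal.ofReal (g x) := R.g_cont.measurable.ennreal_ofReal
  have hAi : Measurable fun x => (ENNReal.ofReal (A.eval x))⁻¹ := hAm.inv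
  ext E hE
  rw [Measure.restrict_apply hE]
  set E' := E ∩ {x | 0 < A.eval x} with hE'
  have hpm : MeasurableSet {x : ℝ | 0 < A.eval x} := measurableSet_lt measurable_const (meas_eval A)
  have hE'm : MeasurableSet E' := hE.inter hpm
  have h1 : φ (E ∩ (Zs A)ᶜ) = φ E' := by
    apply le_antisymm
    · have hsub : E ∩ (Zs A)ᶜ ⊆ E' ∪ {x | A.eval x < 0} := by
        rintro x ⟨hx1, hx2⟩
        rcases lt_trichotomy (A.eval x) 0 with h3 | h3 | h3
        · exact Or.inr h3
        · exact absurd h3 hx2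
        · exact Or.inl ⟨hx1, h3⟩
      refine (measure_mono hsub).trans ((measure_union_le _ _).trans ?_)
      rw [R.Apos, add_zero]
    · apply measure_mono
      rintro x ⟨hx1, hx2⟩
      exact ⟨hx1, (ne_of_gt hx2)⟩
  have h2 : (volume.withDensity fun x => ENNReal.ofReal (wt A g x)) E =
      (volume.withDensity fun x => ENNReal.ofReal (wt A g x)) E' := by
    rw [withDensity_apply _ hE, withDensity_apply _ hE'm, ← lintegral_indicator hE,
      ← lintegral_indicator hE'm]
    apply lintegral_congr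
    intro x
    by_cases hx : x ∈ E
    · by_cases hx2 : 0 < A.eval x
      · rw [indicator_of_mem hx, indicator_of_mem (show x ∈ E' from ⟨hx, hx2⟩)]
      · rw [indicator_of_mem hx, indicator_of_notMem (fun h => hx2 h.2)]
        have : wt A g x = 0 := by
          rcases lt_or_eq_of_le (not_lt.1 hx2) with h3 | h3
          · rw [wt, R.g_zero_of_neg h3]; simp
          · rw [wt, h3]; simp
        rw [this]; simp
    · rw [indicator_of_notMem hx, indicator_of_notMem (fun h => hx h.1)]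
  rw [h1, h2, withDensity_apply _ hE'm]
  have h3 : φ E' = ∫⁻ x in E', (ENNReal.ofReal (A.eval x))⁻¹ ∂(φ.withDensity fun x => ENNReal.ofReal (A.eval x)) := by
    rw [restrict_withDensity hE'm, lintegral_withDensity_eq_lintegral_mul _ hAm hAi]
    have : φ E' = ∫⁻ x in E', 1 ∂φ := by simp
    rw [this]
    apply setLIntegral_congr_fun hE'm
    intro x hx
    have hx2 : 0 < A.eval x := hx.2
    simp only [Pi.mul_apply]
    rw [ENNReal.mul_inv_cancel]
    · simpa using hx2
    · simp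
  rw [h3, key, restrict_withDensity hE'm, lintegral_withDensity_eq_lintegral_mul _ hgm hAi]
  apply setLIntegral_congr_fun hE'm
  intro x hx
  have hx2 : 0 < A.eval x := hx.2
  simp only [Pi.mul_apply, wt]
  rw [ENNReal.ofReal_div_of_pos hx2, ENNReal.div_eq_inv_mul, mul_comm]

lemma Reg.poly_wt_int (R : Reg φ A B P Q g h G) (f : ℝ[X]) :
    Integrable (fun x => f.eval x * wt A g x) := by
  have h1 : Integrable (fun x => f.eval x) (φ.restrict (Zs A)ᶜ) :=
    (integrable_poly R.int f).integrableOn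
  rw [R.restrict_eq, integrable_pos R.wt_meas] at h1
  refine h1.congr (ae_of_all _ fun x => ?_)
  simp only
  rw [max_eq_left (R.wt_nonneg x), mul_comm]

lemma Reg.wt_int (R : Reg φ A B P Q g h G) : Integrable (wt A g) := by
  simpa using R.poly_wt_int 1

lemma Reg.setInt (R : Reg φ A B P Q g h G) (f : ℝ[X]) {E : Set ℝ} (hE : MeasurableSet E)
    (hEZ : φ (E ∩ Zs A) = 0) : ∫ x in E, f.eval x ∂φ = ∫ x in E, f.eval x * wt A g x := by
  have h1 : φ.restrict E = (φ.restrict (Zs A)ᶜ).restrict E := by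
    rw [Measure.restrict_restrict hE]
    ext S hS
    rw [Measure.restrict_apply hS, Measure.restrict_apply hS]
    apply le_antisymm
    · have hsub : S ∩ E ⊆ (S ∩ (E ∩ (Zs A)ᶜ)) ∪ (E ∩ Zs A) := by
        rintro x ⟨hx1, hx2⟩
        by_cases hx : x ∈ Zs A
        · exact Or.inr ⟨hx2, hx⟩
        · exact Or.inl ⟨hx1, hx2, hx⟩
      refine (measure_mono hsub).trans ((measure_union_le _ _).trans ?_)
      rw [hEZ, add_zero]
    · apply measure_mono
      rintro x ⟨hx1, hx2⟩
      exact ⟨hx1, hx2.1⟩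
  rw [h1, R.restrict_eq, restrict_withDensity hE, integral_pos R.wt_meas]
  apply integral_congr_ae
  refine ae_of_all _ fun x => ?_
  simp only
  rw [max_eq_left (R.wt_nonneg x), mul_comm]

lemma Reg.h_incr (R : Reg φ A B P Q g h G) {s t : ℝ} (hst : s ≤ t)
    (hZ : φ (Ioc s t ∩ Zs A) = 0) : h t - h s = ∫ x in s..t, -(Q.eval x * wt A g x) := by
  have hi := integrable_poly R.int Q
  have h1 : ∫ x in Ioi s, Q.eval x ∂φ = ∫ x in Ioc s t, Q.eval x ∂φ + ∫ x in Ioi t, Q.eval x ∂φ := by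
    rw [← setIntegral_union (Ioc_disjoint_Ioi le_rfl) measurableSet_Ioi hi.integrableOn hi.integrableOn,
      Ioc_union_Ioi_eq_Ioi hst]
  rw [R.h_eq, R.h_eq, h1, R.setInt Q measurableSet_Ioc hZ, intervalIntegral.integral_of_le hst,
    integral_neg]
  ring

lemma Reg.G_incr (R : Reg φ A B P Q g h G) {s t : ℝ} (hst : s ≤ t)
    (hZ : φ (Ioc s t ∩ Zs A) = 0) : G t - G s = ∫ x in s..t, -(P.eval x * wt A g x + h x) := by
  have hi := integrable_poly R.int P
  have h1 : ∫ x in Ioi s, P.eval x ∂φ = ∫ x in Ioc s t, P.eval x ∂φ + ∫ x in Ioi t, P.eval x ∂φ := by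
    rw [← setIntegral_union (Ioc_disjoint_Ioi le_rfl) measurableSet_Ioi hi.integrableOn hi.integrableOn,
      Ioc_union_Ioi_eq_Ioi hst]
  have h2 : ∫ x in Ioi s, h x = (∫ x in Ioc s t, h x) + ∫ x in Ioi t, h x := by
    rw [← setIntegral_union (Ioc_disjoint_Ioi le_rfl) measurableSet_Ioi R.h_int.integrableOn
      R.h_int.integrableOn, Ioc_union_Ioi_eq_Ioi hst]
  rw [R.G_eq, R.G_eq, h1, h2, R.setInt P measurableSet_Ioc hZ, intervalIntegral.integral_of_le hst,
    integral_neg, integral_add (R.poly_wt_int P).integrableOn R.h_int.integrableOn]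
  ring

lemma Reg.g_incr (R : Reg φ A B P Q g h G) (s t : ℝ) : g t - g s = ∫ x in s..t, -G x := by
  rw [R.g_eq, R.g_eq, intervalIntegral.integral_neg]
  have := intervalIntegral.integral_Ioi_sub_Ioi' (μ := volume) (f := G) (a := s) (b := t)
        R.G_int.integrableOn R.G_int.integrableOn
  linarith

/-- Increment formulas in both directions on a set without charged zeros. -/
lemma Reg.h_incr' (R : Reg φ A B P Q g h G) {U : Set ℝ} (hU : OrdConnected U)
    (hZ : φ (U ∩ Zs A) = 0) {s t : ℝ} (hs : s ∈ U) (ht : t ∈ U) :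
    h t - h s = ∫ x in s..t, -(Q.eval x * wt A g x) := by
  rcases le_total s t with hst | hst
  · apply R.h_incr hst
    apply measure_mono_null _ hZ
    exact inter_subset_inter_left _ (Ioc_subset_Icc_self.trans (hU.out hs ht))
  · have := R.h_incr hst (measure_mono_null
      (inter_subset_inter_left _ (Ioc_subset_Icc_self.trans (hU.out ht hs))) hZ)
    rw [intervalIntegral.integral_symm]
    linarith

lemma Reg.G_incr' (R : Reg φ A B P Q g h G) {U : Set ℝ} (hU : OrdConnected U)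
    (hZ : φ (U ∩ Zs A) = 0) {s t : ℝ} (hs : s ∈ U) (ht : t ∈ U) :
    G t - G s = ∫ x in s..t, -(P.eval x * wt A g x + h x) := by
  rcases le_total s t with hst | hst
  · apply R.G_incr hst
    apply measure_mono_null _ hZ
    exact inter_subset_inter_left _ (Ioc_subset_Icc_self.trans (hU.out hs ht))
  · have := R.G_incr hst (measure_mono_null
      (inter_subset_inter_left _ (Ioc_subset_Icc_self.trans (hU.out ht hs))) hZ)
    rw [intervalIntegral.integral_symm]
    linarith

lemma hasDeriv_of_incr {F u : ℝ → ℝ} {t₀ : ℝ} {U : Set ℝ} (hU : U ∈ 𝓝 t₀) (hu : ContinuousAt u t₀)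
    (hui : Integrable u) (hF : ∀ t ∈ U, F t - F t₀ = ∫ x in t₀..t, u x) :
    HasDerivAt F (u t₀) t₀ := by
  have h1 : HasDerivAt (fun t => ∫ x in t₀..t, u x) (u t₀) t₀ :=
    intervalIntegral.integral_hasDerivAt_right hui.intervalIntegrable
      hui.aestronglyMeasurable.stronglyMeasurableAtFilter hu
  have h2 : F =ᶠ[𝓝 t₀] fun t => F t₀ + ∫ x in t₀..t, u x := by
    filter_upwards [hU] with t ht
    rw [← hF t ht]; ring
  exact (h1.const_add (F t₀)).congr_of_eventuallyEq h2

lemma contAt_of_incr {F u : ℝ → ℝ} {t₀ : ℝ} {U : Set ℝ} (hU : U ∈ 𝓝 t₀)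
    (hui : Integrable u) (hF : ∀ t ∈ U, F t - F t₀ = ∫ x in t₀..t, u x) :
    ContinuousAt F t₀ := by
  have h1 : Continuous fun t => ∫ x in t₀..t, u x :=
    intervalIntegral.continuous_primitive (fun a b => hui.intervalIntegrable) t₀
  have h2 : F =ᶠ[𝓝 t₀] fun t => F t₀ + ∫ x in t₀..t, u x := by
    filter_upwards [hU] with t ht
    rw [← hF t ht]; ring
  exact (continuous_const.add h1).continuousAt.congr h2.symm

lemma Reg.Qw_int (R : Reg φ A B P Q g h G) : Integrable fun x => -(Q.eval x * wt A g x) :=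
  (R.poly_wt_int Q).neg

lemma Reg.Pwh_int (R : Reg φ A B P Q g h G) : Integrable fun x => -(P.eval x * wt A g x + h x) :=
  ((R.poly_wt_int P).add R.h_int).neg

/-- Facts on an open order connected set whose zeros of `A` carry no mass. -/
lemma Reg.contAt_h (R : Reg φ A B P Q g h G) {U : Set ℝ} (hUo : IsOpen U) (hU : OrdConnected U)
    (hZ : φ (U ∩ Zs A) = 0) {t : ℝ} (ht : t ∈ U) : ContinuousAt h t :=
  contAt_of_incr (hUo.mem_nhds ht) R.Qw_int fun _ hs => R.h_incr' hU hZ ht hs

lemma Reg.contAt_G (R : Reg φ A B P Q g h G) {U : Set ℝ} (hUo : IsOpen U) (hU : OrdConnected U)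
    (hZ : φ (U ∩ Zs A) = 0) {t : ℝ} (ht : t ∈ U) : ContinuousAt G t :=
  contAt_of_incr (hUo.mem_nhds ht) R.Pwh_int fun _ hs => R.G_incr' hU hZ ht hs

lemma Reg.deriv_g (R : Reg φ A B P Q g h G) {U : Set ℝ} (hUo : IsOpen U) (hU : OrdConnected U)
    (hZ : φ (U ∩ Zs A) = 0) {t : ℝ} (ht : t ∈ U) : HasDerivAt g (-G t) t :=
  hasDeriv_of_incr (u := fun x => -G x) (hUo.mem_nhds ht) (R.contAt_G hUo hU hZ ht).neg R.G_int.neg
    fun s _ => R.g_incr t s

lemma Reg.deriv_h (R : Reg φ A B P Q g h G) {U : Set ℝ} (hUo : IsOpen U) (hU : OrdConnected U)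
    (hZ : φ (U ∩ Zs A) = 0) {t : ℝ} (ht : t ∈ U) (hw : ContinuousAt (wt A g) t) :
    HasDerivAt h (-(Q.eval t * wt A g t)) t :=
  hasDeriv_of_incr (u := fun x => -(Q.eval x * wt A g x)) (hUo.mem_nhds ht)
    (Q.continuous.continuousAt.mul hw).neg R.Qw_int fun _ hs => R.h_incr' hU hZ ht hs

lemma Reg.deriv_G (R : Reg φ A B P Q g h G) {U : Set ℝ} (hUo : IsOpen U) (hU : OrdConnected U)
    (hZ : φ (U ∩ Zs A) = 0) {t : ℝ} (ht : t ∈ U) (hw : ContinuousAt (wt A g) t) :
    HasDerivAt G (-(P.eval t * wt A g t + h t)) t :=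
  hasDeriv_of_incr (u := fun x => -(P.eval x * wt A g x + h x)) (hUo.mem_nhds ht)
    ((P.continuous.continuousAt.mul hw).add (R.contAt_h hUo hU hZ ht)).neg R.Pwh_int
    fun _ hs => R.G_incr' hU hZ ht hs

lemma nhds_Ioo {S : Set ℝ} {t : ℝ} (hS : S ∈ 𝓝 t) : ∃ δ : ℝ, 0 < δ ∧ Ioo (t - δ) (t + δ) ⊆ S := by
  obtain ⟨δ, hδ, h1⟩ := Metric.mem_nhds_iff.1 hS
  refine ⟨δ, hδ, fun x hx => h1 ?_⟩
  rw [Real.ball_eq_Ioo]; exact hx

/-- `G = - B w` off the zeros. -/
lemma Reg.G_eq_Bw (R : Reg φ A B P Q g h G) {t : ℝ} (ht : t ∉ Zs A) :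
    G t = -(B.eval t * wt A g t) := by
  obtain ⟨δ, hδ, hsub⟩ := nhds_Ioo ((Zs_closed A).isOpen_compl.mem_nhds ht)
  set U := Ioo (t - δ) (t + δ) with hU
  have hUo : IsOpen U := isOpen_Ioo
  have hUc : OrdConnected U := ordConnected_Ioo
  have htU : t ∈ U := ⟨by linarith, by linarith⟩
  have hUZ : U ∩ Zs A = ∅ := by
    ext x; constructor
    · rintro ⟨h1, h2⟩; exact (hsub h1) h2
    · intro h; exact h.elim
  have hZ : φ (U ∩ Zs A) = 0 := by rw [hUZ]; simp
  have hc : ContinuousAt (fun x => B.eval x * wt A g x + G x) t :=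
    (B.continuous.continuousAt.mul (R.wt_contAt ht)).add (R.contAt_G hUo hUc hZ htU)
  have hint : Integrable (fun x => B.eval x * wt A g x + G x) := (R.poly_wt_int B).add R.G_int
  have hle : ∀ a b : ℝ, a ≤ b → a ∈ U → b ∈ U → ∫ x in a..b, (B.eval x * wt A g x + G x) = 0 := by
    intro a b hab ha hb
    have hsub2 : Ioc a b ⊆ U := Ioc_subset_Icc_self.trans (hUc.out ha hb)
    have h1 := R.F2 (Ioc a b) measurableSet_Ioc
    rw [R.setInt B measurableSet_Ioc (measure_mono_null (inter_subset_inter_left _ hsub2) hZ)] at h1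
    rw [intervalIntegral.integral_of_le hab,
      integral_add (R.poly_wt_int B).integrableOn R.G_int.integrableOn, h1]
    ring
  have h2 : HasDerivAt (fun _ : ℝ => (0 : ℝ)) (B.eval t * wt A g t + G t) t := by
    apply hasDeriv_of_incr (u := fun x => B.eval x * wt A g x + G x) (hUo.mem_nhds htU) hc hint
    intro s hs
    rcases le_total t s with hst | hst
    · rw [hle t s hst htU hs]; simp
    · rw [intervalIntegral.integral_symm, hle s t hst hs htU]; simp
  have h3 := h2.unique (hasDerivAt_const t (0 : ℝ))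
  linarith

lemma nbhd_compl {t : ℝ} (ht : t ∉ Zs A) : ∃ U : Set ℝ, IsOpen U ∧ OrdConnected U ∧ t ∈ U ∧ U ∩ Zs A = ∅ := by
  obtain ⟨δ, hδ, hsub⟩ := nhds_Ioo ((Zs_closed A).isOpen_compl.mem_nhds ht)
  refine ⟨Ioo (t - δ) (t + δ), isOpen_Ioo, ordConnected_Ioo, ⟨by linarith, by linarith⟩, ?_⟩
  ext x; constructor
  · rintro ⟨h1, h2⟩; exact (hsub h1) h2
  · intro h; exact h.elim

/-- the four differential relations off the zeros of `A` -/
lemma Reg.off (R : Reg φ A B P Q g h G) {t : ℝ} (ht : t ∉ Zs A) :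
    HasDerivAt g (B.eval t * wt A g t) t ∧ HasDerivAt h (-(Q.eval t * wt A g t)) t ∧
    HasDerivAt G (-(P.eval t * wt A g t + h t)) t := by
  obtain ⟨U, hUo, hUc, htU, hUZ⟩ := nbhd_compl ht
  have hZ : φ (U ∩ Zs A) = 0 := by rw [hUZ]; simp
  refine ⟨?_, R.deriv_h hUo hUc hZ htU (R.wt_contAt ht), R.deriv_G hUo hUc hZ htU (R.wt_contAt ht)⟩
  have := R.deriv_g hUo hUc hZ htU
  rwa [R.G_eq_Bw ht, neg_neg] at this

end

end Pool.Agent.V5helper26.DD
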