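import Mathlib

/-! Determinacy of measures on the line with exponential moments. -/

set_option autoImplicit false

open MeasureTheory ProbabilityTheory Complex Filter Topology Set

namespace Pool.Agent.V5helper26.DD

lemma mem_integrableExpSet {μ : Measure ℝ} {ε : ℝ}
    (h : Integrable (fun x : ℝ => Real.exp (ε * |x|)) μ) {t : ℝ} (ht : |t| ≤ ε) :
    t ∈ integrableExpSet id μ := by
  show Integrable (fun ω => Real.exp (t * id ω)) μ
  refine h.mono' (by fun_prop) (ae_of_all _ fun x => ?_)
  rw [Real.norm_eq_abs, abs_of_pos (Real.exp_pos _)]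
  apply Real.exp_le_exp.2
  calc t * id x ≤ |t * x| := le_abs_self _
    _ = |t| * |x| := abs_mul _ _
    _ ≤ ε * |x| := mul_le_mul_of_nonneg_right ht (abs_nonneg _)

lemma strip_subset {μ : Measure ℝ} {ε : ℝ}
    (h : Integrable (fun x : ℝ => Real.exp (ε * |x|)) μ) {t : ℝ} (ht : |t| < ε) :
    t ∈ interior (integrableExpSet id μ) := by
  rw [mem_interior]
  refine ⟨Ioo (-ε) ε, ?_, isOpen_Ioo, ?_⟩
  · intro s hs
    exact mem_integrableExpSet h (abs_le.2 ⟨hs.1.le, hs.2.le⟩)
  · exact abs_lt.1 ht

/-- Two finite measures on the line with an exponential moment and equal moments coincide. -/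
theorem det {μ ν : Measure ℝ} [IsFiniteMeasure μ] [IsFiniteMeasure ν] {ε : ℝ} (hε : 0 < ε)
    (hμ : Integrable (fun x : ℝ => Real.exp (ε * |x|)) μ)
    (hν : Integrable (fun x : ℝ => Real.exp (ε * |x|)) ν)
    (h : ∀ n : ℕ, ∫ x, x ^ n ∂μ = ∫ x, x ^ n ∂ν) : μ = ν := by
  have han : ∀ ρ : Measure ℝ, Integrable (fun x : ℝ => Real.exp (ε * |x|)) ρ →
      AnalyticOnNhd ℂ (complexMGF id ρ) {z : ℂ | |z.re| < ε} := fun ρ hρ z hz =>
    analyticAt_complexMGF (strip_subset hρ hz)
  have hpre : IsPreconnected {z : ℂ | |z.re| < ε} := by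
    have : {z : ℂ | |z.re| < ε} = Complex.reLm ⁻¹' (Ioo (-ε) ε) := by
      ext z
      simp [abs_lt]
    rw [this]
    exact ((convex_Ioo (-ε) ε).linear_preimage reLm).isPreconnected
  have h0 : (0 : ℂ) ∈ {z : ℂ | |z.re| < ε} := by simpa using hε
  have hit : ∀ ρ : Measure ℝ, Integrable (fun x : ℝ => Real.exp (ε * |x|)) ρ → ∀ n,
      iteratedDeriv n (complexMGF id ρ) 0 = ((∫ x, x ^ n ∂ρ : ℝ) : ℂ) := by
    intro ρ hρ n
    rw [iteratedDeriv_complexMGF (by simpa using strip_subset hρ (t := 0) (by simpa using hε)),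
      ← integral_complex_ofReal]
    simp
  have hball : ∀ ρ : Measure ℝ, Integrable (fun x : ℝ => Real.exp (ε * |x|)) ρ →
      DifferentiableOn ℂ (complexMGF id ρ) (Metric.ball 0 ε) := by
    intro ρ hρ z hz
    have : |z.re| < ε := lt_of_le_of_lt (Complex.abs_re_le_norm z) (by simpa using hz)
    exact (han ρ hρ z this).differentiableAt.differentiableWithinAt
  have hev : complexMGF id μ =ᶠ[𝓝 0] complexMGF id ν := by
    filter_upwards [Metric.ball_mem_nhds (0 : ℂ) hε] with z hz
    have h1 := Complex.hasSum_taylorSeries_on_ball (f := complexMGF id μ) (c := 0) (r := ε)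
      (hball μ hμ) hz
    have h2 := Complex.hasSum_taylorSeries_on_ball (f := complexMGF id ν) (c := 0) (r := ε)
      (hball ν hν) hz
    simp only [hit μ hμ, hit ν hν, h] at h1 h2
    exact h1.unique h2
  have heq : EqOn (complexMGF id μ) (complexMGF id ν) {z : ℂ | |z.re| < ε} :=
    (han μ hμ).eqOn_of_preconnected_of_eventuallyEq (han ν hν) hpre h0 hev
  apply Measure.ext_of_charFun
  funext t
  rw [← complexMGF_id_mul_I, ← complexMGF_id_mul_I]
  apply heq
  simpa using hε

/-- Integral against the measure with density the positive part of `w`. -/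
lemma integral_pos {μ : Measure ℝ} {w f : ℝ → ℝ} (hw : Measurable w) :
    ∫ x, f x ∂(μ.withDensity fun x => ENNReal.ofReal (w x)) = ∫ x, max (w x) 0 * f x ∂μ := by
  have h1 : (fun x => ENNReal.ofReal (w x)) = fun x => ((Real.toNNReal (w x) : NNReal) : ENNReal) := rfl
  rw [h1, integral_withDensity_eq_integral_smul (by fun_prop)]
  rfl

lemma integrable_pos {μ : Measure ℝ} {w f : ℝ → ℝ} (hw : Measurable w) :
    Integrable f (μ.withDensity fun x => ENNReal.ofReal (w x)) ↔
      Integrable (fun x => max (w x) 0 * f x) μ := by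
  have h1 : (fun x => ENNReal.ofReal (w x)) = fun x => ((Real.toNNReal (w x) : NNReal) : ENNReal) := rfl
  rw [h1, integrable_withDensity_iff_integrable_smul (by fun_prop)]
  rfl

lemma integrable_part {μ : Measure ℝ} {w f : ℝ → ℝ} (hw : Measurable w)
    (hf : AEStronglyMeasurable f μ) (h : Integrable (fun x => w x * f x) μ) :
    Integrable (fun x => max (w x) 0 * f x) μ := by
  refine h.mono ((by fun_prop : Measurable fun x => max (w x) 0).aestronglyMeasurable.mul hf)
    (ae_of_all _ fun x => ?_)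
  rw [norm_mul, norm_mul]
  apply mul_le_mul_of_nonneg_right _ (norm_nonneg _)
  rw [Real.norm_eq_abs, Real.norm_eq_abs, abs_of_nonneg (le_max_right _ _)]
  exact max_le (le_abs_self _) (abs_nonneg _)

/-- Signed version: two densities with exponential moments and the same moments define the same
set function. -/
theorem detS {μ ν : Measure ℝ} {ε : ℝ} (hε : 0 < ε) {w v : ℝ → ℝ} (hw : Measurable w)
    (hv : Measurable v)
    (hμ : Integrable (fun x : ℝ => w x * Real.exp (ε * |x|)) μ)
    (hν : Integrable (fun x : ℝ => v x * Real.exp (ε * |x|)) ν)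
    (hμn : ∀ n : ℕ, Integrable (fun x : ℝ => w x * x ^ n) μ)
    (hνn : ∀ n : ℕ, Integrable (fun x : ℝ => v x * x ^ n) ν)
    (h : ∀ n : ℕ, ∫ x, w x * x ^ n ∂μ = ∫ x, v x * x ^ n ∂ν)
    {E : Set ℝ} (hE : MeasurableSet E) : ∫ x in E, w x ∂μ = ∫ x in E, v x ∂ν := by
  have hμ0 : Integrable w μ := by simpa using hμn 0
  have hν0 : Integrable v ν := by simpa using hνn 0
  let μp := μ.withDensity fun x => ENNReal.ofReal (w x)
  let μm := μ.withDensity fun x => ENNReal.ofReal (-w x)
  let νp := ν.withDensity fun x => ENNReal.ofReal (v x)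
  let νm := ν.withDensity fun x => ENNReal.ofReal (-v x)
  have fin : ∀ (ρ : Measure ℝ) (u : ℝ → ℝ), Integrable u ρ →
      IsFiniteMeasure (ρ.withDensity fun x => ENNReal.ofReal (u x)) := fun ρ u hu =>
    isFiniteMeasure_withDensity_ofReal hu.2
  have := fin μ w hμ0
  have := fin μ (fun x => -w x) hμ0.neg
  have := fin ν v hν0
  have := fin ν (fun x => -v x) hν0.neg
  have hexp : ∀ (ρ : Measure ℝ) (u : ℝ → ℝ), Measurable u →
      Integrable (fun x : ℝ => u x * Real.exp (ε * |x|)) ρ →
      Integrable (fun x : ℝ => Real.exp (ε * |x|)) (ρ.withDensity fun x => ENNReal.ofReal (u x)) := by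
    intro ρ u hu hi
    rw [integrable_pos hu]
    exact integrable_part hu (by fun_prop) hi
  have hmom : ∀ (ρ : Measure ℝ) (u : ℝ → ℝ), Measurable u → ∀ n : ℕ,
      Integrable (fun x : ℝ => u x * x ^ n) ρ →
      Integrable (fun x : ℝ => x ^ n) (ρ.withDensity fun x => ENNReal.ofReal (u x)) := by
    intro ρ u hu n hi
    rw [integrable_pos hu]
    exact integrable_part hu (by fun_prop) hi
  have hneg : ∀ (ρ : Measure ℝ) (u f : ℝ → ℝ), Integrable (fun x : ℝ => u x * f x) ρ →
      Integrable (fun x : ℝ => (-u x) * f x) ρ := by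
    intro ρ u f hi
    simpa using hi.neg
  have hwn : Measurable fun x => -w x := hw.neg
  have hvn : Measurable fun x => -v x := hv.neg
  have hdiff : ∀ (ρ : Measure ℝ) (u f : ℝ → ℝ), Measurable u → AEStronglyMeasurable f ρ →
      Integrable (fun x : ℝ => u x * f x) ρ →
      ∫ x, u x * f x ∂ρ = ∫ x, max (u x) 0 * f x ∂ρ - ∫ x, max (-u x) 0 * f x ∂ρ := by
    intro ρ u f hu hf hi
    have hun : Measurable fun x => -u x := hu.neg
    rw [← integral_sub (integrable_part hu hf hi)
      (integrable_part hun hf (hneg ρ u f hi))]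
    apply integral_congr_ae
    refine ae_of_all _ fun x => ?_
    simp only
    rcases le_total (u x) 0 with h | h
    · rw [max_eq_right h, max_eq_left (by linarith)]; ring
    · rw [max_eq_left h, max_eq_right (by linarith)]; ring
  have key : μp + νm = νp + μm := by
    apply det hε
    · exact (hexp μ w hw hμ).add_measure (hexp ν _ hvn (hneg ν v _ hν))
    · exact (hexp ν v hv hν).add_measure (hexp μ _ hwn (hneg μ w _ hμ))
    · intro n
      rw [integral_add_measure (hmom μ w hw n (hμn n)) (hmom ν _ hvn n (hneg ν v _ (hνn n))),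
        integral_add_measure (hmom ν v hv n (hνn n)) (hmom μ _ hwn n (hneg μ w _ (hμn n))),
        integral_pos hw, integral_pos hvn, integral_pos hv, integral_pos hwn]
      have h1 := hdiff μ w (fun x => x ^ n) hw (by fun_prop) (hμn n)
      have h2 := hdiff ν v (fun x => x ^ n) hv (by fun_prop) (hνn n)
      have h3 := h n
      linarith
  have hset : ∀ (ρ : Measure ℝ) (u : ℝ → ℝ), Measurable u → Integrable u ρ →
      ((ρ.withDensity fun x => ENNReal.ofReal (u x)) E).toReal = ∫ x in E, max (u x) 0 ∂ρ := by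
    intro ρ u hu hi
    rw [withDensity_apply _ hE]
    have hnn : ∀ᵐ x ∂(ρ.restrict E), 0 ≤ max (u x) 0 := ae_of_all _ fun x => le_max_right _ _
    rw [integral_eq_lintegral_of_nonneg_ae hnn
      ((by fun_prop : Measurable fun x => max (u x) 0).aestronglyMeasurable)]
    congr 1
    apply lintegral_congr
    intro x
    rw [ENNReal.ofReal, ENNReal.ofReal]
    congr 1
    ext
    simp [Real.coe_toNNReal']
  have hE1 := congrArg (fun m : Measure ℝ => (m E).toReal) key
  simp only [Measure.add_apply] at hE1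
  rw [ENNReal.toReal_add (measure_ne_top _ _) (measure_ne_top _ _),
    ENNReal.toReal_add (measure_ne_top _ _) (measure_ne_top _ _),
    hset μ w hw hμ0, hset ν _ hvn hν0.neg, hset ν v hv hν0, hset μ _ hwn hμ0.neg] at hE1
  have h1 := hdiff (μ.restrict E) w (fun _ => 1) hw (by fun_prop) (by simpa using hμ0.restrict)
  have h2 := hdiff (ν.restrict E) v (fun _ => 1) hv (by fun_prop) (by simpa using hν0.restrict)
  simp only [mul_one] at h1 h2
  rw [h1, h2]
  linarith

end Pool.Agent.V5helper26.DD
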