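import Pool.Agent.V5helper26.DD.Grow

/-! Tail functions and Fubini. -/

set_option autoImplicit false

open MeasureTheory Polynomial Filter Topology Set

namespace Pool.Agent.V5helper26.DD

lemma integrable_exp_neg_abs {c : ℝ} (hc : 0 < c) : Integrable (fun t : ℝ => Real.exp (-c * |t|)) := by
  rw [← integrableOn_univ, ← Iic_union_Ioi (a := (0 : ℝ))]
  apply IntegrableOn.union
  · have h := integrableOn_exp_mul_Iic hc 0
    refine h.congr_fun (fun t ht => ?_) measurableSet_Iic
    simp only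
    rw [abs_of_nonpos ht]; ring_nf
  · have h := integrableOn_exp_mul_Ioi (a := -c) (by linarith) 0
    refine h.congr_fun (fun t ht => ?_) measurableSet_Ioi
    simp only
    rw [abs_of_pos ht]

lemma pow_le_exp {c : ℝ} (hc : 0 < c) (n : ℕ) (x : ℝ) :
    |x| ^ n ≤ (Nat.factorial n : ℝ) / c ^ n * Real.exp (c * |x|) := by
  have h := Real.pow_div_factorial_le_exp (c * |x|) (by positivity) n
  rw [div_le_iff₀ (by positivity), mul_pow] at h
  rw [div_mul_eq_mul_div, le_div_iff₀ (by positivity)]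
  linarith

/-- exponential integrability controls all moments -/
lemma integrable_mul_pow {ρ : Measure ℝ} {b : ℝ → ℝ} (hb : Measurable b) {ε : ℝ} (hε : 0 < ε)
    (h : Integrable (fun x => b x * Real.exp (ε * |x|)) ρ) (n : ℕ) :
    Integrable (fun x => b x * x ^ n) ρ := by
  refine (h.norm.const_mul ((Nat.factorial n : ℝ) / ε ^ n)).mono' (by fun_prop)
    (ae_of_all _ fun x => ?_)
  rw [norm_mul, norm_mul, norm_pow, Real.norm_eq_abs x, Real.norm_of_nonneg (Real.exp_pos _).le]
  have := mul_le_mul_of_nonneg_left (pow_le_exp hε n x) (norm_nonneg (b x))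
  linarith

lemma integrable_of_exp {ρ : Measure ℝ} {b : ℝ → ℝ} (hb : Measurable b) {ε : ℝ} (hε : 0 < ε)
    (h : Integrable (fun x => b x * Real.exp (ε * |x|)) ρ) : Integrable b ρ := by
  simpa using integrable_mul_pow hb hε h 0

/-- general Fubini step -/
lemma fub {ρ : Measure ℝ} [SFinite ρ] {b : ℝ → ℝ} (hb : Measurable b) (n : ℕ)
    (hi : Integrable (fun x => b x * x ^ (n + 1)) ρ) {S : Set (ℝ × ℝ)} (hS : MeasurableSet S)
    (hsub : ∀ t x : ℝ, (t, x) ∈ S → |t| ≤ |x|) :
    ∫ t : ℝ, ∫ x, S.indicator (fun p : ℝ × ℝ => p.1 ^ n * b p.2) (t, x) ∂ρ =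
      ∫ x, (∫ t : ℝ, S.indicator (fun p : ℝ × ℝ => p.1 ^ n * b p.2) (t, x)) ∂ρ := by
  apply integral_integral_swap (f := fun t x => S.indicator (fun p : ℝ × ℝ => p.1 ^ n * b p.2) (t, x))
  have hmeas : Measurable (S.indicator (fun p : ℝ × ℝ => p.1 ^ n * b p.2)) := by
    apply Measurable.indicator _ hS
    fun_prop
  have hbound : ∀ t x : ℝ, ‖S.indicator (fun p : ℝ × ℝ => p.1 ^ n * b p.2) (t, x)‖ ≤
      (Icc (-|x|) |x|).indicator (fun _ => |x| ^ n * |b x|) t := by
    intro t x
    by_cases h : (t, x) ∈ S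
    · have h1 := hsub t x h
      rw [indicator_of_mem h, indicator_of_mem (show t ∈ Icc (-|x|) |x| from abs_le.1 h1)]
      rw [norm_mul, norm_pow, Real.norm_eq_abs, Real.norm_eq_abs]
      exact mul_le_mul_of_nonneg_right (pow_le_pow_left₀ (abs_nonneg _) h1 n) (abs_nonneg _)
    · rw [indicator_of_notMem h, norm_zero]
      exact indicator_nonneg (fun _ _ => by positivity) _
  have hint1 : ∀ x : ℝ, Integrable (fun t => (Icc (-|x|) |x|).indicator (fun _ => |x| ^ n * |b x|) t) := by
    intro x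
    rw [integrable_indicator_iff measurableSet_Icc]
    exact continuousOn_const.integrableOn_compact isCompact_Icc
  have hval : ∀ x : ℝ, ∫ t, (Icc (-|x|) |x|).indicator (fun _ => |x| ^ n * |b x|) t =
      2 * |b x * x ^ (n + 1)| := by
    intro x
    rw [integral_indicator measurableSet_Icc]
    simp only [integral_const, MeasurableSet.univ, measureReal_restrict_apply, univ_inter,
      Real.volume_real_Icc, smul_eq_mul]
    rw [max_eq_left (by have := abs_nonneg x; linarith), abs_mul, abs_pow]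
    ring
  show Integrable (Function.uncurry fun t x => S.indicator (fun p : ℝ × ℝ => p.1 ^ n * b p.2) (t, x))
    (volume.prod ρ)
  have hunc : (Function.uncurry fun t x => S.indicator (fun p : ℝ × ℝ => p.1 ^ n * b p.2) (t, x)) =
      S.indicator (fun p : ℝ × ℝ => p.1 ^ n * b p.2) := by
    funext p; rfl
  rw [hunc, integrable_prod_iff' hmeas.aestronglyMeasurable]
  constructor
  · refine ae_of_all _ fun x => ?_
    refine (hint1 x).mono' ?_ (ae_of_all _ fun t => hbound t x)
    exact (hmeas.comp (measurable_id.prodMk measurable_const)).aestronglyMeasurable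
  · refine (hi.abs.const_mul 2).mono' ?_ (ae_of_all _ fun x => ?_)
    · exact (hmeas.norm.stronglyMeasurable.integral_prod_left').aestronglyMeasurable
    · rw [Real.norm_of_nonneg (integral_nonneg fun t => norm_nonneg _), ← hval x]
      refine integral_mono_of_nonneg (ae_of_all _ fun t => norm_nonneg _) (hint1 x)
        (ae_of_all _ fun t => hbound t x)

lemma fub_pos {ρ : Measure ℝ} [SFinite ρ] {b : ℝ → ℝ} (hb : Measurable b) (n : ℕ)
    (hi : Integrable (fun x => b x * x ^ (n + 1)) ρ) :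
    ∫ t in Ioi (0 : ℝ), t ^ n * ∫ x in Ioi t, b x ∂ρ =
      (1 / ((n : ℝ) + 1)) * ∫ x in Ioi (0 : ℝ), b x * x ^ (n + 1) ∂ρ := by
  let S : Set (ℝ × ℝ) := {p | 0 < p.1 ∧ p.1 < p.2}
  have hS : MeasurableSet S :=
    (measurableSet_lt measurable_const measurable_fst).inter
      (measurableSet_lt measurable_fst measurable_snd)
  have h := fub hb n hi hS (by
    rintro t x ⟨h1, h2⟩
    simp only at h1 h2
    rw [abs_of_pos h1, abs_of_pos (h1.trans h2)]
    exact h2.le)
  have hL : ∫ t : ℝ, ∫ x, S.indicator (fun p : ℝ × ℝ => p.1 ^ n * b p.2) (t, x) ∂ρ =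
      ∫ t in Ioi (0 : ℝ), t ^ n * ∫ x in Ioi t, b x ∂ρ := by
    rw [← integral_indicator measurableSet_Ioi]
    apply integral_congr_ae
    refine ae_of_all _ fun t => ?_
    simp only
    by_cases ht : 0 < t
    · rw [indicator_of_mem (show t ∈ Ioi (0 : ℝ) from ht), ← integral_const_mul,
        ← integral_indicator measurableSet_Ioi]
      apply integral_congr_ae
      refine ae_of_all _ fun x => ?_
      simp only
      by_cases hx : t < x
      · rw [indicator_of_mem (show (t, x) ∈ S from ⟨ht, hx⟩), indicator_of_mem (show x ∈ Ioi t from hx)]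
      · rw [indicator_of_notMem (show (t, x) ∉ S from fun h => hx h.2),
          indicator_of_notMem (show x ∉ Ioi t from hx)]
    · rw [indicator_of_notMem (show t ∉ Ioi (0 : ℝ) from ht)]
      have : ∀ x, S.indicator (fun p : ℝ × ℝ => p.1 ^ n * b p.2) (t, x) = 0 := fun x =>
        indicator_of_notMem (show (t, x) ∉ S from fun h => ht h.1) _
      simp [this]
  have hR : ∫ x, (∫ t : ℝ, S.indicator (fun p : ℝ × ℝ => p.1 ^ n * b p.2) (t, x)) ∂ρ =
      (1 / ((n : ℝ) + 1)) * ∫ x in Ioi (0 : ℝ), b x * x ^ (n + 1) ∂ρ := by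
    rw [← integral_indicator measurableSet_Ioi, ← integral_const_mul]
    apply integral_congr_ae
    refine ae_of_all _ fun x => ?_
    simp only
    by_cases hx : 0 < x
    · rw [indicator_of_mem (show x ∈ Ioi (0 : ℝ) from hx)]
      have h1 : ∀ t, S.indicator (fun p : ℝ × ℝ => p.1 ^ n * b p.2) (t, x) =
          (Ioo 0 x).indicator (fun t => t ^ n * b x) t := by
        intro t
        by_cases ht : 0 < t ∧ t < x
        · rw [indicator_of_mem (show (t, x) ∈ S from ht), indicator_of_mem (show t ∈ Ioo 0 x from ht)]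
        · rw [indicator_of_notMem (show (t, x) ∉ S from ht), indicator_of_notMem (show t ∉ Ioo 0 x from ht)]
      simp only [h1]
      rw [integral_indicator measurableSet_Ioo, integral_mul_const, ← integral_Ioc_eq_integral_Ioo,
        ← intervalIntegral.integral_of_le hx.le, integral_pow]
      rw [zero_pow (by omega)]
      ring
    · rw [indicator_of_notMem (show x ∉ Ioi (0 : ℝ) from hx)]
      have : ∀ t, S.indicator (fun p : ℝ × ℝ => p.1 ^ n * b p.2) (t, x) = 0 := fun t =>
        indicator_of_notMem (show (t, x) ∉ S from fun h => hx (h.1.trans h.2)) _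
      simp [this]
  rw [← hL, h, hR]

lemma fub_neg {ρ : Measure ℝ} [SFinite ρ] {b : ℝ → ℝ} (hb : Measurable b) (n : ℕ)
    (hi : Integrable (fun x => b x * x ^ (n + 1)) ρ) :
    ∫ t in Iic (0 : ℝ), t ^ n * ∫ x in Iic t, b x ∂ρ =
      -((1 / ((n : ℝ) + 1)) * ∫ x in Iic (0 : ℝ), b x * x ^ (n + 1) ∂ρ) := by
  let S : Set (ℝ × ℝ) := {p | p.1 ≤ 0 ∧ p.2 ≤ p.1}
  have hS : MeasurableSet S :=
    (measurableSet_le measurable_fst measurable_const).inter
      (measurableSet_le measurable_snd measurable_fst)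
  have h := fub hb n hi hS (by
    rintro t x ⟨h1, h2⟩
    simp only at h1 h2
    rw [abs_of_nonpos h1, abs_of_nonpos (h2.trans h1)]
    linarith)
  have hL : ∫ t : ℝ, ∫ x, S.indicator (fun p : ℝ × ℝ => p.1 ^ n * b p.2) (t, x) ∂ρ =
      ∫ t in Iic (0 : ℝ), t ^ n * ∫ x in Iic t, b x ∂ρ := by
    rw [← integral_indicator measurableSet_Iic]
    apply integral_congr_ae
    refine ae_of_all _ fun t => ?_
    simp only
    by_cases ht : t ≤ 0
    · rw [indicator_of_mem (show t ∈ Iic (0 : ℝ) from ht), ← integral_const_mul,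
        ← integral_indicator measurableSet_Iic]
      apply integral_congr_ae
      refine ae_of_all _ fun x => ?_
      simp only
      by_cases hx : x ≤ t
      · rw [indicator_of_mem (show (t, x) ∈ S from ⟨ht, hx⟩), indicator_of_mem (show x ∈ Iic t from hx)]
      · rw [indicator_of_notMem (show (t, x) ∉ S from fun h => hx h.2),
          indicator_of_notMem (show x ∉ Iic t from hx)]
    · rw [indicator_of_notMem (show t ∉ Iic (0 : ℝ) from ht)]
      have : ∀ x, S.indicator (fun p : ℝ × ℝ => p.1 ^ n * b p.2) (t, x) = 0 := fun x =>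
        indicator_of_notMem (show (t, x) ∉ S from fun h => ht h.1) _
      simp [this]
  have hR : ∫ x, (∫ t : ℝ, S.indicator (fun p : ℝ × ℝ => p.1 ^ n * b p.2) (t, x)) ∂ρ =
      -((1 / ((n : ℝ) + 1)) * ∫ x in Iic (0 : ℝ), b x * x ^ (n + 1) ∂ρ) := by
    rw [← integral_indicator measurableSet_Iic, ← integral_const_mul, ← integral_neg]
    apply integral_congr_ae
    refine ae_of_all _ fun x => ?_
    simp only
    by_cases hx : x ≤ 0
    · rw [indicator_of_mem (show x ∈ Iic (0 : ℝ) from hx)]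
      have h1 : ∀ t, S.indicator (fun p : ℝ × ℝ => p.1 ^ n * b p.2) (t, x) =
          (Icc x 0).indicator (fun t => t ^ n * b x) t := by
        intro t
        by_cases ht : t ≤ 0 ∧ x ≤ t
        · rw [indicator_of_mem (show (t, x) ∈ S from ht),
            indicator_of_mem (show t ∈ Icc x 0 from ⟨ht.2, ht.1⟩)]
        · rw [indicator_of_notMem (show (t, x) ∉ S from ht),
            indicator_of_notMem (show t ∉ Icc x 0 from fun h => ht ⟨h.2, h.1⟩)]
      simp only [h1]
      rw [integral_indicator measurableSet_Icc, integral_mul_const, integral_Icc_eq_integral_Ioc,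
        ← intervalIntegral.integral_of_le hx, integral_pow]
      rw [zero_pow (by omega)]
      ring
    · rw [indicator_of_notMem (show x ∉ Iic (0 : ℝ) from hx)]
      have : ∀ t, S.indicator (fun p : ℝ × ℝ => p.1 ^ n * b p.2) (t, x) = 0 := fun t =>
        indicator_of_notMem (show (t, x) ∉ S from fun h => hx (le_trans h.2 h.1)) _
      simp [this]
  rw [← hL, h, hR]

lemma tail_pos_bound {ρ : Measure ℝ} {b : ℝ → ℝ} {ε : ℝ} (hε : 0 < ε)
    (h : Integrable (fun x => b x * Real.exp (ε * |x|)) ρ) {t : ℝ} (ht : 0 ≤ t) :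
    |∫ x in Ioi t, b x ∂ρ| ≤ (∫ x, |b x * Real.exp (ε * |x|)| ∂ρ) * Real.exp (-ε * |t|) := by
  have h1 : |∫ x in Ioi t, b x ∂ρ| ≤ ∫ x in Ioi t, |b x * Real.exp (ε * |x|)| * Real.exp (-ε * |t|) ∂ρ := by
    rw [← Real.norm_eq_abs]
    apply norm_integral_le_of_norm_le (h.abs.integrableOn.mul_const _)
    filter_upwards [ae_restrict_mem measurableSet_Ioi] with x hx
    rw [Real.norm_eq_abs, abs_mul, abs_of_pos (Real.exp_pos (ε * |x|)), mul_assoc, ← Real.exp_add]
    have hx' : t < x := hx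
    have h2 : 1 ≤ Real.exp (ε * |x| + -ε * |t|) := by
      apply Real.one_le_exp
      rw [abs_of_nonneg ht, abs_of_nonneg (ht.trans hx'.le)]
      nlinarith
    nlinarith [abs_nonneg (b x)]
  refine h1.trans ?_
  rw [integral_mul_const]
  exact mul_le_mul_of_nonneg_right (setIntegral_le_integral h.abs (ae_of_all _ fun x => abs_nonneg _))
    (Real.exp_pos _).le

lemma tail_neg_bound {ρ : Measure ℝ} {b : ℝ → ℝ} {ε : ℝ} (hε : 0 < ε)
    (h : Integrable (fun x => b x * Real.exp (ε * |x|)) ρ) {t : ℝ} (ht : t ≤ 0) :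
    |∫ x in Iic t, b x ∂ρ| ≤ (∫ x, |b x * Real.exp (ε * |x|)| ∂ρ) * Real.exp (-ε * |t|) := by
  have h1 : |∫ x in Iic t, b x ∂ρ| ≤ ∫ x in Iic t, |b x * Real.exp (ε * |x|)| * Real.exp (-ε * |t|) ∂ρ := by
    rw [← Real.norm_eq_abs]
    apply norm_integral_le_of_norm_le (h.abs.integrableOn.mul_const _)
    filter_upwards [ae_restrict_mem measurableSet_Iic] with x hx
    rw [Real.norm_eq_abs, abs_mul, abs_of_pos (Real.exp_pos (ε * |x|)), mul_assoc, ← Real.exp_add]
    have hx' : x ≤ t := hx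
    have h2 : 1 ≤ Real.exp (ε * |x| + -ε * |t|) := by
      apply Real.one_le_exp
      rw [abs_of_nonpos ht, abs_of_nonpos (hx'.trans ht)]
      nlinarith
    nlinarith [abs_nonneg (b x)]
  refine h1.trans ?_
  rw [integral_mul_const]
  exact mul_le_mul_of_nonneg_right (setIntegral_le_integral h.abs (ae_of_all _ fun x => abs_nonneg _))
    (Real.exp_pos _).le

lemma measurable_tail {ρ : Measure ℝ} [SFinite ρ] {b : ℝ → ℝ} (hb : Measurable b) :
    Measurable fun t : ℝ => ∫ x in Ioi t, b x ∂ρ := by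
  have h1 : (fun t : ℝ => ∫ x in Ioi t, b x ∂ρ) =
      fun t => ∫ x, ({p : ℝ × ℝ | p.1 < p.2}.indicator (fun p => b p.2)) (t, x) ∂ρ := by
    funext t
    rw [← integral_indicator measurableSet_Ioi]
    apply integral_congr_ae
    refine ae_of_all _ fun x => ?_
    simp only
    by_cases hx : t < x
    · rw [indicator_of_mem (show (t, x) ∈ {p : ℝ × ℝ | p.1 < p.2} from hx),
        indicator_of_mem (show x ∈ Ioi t from hx)]
    · rw [indicator_of_notMem (show (t, x) ∉ {p : ℝ × ℝ | p.1 < p.2} from hx),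
        indicator_of_notMem (show x ∉ Ioi t from hx)]
  rw [h1]
  have hm : Measurable ({p : ℝ × ℝ | p.1 < p.2}.indicator (fun p : ℝ × ℝ => b p.2)) := by
    apply Measurable.indicator _ (measurableSet_lt measurable_fst measurable_snd)
    fun_prop
  exact hm.stronglyMeasurable.integral_prod_right'.measurable

/-- The tail function of the sum of two densities with total integral zero. -/
theorem tail {ρ σ : Measure ℝ} [SFinite ρ] [SFinite σ] {b c : ℝ → ℝ} (hb : Measurable b)
    (hc : Measurable c) {ε : ℝ} (hε : 0 < ε)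
    (hρ : Integrable (fun x => b x * Real.exp (ε * |x|)) ρ)
    (hσ : Integrable (fun x => c x * Real.exp (ε * |x|)) σ)
    (h0 : ∫ x, b x ∂ρ + ∫ x, c x ∂σ = 0) :
    Measurable (fun t : ℝ => ∫ x in Ioi t, b x ∂ρ + ∫ x in Ioi t, c x ∂σ) ∧
    Integrable (fun t : ℝ => (∫ x in Ioi t, b x ∂ρ + ∫ x in Ioi t, c x ∂σ) *
      Real.exp (ε / 2 * |t|)) ∧
    ∀ n : ℕ, ∫ t : ℝ, (∫ x in Ioi t, b x ∂ρ + ∫ x in Ioi t, c x ∂σ) * t ^ n =
      (1 / ((n : ℝ) + 1)) * (∫ x, b x * x ^ (n + 1) ∂ρ + ∫ x, c x * x ^ (n + 1) ∂σ) := by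
  set G : ℝ → ℝ := fun t : ℝ => ∫ x in Ioi t, b x ∂ρ + ∫ x in Ioi t, c x ∂σ with hG
  have hbi := integrable_of_exp hb hε hρ
  have hci := integrable_of_exp hc hε hσ
  have hGm : Measurable G := (measurable_tail hb).add (measurable_tail hc)
  have hGneg : ∀ t, G t = -(∫ x in Iic t, b x ∂ρ + ∫ x in Iic t, c x ∂σ) := by
    intro t
    have h1 := integral_add_compl (measurableSet_Iic (a := t)) hbi
    have h2 := integral_add_compl (measurableSet_Iic (a := t)) hci
    rw [compl_Iic] at h1 h2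
    simp only [hG]
    linarith
  set K := (∫ x, |b x * Real.exp (ε * |x|)| ∂ρ) + (∫ x, |c x * Real.exp (ε * |x|)| ∂σ) with hK
  have hGb : ∀ t, |G t| ≤ K * Real.exp (-ε * |t|) := by
    intro t
    rcases le_total 0 t with ht | ht
    · have h1 := tail_pos_bound hε hρ ht
      have h2 := tail_pos_bound hε hσ ht
      refine (abs_add_le _ _).trans ?_
      rw [hK, add_mul]
      exact add_le_add h1 h2
    · have h1 := tail_neg_bound hε hρ ht
      have h2 := tail_neg_bound hε hσ ht
      rw [hGneg t, abs_neg]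
      refine (abs_add_le _ _).trans ?_
      rw [hK, add_mul]
      exact add_le_add h1 h2
  have hGe : Integrable (fun t : ℝ => G t * Real.exp (ε / 2 * |t|)) := by
    refine ((integrable_exp_neg_abs (half_pos hε)).const_mul K).mono' (by fun_prop)
      (ae_of_all _ fun t => ?_)
    rw [norm_mul, Real.norm_eq_abs, Real.norm_of_nonneg (Real.exp_pos _).le]
    have h1 := mul_le_mul_of_nonneg_right (hGb t) (Real.exp_pos (ε / 2 * |t|)).le
    refine h1.trans (le_of_eq ?_)
    rw [mul_assoc, ← Real.exp_add]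
    congr 2
    ring
  refine ⟨hGm, hGe, fun n => ?_⟩
  have hGn : Integrable fun t => G t * t ^ n := integrable_mul_pow hGm (half_pos hε) hGe n
  have hbn := integrable_mul_pow hb hε hρ (n + 1)
  have hcn := integrable_mul_pow hc hε hσ (n + 1)
  rw [← integral_add_compl (measurableSet_Iic (a := (0 : ℝ))) hGn, compl_Iic]
  -- positive part
  have hbound : ∀ (τ : Measure ℝ) [SFinite τ] (u : ℝ → ℝ), Measurable u →
      Integrable (fun x => u x * Real.exp (ε * |x|)) τ →
      IntegrableOn (fun t : ℝ => t ^ n * ∫ x in Ioi t, u x ∂τ) (Ioi 0) ∧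
      IntegrableOn (fun t : ℝ => t ^ n * ∫ x in Iic t, u x ∂τ) (Iic 0) := by
    intro τ _ u hu hτ
    have hui := integrable_of_exp hu hε hτ
    have hm1 : Measurable fun t : ℝ => ∫ x in Ioi t, u x ∂τ := measurable_tail hu
    have hm2 : Measurable fun t : ℝ => ∫ x in Iic t, u x ∂τ := by
      have : (fun t : ℝ => ∫ x in Iic t, u x ∂τ) = fun t => (∫ x, u x ∂τ) - ∫ x in Ioi t, u x ∂τ := by
        funext t
        have h1 := integral_add_compl (measurableSet_Iic (a := t)) hui
        rw [compl_Iic] at h1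
        linarith
      rw [this]
      exact measurable_const.sub hm1
    have hmaj : Integrable fun t : ℝ => (∫ x, |u x * Real.exp (ε * |x|)| ∂τ) *
        ((Nat.factorial n : ℝ) / (ε / 2) ^ n * Real.exp (-(ε / 2) * |t|)) :=
      ((integrable_exp_neg_abs (half_pos hε)).const_mul _).const_mul _
    have hpt : ∀ t v : ℝ, |v| ≤ (∫ x, |u x * Real.exp (ε * |x|)| ∂τ) * Real.exp (-ε * |t|) →
        ‖t ^ n * v‖ ≤ (∫ x, |u x * Real.exp (ε * |x|)| ∂τ) *
        ((Nat.factorial n : ℝ) / (ε / 2) ^ n * Real.exp (-(ε / 2) * |t|)) := by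
      intro t v hv
      have hI : 0 ≤ ∫ x, |u x * Real.exp (ε * |x|)| ∂τ := integral_nonneg fun x => abs_nonneg _
      rw [norm_mul, norm_pow, Real.norm_eq_abs, Real.norm_eq_abs]
      have h1 := pow_le_exp (half_pos hε) n t
      have h2 : |t| ^ n * |v| ≤ ((Nat.factorial n : ℝ) / (ε / 2) ^ n * Real.exp (ε / 2 * |t|)) *
          ((∫ x, |u x * Real.exp (ε * |x|)| ∂τ) * Real.exp (-ε * |t|)) :=
        mul_le_mul h1 hv (abs_nonneg _) (by positivity)
      refine h2.trans (le_of_eq ?_)
      have h3 : Real.exp (-(ε / 2) * |t|) = Real.exp (ε / 2 * |t|) * Real.exp (-ε * |t|) := by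
        rw [← Real.exp_add]; congr 1; ring
      rw [h3]; ring
    constructor
    · refine hmaj.integrableOn.mono' (by fun_prop) ?_
      filter_upwards [ae_restrict_mem measurableSet_Ioi] with t ht
      exact hpt t _ (tail_pos_bound hε hτ (le_of_lt ht))
    · refine hmaj.integrableOn.mono' (by fun_prop) ?_
      filter_upwards [ae_restrict_mem measurableSet_Iic] with t ht
      exact hpt t _ (tail_neg_bound hε hτ ht)
  obtain ⟨hb1, hb2⟩ := hbound ρ b hb hρ
  obtain ⟨hc1, hc2⟩ := hbound σ c hc hσ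
  have hP : ∫ t in Ioi (0 : ℝ), G t * t ^ n =
      (1 / ((n : ℝ) + 1)) * ∫ x in Ioi (0 : ℝ), b x * x ^ (n + 1) ∂ρ +
      (1 / ((n : ℝ) + 1)) * ∫ x in Ioi (0 : ℝ), c x * x ^ (n + 1) ∂σ := by
    rw [← fub_pos hb n hbn, ← fub_pos hc n hcn, ← integral_add hb1 hc1]
    apply integral_congr_ae
    refine ae_of_all _ fun t => ?_
    simp only [hG]; ring
  have hN : ∫ t in Iic (0 : ℝ), G t * t ^ n =
      (1 / ((n : ℝ) + 1)) * ∫ x in Iic (0 : ℝ), b x * x ^ (n + 1) ∂ρ +
      (1 / ((n : ℝ) + 1)) * ∫ x in Iic (0 : ℝ), c x * x ^ (n + 1) ∂σ := by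
    have h1 := fub_neg hb n hbn
    have h2 := fub_neg hc n hcn
    have h3 : ∫ t in Iic (0 : ℝ), G t * t ^ n =
        -(∫ t in Iic (0 : ℝ), t ^ n * ∫ x in Iic t, b x ∂ρ) -
        ∫ t in Iic (0 : ℝ), t ^ n * ∫ x in Iic t, c x ∂σ := by
      have hb2n : IntegrableOn (fun t : ℝ => -(t ^ n * ∫ x in Iic t, b x ∂ρ)) (Iic 0) := hb2.neg
      rw [← integral_neg, ← integral_sub hb2n hc2]
      apply integral_congr_ae
      refine ae_of_all _ fun t => ?_
      simp only
      rw [hGneg t]; ring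
    rw [h3, h1, h2]; ring
  have e1 := integral_add_compl (measurableSet_Iic (a := (0 : ℝ))) hbn
  have e2 := integral_add_compl (measurableSet_Iic (a := (0 : ℝ))) hcn
  rw [compl_Iic] at e1 e2
  rw [hP, hN, ← e1, ← e2]
  ring

end Pool.Agent.V5helper26.DD
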