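import Pool.Agent.V5helper26.DD.Mass

/-! General lemmas for the case analysis. -/

set_option autoImplicit false

open MeasureTheory Polynomial Filter Topology Set

namespace Pool.Agent.V5helper26.DD

lemma alpha_gt {w W : ℝ → ℝ} {l r' α : ℝ} (hlr : l < r') (hw : Integrable w)
    (hW : ContinuousAt W l) (hWl : 0 < W l) (hrep : ∀ x ∈ Ioo l r', w x = W x * (x - l) ^ α) :
    -1 < α := by
  have h1 : ∀ᶠ x in 𝓝 l, W l / 2 < W x := continuousAt_const.eventually_lt hW (by linarith)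
  obtain ⟨δ, hδ, hδle, hsub⟩ := shrink h1 (sub_pos.2 hlr)
  have hm : Measurable fun x : ℝ => (x - l) ^ α := by fun_prop
  have h2 : IntegrableOn (fun x : ℝ => (x - l) ^ α) (Ioo l (l + δ)) := by
    refine Integrable.mono' ((hw.const_mul (2 / W l)).integrableOn) hm.aestronglyMeasurable ?_
    rw [ae_restrict_iff' measurableSet_Ioo]
    refine ae_of_all _ fun x hx => ?_
    have hxl : 0 < x - l := sub_pos.2 hx.1
    rw [Real.norm_of_nonneg (Real.rpow_nonneg hxl.le _), hrep x ⟨hx.1, by linarith [hx.2]⟩]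
    have h3 : W l / 2 < W x := hsub ⟨by linarith [hx.1], hx.2⟩
    have h4 : 0 ≤ (x - l) ^ α := Real.rpow_nonneg hxl.le _
    have h5 : 1 ≤ 2 / W l * W x := by
      rw [div_mul_eq_mul_div, le_div_iff₀ hWl]; linarith
    calc (x - l) ^ α = 1 * (x - l) ^ α := (one_mul _).symm
      _ ≤ (2 / W l * W x) * (x - l) ^ α := mul_le_mul_of_nonneg_right h5 h4
      _ = 2 / W l * (W x * (x - l) ^ α) := by ring
  have h3 : IntegrableOn (fun x : ℝ => x ^ α) (Ioo 0 δ) := by
    have h4 := ((measurePreserving_add_right (volume : Measure ℝ) l).integrableOn_comp_preimage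
      (MeasurableEquiv.addRight l).measurableEmbedding (f := fun x : ℝ => (x - l) ^ α)
      (s := Ioo l (l + δ))).2 h2
    have h5 : (fun x : ℝ => x + l) ⁻¹' Ioo l (l + δ) = Ioo 0 δ := by
      ext x
      simp only [mem_preimage, mem_Ioo]
      constructor
      · rintro ⟨h6, h7⟩; constructor <;> linarith
      · rintro ⟨h6, h7⟩; constructor <;> linarith
    rw [h5] at h4
    refine h4.congr_fun (fun x _ => ?_) measurableSet_Ioo
    simp
  exact (intervalIntegral.integrableOn_Ioo_rpow_iff hδ).1 h3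

section
variable {φ : Measure ℝ} {A B P Q : ℝ[X]} {g h G : ℝ → ℝ}

lemma Reg.int_split (R : Reg φ A B P Q g h G) (f : ℝ[X]) :
    ∫ x, f.eval x ∂φ = (∫ x, f.eval x * wt A g x) + ∫ x in Zs A, f.eval x ∂φ := by
  have h1 := integral_add_compl (Zs_meas A) (integrable_poly R.int f)
  have h2 := R.setInt f (Zs_meas A).compl (by simp)
  have h3 : ∫ x in (Zs A)ᶜ, f.eval x * wt A g x = ∫ x, f.eval x * wt A g x := by
    apply setIntegral_eq_integral_of_forall_compl_eq_zero
    intro x hx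
    have : A.eval x = 0 := by
      by_contra h4; exact hx h4
    rw [wt, this]; simp
  rw [h2, h3] at h1
  linarith

lemma Reg.exists_pos (R : Reg φ A B P Q g h G) : ∃ t, t ∉ Zs A ∧ 0 < g t := by
  by_contra hcon
  push Not at hcon
  have h1 : ∀ x, wt A g x = 0 := by
    intro x
    by_cases hx : x ∈ Zs A
    · have : A.eval x = 0 := hx
      rw [wt, this]; simp
    · rw [wt, le_antisymm (hcon x hx) (R.g0 x)]; simp
  have h2 := R.restrict_eq
  simp only [h1, ENNReal.ofReal_zero] at h2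
  have h3 : (volume : Measure ℝ).withDensity (fun _ => (0 : ENNReal)) = 0 := withDensity_zero
  rw [h3, Measure.restrict_eq_zero] at h2
  apply R.inf (Zs_finite R.A0).toFinset
  simpa using h2

lemma nearest_left (hA : A ≠ 0) {t : ℝ} (ht : t ∉ Zs A) :
    (∀ x ≤ t, x ∉ Zs A) ∨ ∃ l, l < t ∧ l ∈ Zs A ∧ ∀ x ∈ Ioc l t, x ∉ Zs A := by
  classical
  set S := (Zs_finite hA).toFinset.filter (· < t) with hS
  have hmem : ∀ x, x ∈ S ↔ x ∈ Zs A ∧ x < t := by intro x; simp [hS]
  rcases S.eq_empty_or_nonempty with h | h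
  · left
    intro x hx hxZ
    have hne : x ≠ t := fun h => ht (h ▸ hxZ)
    have : x ∈ S := (hmem x).2 ⟨hxZ, lt_of_le_of_ne hx hne⟩
    rw [h] at this
    simp at this
  · right
    refine ⟨S.max' h, ((hmem _).1 (S.max'_mem h)).2, ((hmem _).1 (S.max'_mem h)).1, ?_⟩
    intro x hx hxZ
    have hne : x ≠ t := fun h => ht (h ▸ hxZ)
    have h1 : x ∈ S := (hmem x).2 ⟨hxZ, lt_of_le_of_ne hx.2 hne⟩
    exact absurd (S.le_max' x h1) (not_le.2 hx.1)

lemma nearest_right (hA : A ≠ 0) {t : ℝ} (ht : t ∉ Zs A) :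
    (∀ x, t ≤ x → x ∉ Zs A) ∨ ∃ r, t < r ∧ r ∈ Zs A ∧ ∀ x ∈ Ico t r, x ∉ Zs A := by
  classical
  set S := (Zs_finite hA).toFinset.filter (t < ·) with hS
  have hmem : ∀ x, x ∈ S ↔ x ∈ Zs A ∧ t < x := by intro x; simp [hS]
  rcases S.eq_empty_or_nonempty with h | h
  · left
    intro x hx hxZ
    have hne : t ≠ x := fun h => ht (h ▸ hxZ)
    have : x ∈ S := (hmem x).2 ⟨hxZ, lt_of_le_of_ne hx hne⟩
    rw [h] at this
    simp at this
  · right
    refine ⟨S.min' h, ((hmem _).1 (S.min'_mem h)).2, ((hmem _).1 (S.min'_mem h)).1, ?_⟩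
    intro x hx hxZ
    have hne : t ≠ x := fun h => ht (h ▸ hxZ)
    have h1 : x ∈ S := (hmem x).2 ⟨hxZ, lt_of_le_of_ne hx.1 hne⟩
    exact absurd (S.min'_le x h1) (not_le.2 hx.2)

lemma int_affine (F : ℝ → ℝ) {a : ℝ} (b : ℝ) : ∫ y, F (a * y + b) = |a|⁻¹ * ∫ x, F x := by
  have h1 := Measure.integral_comp_mul_left (fun x => F (x + b)) a
  rw [h1, integral_add_right_eq_self (μ := volume) F b, abs_inv, smul_eq_mul]

lemma integrable_affine {F : ℝ → ℝ} {a : ℝ} (b : ℝ) (ha : a ≠ 0) (hF : Integrable F) :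
    Integrable fun y => F (a * y + b) := by
  have h1 : Integrable fun x => F (x + b) := hF.comp_add_right b
  exact h1.comp_mul_left' ha

/-- Affine image of the density. -/
lemma Reg.dens_int (R : Reg φ A B P Q g h G) {W : ℝ → ℝ} {a b κ : ℝ} (ha : a ≠ 0)
    (hWm : Measurable W) (hW0 : ∀ y, 0 ≤ W y) (hW : ∀ᵐ y, W y = κ * wt A g (a * y + b)) (f : ℝ[X]) :
    Integrable (fun y => (f.comp (C a * X + C b)).eval y)
      (volume.withDensity fun y => ENNReal.ofReal (W y)) ∧
    ∫ y, (f.comp (C a * X + C b)).eval y ∂(volume.withDensity fun y => ENNReal.ofReal (W y)) =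
      κ * |a|⁻¹ * ∫ x, f.eval x * wt A g x := by
  have hae : (fun y => max (W y) 0 * (f.comp (C a * X + C b)).eval y) =ᵐ[volume]
      fun y => κ * ((fun x => f.eval x * wt A g x) (a * y + b)) := by
    filter_upwards [hW] with y hy
    rw [max_eq_left (hW0 y), hy, eval_comp]
    simp only [eval_add, eval_mul, eval_C, eval_X]
    ring
  constructor
  · rw [integrable_pos hWm]
    exact ((integrable_affine b ha (R.poly_wt_int f)).const_mul κ).congr hae.symm
  · rw [integral_pos hWm, integral_congr_ae hae, integral_const_mul,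
      int_affine (fun x => f.eval x * wt A g x)]
    ring

end

/-- The list of measures. -/
def InList (μ : Measure ℝ) : Prop :=
  ((∃ α β : ℝ, -1 < α ∧ -1 < β ∧
          μ = MeasureTheory.volume.withDensity (fun x : ℝ => ENNReal.ofReal
            ((Set.Icc (-1 : ℝ) 1).indicator (fun y : ℝ => (1 - y) ^ α * (1 + y) ^ β) x)))
        ∨ (∃ α : ℝ, -1 < α ∧
          μ = MeasureTheory.volume.withDensity (fun x : ℝ => ENNReal.ofReal
            ((Set.Ioi (0 : ℝ)).indicator (fun y : ℝ => y ^ α * Real.exp (-y)) x)))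
        ∨ (μ = MeasureTheory.volume.withDensity (fun x : ℝ => ENNReal.ofReal
            (Real.exp (-(x ^ 2)))))
        ∨ (∃ A : ℝ, 0 < A ∧
          μ = MeasureTheory.volume.restrict (Set.Icc (-1 : ℝ) 1)
            + ENNReal.ofReal (1 / A) • (MeasureTheory.Measure.dirac (-1 : ℝ)
                + MeasureTheory.Measure.dirac (1 : ℝ)))
        ∨ (∃ R : ℝ, 0 < R ∧
          μ = MeasureTheory.volume.withDensity (fun x : ℝ => ENNReal.ofReal
            ((Set.Ioi (0 : ℝ)).indicator (fun y : ℝ => Real.exp (-y)) x))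
            + ENNReal.ofReal (1 / R) • MeasureTheory.Measure.dirac (0 : ℝ))
        ∨ (∃ α M : ℝ, -1 < α ∧ 0 < M ∧
          μ = MeasureTheory.volume.withDensity (fun x : ℝ => ENNReal.ofReal
            ((Set.Ico (0 : ℝ) 1).indicator (fun y : ℝ => (1 - y) ^ α) x))
            + ENNReal.ofReal (1 / M) • MeasureTheory.Measure.dirac (0 : ℝ)))

/-- The measure is, on polynomials, an affine image of a listed one. -/
def Concl (φ : Measure ℝ) : Prop := ∃ μ : Measure ℝ, InList μ ∧ ∃ a b K : ℝ, a ≠ 0 ∧ K ≠ 0 ∧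
  ∀ f : ℝ[X], ∫ x, (f.comp (C a * X + C b)).eval x ∂μ = K * ∫ x, f.eval x ∂φ

lemma Concl_of_rm {φ : Measure ℝ} (hc : Concl (rm φ)) : Concl φ := by
  obtain ⟨μ, hμ, a, b, K, ha, hK, h⟩ := hc
  refine ⟨μ, hμ, -a, -b, K, neg_ne_zero.2 ha, hK, fun f => ?_⟩
  have h1 := h (rf f)
  rw [rm_int] at h1
  simp only [rf_eval, neg_neg] at h1
  rw [← h1]
  congr 1; funext x
  simp only [eval_comp, eval_add, eval_mul, eval_C, eval_X, rf_eval]
  congr 1; ring

/-- The integral against a density plus a point mass. -/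
lemma int_add_dirac {μ : Measure ℝ} {f : ℝ → ℝ} (hf : Integrable f μ) {m : ℝ} (hm : 0 ≤ m) (x₀ : ℝ) :
    ∫ x, f x ∂(μ + ENNReal.ofReal m • Measure.dirac x₀) = ∫ x, f x ∂μ + m * f x₀ := by
  have h1 : Integrable f (ENNReal.ofReal m • Measure.dirac x₀) :=
    (integrable_dirac (by simp)).smul_measure ENNReal.ofReal_ne_top
  rw [integral_add_measure hf h1, integral_smul_measure, integral_dirac, ENNReal.toReal_ofReal hm,
    smul_eq_mul]

end Pool.Agent.V5helper26.DD
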