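import Pool.Agent.V5helper26.DD.Det

/-! Growth of the moments and exponential integrability. -/

set_option autoImplicit false

open MeasureTheory Polynomial Filter Topology Set

namespace Pool.Agent.V5helper26.DD

lemma integrable_poly {μ : Measure ℝ} (h : ∀ k : ℕ, Integrable (fun x : ℝ => x ^ k) μ) (f : ℝ[X]) :
    Integrable (fun x => f.eval x) μ := by
  have : (fun x => f.eval x) = fun x => ∑ i ∈ Finset.range (f.natDegree + 1), f.coeff i * x ^ i := by
    funext x; exact eval_eq_sum_range x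
  rw [this]
  exact integrable_finsetSum _ fun i _ => (h i).const_mul _

/-- Tonelli for the series of `cosh`. -/
lemma lintegral_cosh {μ : Measure ℝ} {w : ℝ → ℝ} (hw : Measurable w) (hw0 : ∀ x, 0 ≤ w x) (ε : ℝ) :
    ∫⁻ x, ENNReal.ofReal (w x * Real.cosh (ε * x)) ∂μ =
      ∑' n : ℕ, ∫⁻ x, ENNReal.ofReal (w x * ((ε * x) ^ (2 * n) / (Nat.factorial (2 * n) : ℝ))) ∂μ := by
  rw [← lintegral_tsum (fun n => (by fun_prop))]
  apply lintegral_congr
  intro x
  have h := Real.hasSum_cosh (ε * x)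
  have h2 := h.mul_left (w x)
  rw [← ENNReal.ofReal_tsum_of_nonneg _ h2.summable, h2.tsum_eq]
  intro n
  have : 0 ≤ (ε * x) ^ (2 * n) := by rw [pow_mul]; positivity
  exact mul_nonneg (hw0 x) (by positivity)

lemma exp_le_two_cosh {ε x : ℝ} (hε : 0 ≤ ε) : Real.exp (ε * |x|) ≤ 2 * Real.cosh (ε * x) := by
  have h1 : ε * |x| = |ε * x| := by rw [abs_mul, abs_of_nonneg hε]
  rw [h1, ← Real.cosh_abs, Real.cosh_eq]
  have := Real.exp_pos (-|ε * x|)
  linarith

lemma cosh_le_exp {ε x : ℝ} (hε : 0 ≤ ε) : Real.cosh (ε * x) ≤ Real.exp (ε * |x|) := by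
  have h1 : ε * |x| = |ε * x| := by rw [abs_mul, abs_of_nonneg hε]
  rw [h1, ← Real.cosh_abs, Real.cosh_eq]
  have : Real.exp (-|ε * x|) ≤ Real.exp (|ε * x|) := Real.exp_le_exp.2 (by
    have := abs_nonneg (ε * x); linarith)
  linarith

lemma integrable_exp_of_lintegral {μ : Measure ℝ} {w : ℝ → ℝ} (hw : Measurable w)
    (hw0 : ∀ x, 0 ≤ w x) {ε : ℝ} (hε : 0 ≤ ε)
    (h : ∫⁻ x, ENNReal.ofReal (w x * Real.cosh (ε * x)) ∂μ < ⊤) :
    Integrable (fun x => w x * Real.exp (ε * |x|)) μ := by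
  have h1 : Integrable (fun x => w x * Real.cosh (ε * x)) μ := by
    refine ⟨by fun_prop, ?_⟩
    rw [hasFiniteIntegral_iff_ofReal (ae_of_all _ fun x => mul_nonneg (hw0 x) (Real.cosh_pos _).le)]
    exact h
  refine (h1.const_mul 2).mono' (by fun_prop) (ae_of_all _ fun x => ?_)
  rw [norm_mul, Real.norm_of_nonneg (hw0 x), Real.norm_of_nonneg (Real.exp_pos _).le]
  have := mul_le_mul_of_nonneg_left (exp_le_two_cosh (x := x) hε) (hw0 x)
  linarith

/-- Factorial growth of the moments gives an exponential moment. -/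
lemma expint {μ : Measure ℝ} (hint : ∀ k : ℕ, Integrable (fun x : ℝ => x ^ k) μ) {K C : ℝ}
    (hC : 1 ≤ C) (hb : ∀ n : ℕ, |∫ x, x ^ n ∂μ| ≤ K * C ^ n * (Nat.factorial (n + 1) : ℝ)) :
    ∃ ε : ℝ, 0 < ε ∧ Integrable (fun x : ℝ => Real.exp (ε * |x|)) μ := by
  have hCpos : 0 < C := by linarith
  have hK : 0 ≤ K := by
    have := (abs_nonneg _).trans (hb 0)
    simpa using this
  refine ⟨1 / (2 * C), by positivity, ?_⟩
  set ε := 1 / (2 * C) with hε
  have hεp : 0 < ε := by positivity
  have hmain : ∫⁻ x, ENNReal.ofReal (1 * Real.cosh (ε * x)) ∂μ < ⊤ := by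
    rw [lintegral_cosh (w := fun _ => 1) measurable_const (fun _ => zero_le_one)]
    have hle : ∀ n : ℕ, ∫⁻ x, ENNReal.ofReal (1 * ((ε * x) ^ (2 * n) / (Nat.factorial (2 * n) : ℝ))) ∂μ ≤
        ENNReal.ofReal (K * ((2 * n + 1 : ℝ) * (1 / 4) ^ n)) := by
      intro n
      have hnn : ∀ x : ℝ, 0 ≤ 1 * ((ε * x) ^ (2 * n) / (Nat.factorial (2 * n) : ℝ)) := by
        intro x
        have : 0 ≤ (ε * x) ^ (2 * n) := by rw [pow_mul]; positivity
        positivity
      have heq : (fun x : ℝ => 1 * ((ε * x) ^ (2 * n) / (Nat.factorial (2 * n) : ℝ))) =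
          fun x => (ε ^ (2 * n) / (Nat.factorial (2 * n) : ℝ)) * x ^ (2 * n) := by
        funext x; rw [mul_pow]; ring
      rw [← ofReal_integral_eq_lintegral_ofReal (by rw [heq]; exact (hint _).const_mul _)
        (ae_of_all _ hnn), heq, integral_const_mul]
      apply ENNReal.ofReal_le_ofReal
      have h1 := (le_abs_self _).trans (hb (2 * n))
      have h2 : (ε ^ (2 * n) / (Nat.factorial (2 * n) : ℝ)) * ∫ x, x ^ (2 * n) ∂μ ≤
          (ε ^ (2 * n) / (Nat.factorial (2 * n) : ℝ)) *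
            (K * C ^ (2 * n) * (Nat.factorial (2 * n + 1) : ℝ)) :=
        mul_le_mul_of_nonneg_left h1 (by positivity)
      refine h2.trans (le_of_eq ?_)
      rw [Nat.factorial_succ]
      push_cast
      have h3 : (Nat.factorial (2 * n) : ℝ) ≠ 0 := by positivity
      have h4 : ε ^ (2 * n) * C ^ (2 * n) = (1 / 4) ^ n := by
        rw [← mul_pow, hε, pow_mul]
        congr 1
        field_simp
        norm_num
      have h5 : ε ^ (2 * n) / (Nat.factorial (2 * n) : ℝ) *
          (K * C ^ (2 * n) * ((2 * (n : ℝ) + 1) * (Nat.factorial (2 * n) : ℝ))) =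
          K * ((2 * (n : ℝ) + 1) * (ε ^ (2 * n) * C ^ (2 * n))) := by
        field_simp
      rw [h5, h4]
    refine lt_of_le_of_lt (ENNReal.tsum_le_tsum hle) ?_
    have hs : Summable fun n : ℕ => K * ((2 * n + 1 : ℝ) * (1 / 4) ^ n) := by
      apply Summable.mul_left
      have h1 : Summable fun n : ℕ => (n : ℝ) ^ 1 * (1 / 4 : ℝ) ^ n :=
        summable_pow_mul_geometric_of_norm_lt_one 1 (by norm_num)
      have h2 : Summable fun n : ℕ => (1 / 4 : ℝ) ^ n :=
        summable_geometric_of_lt_one (by norm_num) (by norm_num)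
      have h3 := (h1.mul_left 2).add h2
      refine h3.congr fun n => ?_
      ring
    rw [← ENNReal.ofReal_tsum_of_nonneg (fun n => by positivity) hs]
    exact ENNReal.ofReal_lt_top
  have := integrable_exp_of_lintegral (w := fun _ => 1) measurable_const (fun _ => zero_le_one)
    hεp.le hmain
  simpa using this

/-- A first order Pearson equation forces factorial growth of the moments. -/
lemma growth {φ : Measure ℝ} (hint : ∀ k : ℕ, Integrable (fun x : ℝ => x ^ k) φ)
    (hφ : ∫ _x : ℝ, (1 : ℝ) ∂φ ≠ 0) {A B : ℝ[X]} (hA : A ≠ 0)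
    (hrel : ∀ f : ℝ[X], ∫ x, (A * derivative f + B * f).eval x ∂φ = 0) :
    ∃ K C : ℝ, 1 ≤ C ∧ ∀ n : ℕ, |∫ x, x ^ n ∂φ| ≤ K * C ^ n * (Nat.factorial (n + 1) : ℝ) := by
  set m : ℕ → ℝ := fun n => ∫ x, x ^ n ∂φ with hm
  set Y : ℝ[X] := X * B with hY
  set d : ℕ := max A.natDegree Y.natDegree with hd
  -- recurrence
  have hrec : ∀ k : ℕ, ∑ i ∈ Finset.range (d + 1), (((k : ℝ) + 1) * A.coeff i + Y.coeff i) * m (k + i) = 0 := by
    intro k
    have h1 := hrel (X ^ (k + 1))
    have h2 : ∀ x : ℝ, (A * derivative (X ^ (k + 1)) + B * X ^ (k + 1)).eval x =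
        ∑ i ∈ Finset.range (d + 1), (((k : ℝ) + 1) * A.coeff i + Y.coeff i) * x ^ (k + i) := by
      intro x
      have hAe : A.eval x = ∑ i ∈ Finset.range (d + 1), A.coeff i * x ^ i :=
        eval_eq_sum_range' (Nat.lt_succ_of_le (le_max_left _ _)) x
      have hYe : Y.eval x = ∑ i ∈ Finset.range (d + 1), Y.coeff i * x ^ i :=
        eval_eq_sum_range' (Nat.lt_succ_of_le (le_max_right _ _)) x
      have h3 : (A * derivative (X ^ (k + 1)) + B * X ^ (k + 1)).eval x =
          ((k : ℝ) + 1) * x ^ k * A.eval x + x ^ k * Y.eval x := by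
        simp [hY]
        ring
      rw [h3, hAe, hYe, Finset.mul_sum, Finset.mul_sum, ← Finset.sum_add_distrib]
      apply Finset.sum_congr rfl
      intro i _
      rw [pow_add]; ring
    simp only [h2] at h1
    rw [integral_finsetSum _ (fun i _ => (hint _).const_mul _)] at h1
    simpa only [integral_const_mul] using h1
  -- leading coefficient
  have hlead : ∃ (c : ℝ) (k0 : ℕ), 0 < c ∧ ∀ k : ℕ, k0 ≤ k → c ≤ |((k : ℝ) + 1) * A.coeff d + Y.coeff d| := by
    by_cases hAd : A.coeff d = 0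
    · have hYd : Y.coeff d ≠ 0 := by
        intro h0
        rcases max_choice A.natDegree Y.natDegree with h | h
        · rw [hd, h] at hAd
          exact hA (leadingCoeff_eq_zero.1 hAd)
        · have hY0 : Y = 0 := by
            rw [hd, h] at h0
            exact leadingCoeff_eq_zero.1 h0
          have : d = A.natDegree := by rw [hd, hY0]; simp
          rw [this] at hAd
          exact hA (leadingCoeff_eq_zero.1 hAd)
      refine ⟨|Y.coeff d|, 0, abs_pos.2 hYd, fun k _ => ?_⟩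
      rw [hAd]; simp
    · have hpos : 0 < |A.coeff d| := abs_pos.2 hAd
      obtain ⟨k0, hk0⟩ := exists_nat_gt (|Y.coeff d| / |A.coeff d|)
      refine ⟨|A.coeff d|, k0, hpos, fun k hk => ?_⟩
      have h1 : |Y.coeff d| < k * |A.coeff d| := by
        rw [div_lt_iff₀ hpos] at hk0
        have : (k0 : ℝ) ≤ k := by exact_mod_cast hk
        nlinarith
      have h2 : |((k : ℝ) + 1) * A.coeff d| - |Y.coeff d| ≤ |((k : ℝ) + 1) * A.coeff d + Y.coeff d| := by
        have := abs_sub_abs_le_abs_sub (((k : ℝ) + 1) * A.coeff d) (-Y.coeff d)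
        simpa using this
      rw [abs_mul, abs_of_nonneg (by positivity : (0 : ℝ) ≤ (k : ℝ) + 1)] at h2
      linarith
  obtain ⟨c, k0, hc, hlead⟩ := hlead
  -- d ≥ 1
  have hd1 : 1 ≤ d := by
    by_contra hcon
    have hd0 : d = 0 := by omega
    have hAn : A.natDegree = 0 := by
      have : A.natDegree ≤ d := le_max_left _ _
      omega
    have hYn : Y.natDegree = 0 := by
      have : Y.natDegree ≤ d := le_max_right _ _
      omega
    have hB : B = 0 := by
      by_contra hB
      have : Y.natDegree = B.natDegree + 1 := by rw [hY, natDegree_X_mul hB]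
      omega
    have h1 := hrec 0
    rw [hd0] at h1
    simp only [zero_add, Finset.range_one, Finset.sum_singleton, Nat.cast_zero] at h1
    have h2 : A.coeff 0 ≠ 0 := by
      intro h
      apply hA
      rw [eq_C_of_natDegree_eq_zero hAn, h, C_0]
    have h3 : Y.coeff 0 = 0 := by rw [hY, hB]; simp
    rw [h3] at h1
    have h4 : m 0 ≠ 0 := by simpa [hm] using hφ
    rcases mul_eq_zero.1 h1 with h | h
    · simp at h; exact h2 h
    · exact h4 h
  set S : ℝ := ∑ i ∈ Finset.range (d + 1), (|A.coeff i| + |Y.coeff i|) with hS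
  have hS0 : 0 ≤ S := Finset.sum_nonneg fun i _ => by positivity
  have hcoef : ∀ k i : ℕ, i ∈ Finset.range (d + 1) → |((k : ℝ) + 1) * A.coeff i + Y.coeff i| ≤ (k + 1) * S := by
    intro k i hi
    have h1 : |A.coeff i| + |Y.coeff i| ≤ S := by
      exact Finset.single_le_sum (f := fun i => |A.coeff i| + |Y.coeff i|) (fun j _ => by positivity) hi
    have h2 : |((k : ℝ) + 1) * A.coeff i + Y.coeff i| ≤ ((k : ℝ) + 1) * |A.coeff i| + |Y.coeff i| := by
      refine (abs_add_le _ _).trans ?_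
      rw [abs_mul, abs_of_nonneg (by positivity : (0 : ℝ) ≤ (k : ℝ) + 1)]
    have h3 : |Y.coeff i| ≤ ((k : ℝ) + 1) * |Y.coeff i| := by
      have := abs_nonneg (Y.coeff i)
      have hk : (0 : ℝ) ≤ k := by positivity
      nlinarith
    have hk : (0 : ℝ) ≤ k := by positivity
    nlinarith
  -- partial sums
  set M : ℕ → ℝ := fun n => ∑ j ∈ Finset.range (n + 1), |m j| with hM
  have hM0 : ∀ n, 0 ≤ M n := fun n => Finset.sum_nonneg fun i _ => abs_nonneg _
  have hmM : ∀ j n, j ≤ n → |m j| ≤ M n := fun j n hj =>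
    Finset.single_le_sum (f := fun j => |m j|) (fun i _ => abs_nonneg _)
      (Finset.mem_range.2 (Nat.lt_succ_of_le hj))
  have hstep : ∀ n : ℕ, k0 + d ≤ n → |m (n + 1)| ≤ (S * d / c) * (n + 2) * M n := by
    intro n hn
    obtain ⟨k, hk⟩ : ∃ k, n + 1 = k + d := ⟨n + 1 - d, by omega⟩
    have hkk : k0 ≤ k := by omega
    have h1 := hrec k
    rw [Finset.sum_range_succ] at h1
    have h2 : (((k : ℝ) + 1) * A.coeff d + Y.coeff d) * m (n + 1) =
        -∑ i ∈ Finset.range d, (((k : ℝ) + 1) * A.coeff i + Y.coeff i) * m (k + i) := by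
      rw [hk]; linarith
    have h3 : |∑ i ∈ Finset.range d, (((k : ℝ) + 1) * A.coeff i + Y.coeff i) * m (k + i)| ≤
        d * (((k : ℝ) + 1) * S * M n) := by
      refine (Finset.abs_sum_le_sum_abs _ _).trans ?_
      have : ∀ i ∈ Finset.range d, |(((k : ℝ) + 1) * A.coeff i + Y.coeff i) * m (k + i)| ≤
          ((k : ℝ) + 1) * S * M n := by
        intro i hi
        rw [abs_mul]
        have hi' := Finset.mem_range.1 hi
        exact mul_le_mul (hcoef k i (Finset.mem_range.2 (by omega))) (hmM _ _ (by omega))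
          (abs_nonneg _) (by positivity)
      have h4 := Finset.sum_le_card_nsmul _ _ _ this
      simpa using h4
    have h4 : c * |m (n + 1)| ≤ d * (((k : ℝ) + 1) * S * M n) := by
      calc c * |m (n + 1)| ≤ |((k : ℝ) + 1) * A.coeff d + Y.coeff d| * |m (n + 1)| :=
            mul_le_mul_of_nonneg_right (hlead k hkk) (abs_nonneg _)
        _ = |∑ i ∈ Finset.range d, (((k : ℝ) + 1) * A.coeff i + Y.coeff i) * m (k + i)| := by
            rw [← abs_mul, h2, abs_neg]
        _ ≤ _ := h3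
    have h5 : ((k : ℝ) + 1) ≤ n + 2 := by
      have : k ≤ n := by omega
      have : (k : ℝ) ≤ n := by exact_mod_cast this
      linarith
    have h6 : (d : ℝ) * (((k : ℝ) + 1) * S * M n) ≤ d * ((n + 2) * S * M n) := by
      have hSM : 0 ≤ S * M n := mul_nonneg hS0 (hM0 n)
      have hd0 : (0 : ℝ) ≤ d := by positivity
      have := mul_le_mul_of_nonneg_left (mul_le_mul_of_nonneg_right h5 hSM) hd0
      nlinarith
    have h7 : |m (n + 1)| ≤ (d * ((n + 2) * S * M n)) / c := by
      rw [le_div_iff₀ hc]; linarith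
    refine h7.trans (le_of_eq ?_)
    ring
  set Q : ℝ := S * d / c with hQ
  have hQ0 : 0 ≤ Q := by positivity
  set N0 := k0 + d with hN0
  have hMs : ∀ n, M (n + 1) = M n + |m (n + 1)| := fun n => by
    simp only [hM]; rw [Finset.sum_range_succ]
  have hind : ∀ n, N0 ≤ n → M n ≤ M N0 * (1 + Q) ^ n * (Nat.factorial (n + 1) : ℝ) := by
    intro n hn
    induction n, hn using Nat.le_induction with
    | base =>
      have h1 : (1 : ℝ) ≤ (1 + Q) ^ N0 := one_le_pow₀ (by linarith)
      have h2 : (1 : ℝ) ≤ (Nat.factorial (N0 + 1) : ℝ) := by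
        exact_mod_cast Nat.succ_le_of_lt (Nat.factorial_pos _)
      have h3 : 1 ≤ (1 + Q) ^ N0 * (Nat.factorial (N0 + 1) : ℝ) := by nlinarith
      nlinarith [hM0 N0]
    | succ n hn ih =>
      rw [hMs]
      have h1 := hstep n hn
      have hn0 : (0 : ℝ) ≤ n := by positivity
      have h2 : M n + |m (n + 1)| ≤ (1 + Q) * (n + 2) * M n := by nlinarith [hM0 n]
      refine h2.trans ?_
      have h3 : (1 + Q) * ((n : ℝ) + 2) * M n ≤
          (1 + Q) * ((n : ℝ) + 2) * (M N0 * (1 + Q) ^ n * (Nat.factorial (n + 1) : ℝ)) :=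
        mul_le_mul_of_nonneg_left ih (by positivity)
      refine h3.trans (le_of_eq ?_)
      rw [Nat.factorial_succ (n + 1)]
      push_cast
      ring
  refine ⟨M N0, 1 + Q, by linarith, fun n => ?_⟩
  rcases le_total N0 n with h | h
  · exact (hmM n n le_rfl).trans (hind n h)
  · have h1 := hmM n N0 h
    have h2 : (1 : ℝ) ≤ (1 + Q) ^ n := one_le_pow₀ (by linarith)
    have h3 : (1 : ℝ) ≤ (Nat.factorial (n + 1) : ℝ) := by
      exact_mod_cast Nat.succ_le_of_lt (Nat.factorial_pos _)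
    have h4 : 1 ≤ (1 + Q) ^ n * (Nat.factorial (n + 1) : ℝ) := by nlinarith
    nlinarith [hM0 N0]

end Pool.Agent.V5helper26.DD
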