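import Pool.Agent.V5helper26.DD.Loc

/-! Analysis on an unbounded component. -/

set_option autoImplicit false

open MeasureTheory Polynomial Filter Topology Set

namespace Pool.Agent.V5helper26.DD

lemma eventually_pos_of_lead {f : ℝ[X]} (hf : 0 < f.leadingCoeff) : ∀ᶠ x : ℝ in atTop, 0 < f.eval x := by
  have hf0 : f ≠ 0 := by rintro rfl; simp at hf
  have h1 : Tendsto (fun x => f.eval x / (X ^ f.natDegree : ℝ[X]).eval x) atTop
      (𝓝 (f.leadingCoeff / (X ^ f.natDegree : ℝ[X]).leadingCoeff)) := by
    apply Polynomial.div_tendsto_atTop_leadingCoeff_div_of_degree_eq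
    rw [degree_X_pow, degree_eq_natDegree hf0]
  have h2 : 0 < f.leadingCoeff / (X ^ f.natDegree : ℝ[X]).leadingCoeff := by
    rw [leadingCoeff_X_pow, div_one]; exact hf
  filter_upwards [h1.eventually_const_lt h2, eventually_gt_atTop 0] with x hx hx0
  simp only [eval_pow, eval_X] at hx
  have h3 : 0 < x ^ f.natDegree := pow_pos hx0 _
  exact (div_pos_iff_of_pos_right h3).1 hx

section
variable {φ : Measure ℝ} {A B P Q : ℝ[X]} {g h G : ℝ → ℝ}

lemma Reg.no_mono (R : Reg φ A B P Q g h G) {M : ℝ} (hM : ∀ x, M < x → x ∉ Zs A ∧ 0 < g x) (n : ℕ)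
    (hn : ∀ᶠ x in atTop, 0 ≤ (n : ℝ) + x * (B.eval x / A.eval x)) : False := by
  obtain ⟨M1, hM1⟩ := eventually_atTop.1 hn
  set M' := max (max M 0) M1 + 1 with hM'
  have hM'M : M < M' := by
    have := le_max_left (max M 0) M1
    have := le_max_left M 0
    linarith
  have hM'0 : 0 < M' := by
    have := le_max_left (max M 0) M1
    have := le_max_right M 0
    linarith
  have hM'1 : M1 ≤ M' := by
    have := le_max_right (max M 0) M1
    linarith
  set u : ℝ → ℝ := fun x => g x * x ^ (n + 1) with hu
  have hd : ∀ x, M' < x → HasDerivAt u (g x * x ^ n * (x * (B.eval x / A.eval x) + (n + 1))) x := by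
    intro x hx
    have hxZ := (hM x (by linarith)).1
    have h1 := (R.off hxZ).1.mul (hasDerivAt_pow (n + 1) x)
    have hAx : A.eval x ≠ 0 := hxZ
    have h2 : B.eval x * wt A g x * x ^ (n + 1) + g x * (((n + 1 : ℕ) : ℝ) * x ^ (n + 1 - 1)) =
        g x * x ^ n * (x * (B.eval x / A.eval x) + (n + 1)) := by
      unfold wt
      simp only [Nat.add_sub_cancel]
      push_cast
      field_simp
      ring
    rw [h2] at h1
    exact h1
  have hmono : MonotoneOn u (Ici M') := by
    apply monotoneOn_of_deriv_nonneg (convex_Ici M')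
    · exact (R.g_cont.mul (continuous_pow (n + 1))).continuousOn
    · intro x hx
      rw [interior_Ici] at hx
      exact (hd x hx).differentiableAt.differentiableWithinAt
    · intro x hx
      rw [interior_Ici] at hx
      have hx' : M' < x := hx
      rw [(hd x hx').deriv]
      have h1 := hM1 x (by linarith)
      have h2 : 0 ≤ g x * x ^ n := mul_nonneg (R.g0 x) (pow_nonneg (by linarith) _)
      apply mul_nonneg h2
      linarith
  have hc : 0 < u M' := mul_pos (hM M' hM'M).2 (pow_pos hM'0 _)
  have hint : IntegrableOn u (Ioi M') := by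
    have h1 : IntegrableOn (fun x => (A * X ^ (n + 1)).eval x * wt A g x) (Ioi M') :=
      (R.poly_wt_int (A * X ^ (n + 1))).integrableOn
    refine h1.congr_fun (fun x hx => ?_) measurableSet_Ioi
    have hx' : M' < x := hx
    have hAx : A.eval x ≠ 0 := (hM x (by linarith)).1
    simp only [hu, eval_mul, eval_pow, eval_X, wt]
    field_simp
  have hint2 : IntegrableOn (fun _ => u M') (Ioi M') := by
    refine Integrable.mono' hint aestronglyMeasurable_const ?_
    rw [ae_restrict_iff' measurableSet_Ioi]
    refine ae_of_all _ fun x hx => ?_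
    rw [Real.norm_of_nonneg hc.le]
    have hx' : M' < x := hx
    exact hmono self_mem_Ici (show M' ≤ x from hx'.le) hx'.le
  rw [integrableOn_const_iff] at hint2
  rcases hint2 with h1 | h1
  · exact hc.ne' (by simpa using h1)
  · rw [Real.volume_Ioi] at h1
    exact lt_irrefl _ h1

/-- Structure at plus infinity. -/
lemma Reg.inf_right (R : Reg φ A B P Q g h G) {M : ℝ} (hM : ∀ x, M < x → x ∉ Zs A ∧ 0 < g x) :
    A.leadingCoeff * B.leadingCoeff < 0 ∧
    ((A.natDegree = 0 ∧ B.natDegree = 0) ∨ (A.natDegree = 0 ∧ B.natDegree = 1) ∨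
      (A.natDegree = 1 ∧ B.natDegree = 1) ∨ (A.natDegree = 2 ∧ B.natDegree = 2)) := by
  have hA0 := R.A0
  -- degree of B at least degree of A
  have hab : A.natDegree ≤ B.natDegree := by
    by_contra hlt
    push Not at hlt
    have h1 : (fun x => (X * B : ℝ[X]).eval x) =O[atTop] fun x => A.eval x := by
      apply Polynomial.isBigO_atTop_of_degree_le
      rw [degree_eq_natDegree hA0]
      apply degree_le_of_natDegree_le
      refine natDegree_mul_le.trans ?_
      rw [natDegree_X]; omega
    obtain ⟨c, hc⟩ := h1.bound
    apply R.no_mono hM ⌈c⌉₊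
    filter_upwards [hc, eventually_gt_atTop M] with x hx hxM
    have hAx : A.eval x ≠ 0 := (hM x hxM).1
    simp only [eval_mul, eval_X, Real.norm_eq_abs] at hx
    have h2 : |x * (B.eval x / A.eval x)| ≤ c := by
      rw [← mul_div_assoc, abs_div, div_le_iff₀ (abs_pos.2 hAx)]
      exact hx
    have h3 := (abs_le.1 h2).1
    have h4 := Nat.le_ceil c
    linarith
  have hlead : A.leadingCoeff * B.leadingCoeff < 0 := by
    by_contra hge
    push Not at hge
    rcases hge.lt_or_eq with h1 | h1
    · rw [← leadingCoeff_mul] at h1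
      apply R.no_mono hM 0
      filter_upwards [eventually_pos_of_lead h1, eventually_gt_atTop 0, eventually_gt_atTop M] with x hx hx0 hxM
      have hAx : A.eval x ≠ 0 := (hM x hxM).1
      rw [eval_mul] at hx
      have h2 : B.eval x / A.eval x = A.eval x * B.eval x / (A.eval x) ^ 2 := by field_simp
      rw [h2]
      have : 0 < (A.eval x) ^ 2 := by positivity
      push_cast
      rw [zero_add]
      exact mul_nonneg hx0.le (div_nonneg hx.le this.le)
    · have hB0 : B = 0 := by
        have : A.leadingCoeff ≠ 0 := leadingCoeff_ne_zero.2 hA0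
        have h2 := (mul_eq_zero.1 h1.symm).resolve_left this
        exact leadingCoeff_eq_zero.1 h2
      apply R.no_mono hM 0
      filter_upwards with x
      simp [hB0]
  refine ⟨hlead, ?_⟩
  have hB0 : B ≠ 0 := by rintro rfl; simp at hlead
  obtain ⟨hMZ, hMg⟩ := hM (M + 1) (by linarith)
  have hid := R.ident hMZ hMg
  have hdA := R.degA
  have hdB := R.degB
  have hdP := R.degP
  have hdQ := R.degQ
  have key : 2 * B.natDegree ≤ A.natDegree + 2 := by
    by_contra hcon
    push Not at hcon
    set a := A.natDegree with ha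
    set b := B.natDegree with hb
    set N := A * (derivative B - P) + B * (B - derivative A) with hN
    have hB' : (derivative B).natDegree ≤ 2 := (natDegree_derivative_le B).trans (by omega)
    have hA' : (derivative A).natDegree ≤ a - 1 := natDegree_derivative_le A
    have hA'b : (derivative A).coeff b = 0 := by
      apply coeff_eq_zero_of_natDegree_lt
      omega
    have hd1 : (A * (derivative B - P)).natDegree ≤ a + 2 := by
      refine natDegree_mul_le.trans ?_
      have : (derivative B - P).natDegree ≤ 2 := (natDegree_sub_le _ _).trans (max_le hB' hdP)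
      omega
    have hd2 : (B - derivative A).natDegree ≤ b := by
      refine (natDegree_sub_le _ _).trans (max_le le_rfl ?_)
      omega
    have hd2' : (B - 2 * derivative A).natDegree ≤ b := by
      refine (natDegree_sub_le _ _).trans (max_le le_rfl ?_)
      refine natDegree_mul_le.trans ?_
      rw [show (2 : ℝ[X]) = C 2 from rfl, natDegree_C]
      omega
    have hNdeg : N.natDegree ≤ b + b := by
      refine (natDegree_add_le _ _).trans (max_le (by omega) ?_)
      refine natDegree_mul_le.trans ?_
      omega
    have hNco : N.coeff (b + b) = B.leadingCoeff ^ 2 := by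
      rw [hN, coeff_add, coeff_eq_zero_of_natDegree_lt (lt_of_le_of_lt hd1 (by omega)),
        coeff_mul_add_eq_of_natDegree_le le_rfl hd2, coeff_sub, hA'b, sub_zero, zero_add, hb, coeff_natDegree]
      ring
    have hco := congrArg (fun f : ℝ[X] => f.coeff (b + (b + b))) hid
    simp only [coeff_add, coeff_zero] at hco
    have hc1 : (A * derivative N).coeff (b + (b + b)) = 0 := by
      apply coeff_eq_zero_of_natDegree_lt
      refine lt_of_le_of_lt natDegree_mul_le ?_
      have := natDegree_derivative_le N
      omega
    have hc2 : (Q * A ^ 2).coeff (b + (b + b)) = 0 := by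
      apply coeff_eq_zero_of_natDegree_lt
      refine lt_of_le_of_lt natDegree_mul_le ?_
      have := natDegree_pow_le (p := A) (n := 2)
      omega
    have hc3 : ((B - 2 * derivative A) * N).coeff (b + (b + b)) = B.leadingCoeff ^ 3 := by
      rw [coeff_mul_add_eq_of_natDegree_le hd2' hNdeg, hNco, coeff_sub]
      have : (2 * derivative A).coeff b = 0 := by
        rw [show (2 : ℝ[X]) = C 2 from rfl, coeff_C_mul, hA'b, mul_zero]
      rw [this, sub_zero, hb, coeff_natDegree]
      ring
    rw [hc1, hc2, hc3] at hco
    have : B.leadingCoeff ≠ 0 := leadingCoeff_ne_zero.2 hB0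
    apply this
    have h4 : B.leadingCoeff ^ 3 = 0 := by linarith
    exact pow_eq_zero_iff (by norm_num) |>.1 h4
  omega

end

end Pool.Agent.V5helper26.DD
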