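import Pool.Agent.V5helper26.DD.Dens

/-! Local analysis at the zeros of `A`. -/

set_option autoImplicit false

open MeasureTheory Polynomial Filter Topology Set

namespace Pool.Agent.V5helper26.DD

/-- Uniqueness of the zero solution for a planar linear system. -/
lemma lin_unique {u v a b c d : ℝ → ℝ} {l r z K : ℝ} (hz : z ∈ Ioo l r)
    (ha : ∀ t ∈ Ioo l r, |a t| ≤ K) (hb : ∀ t ∈ Ioo l r, |b t| ≤ K)
    (hc : ∀ t ∈ Ioo l r, |c t| ≤ K) (hd : ∀ t ∈ Ioo l r, |d t| ≤ K)
    (hu : ∀ t ∈ Ioo l r, HasDerivAt u (a t * u t + b t * v t) t)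
    (hv : ∀ t ∈ Ioo l r, HasDerivAt v (c t * u t + d t * v t) t)
    (hu0 : u z = 0) (hv0 : v z = 0) : ∀ t ∈ Ioo l r, u t = 0 ∧ v t = 0 := by
  have hK : 0 ≤ K := (abs_nonneg _).trans (ha z hz)
  set V : ℝ → ℝ × ℝ → ℝ × ℝ := fun t p => (a t * p.1 + b t * p.2, c t * p.1 + d t * p.2) with hV
  have hL : ∀ t ∈ Ioo l r, LipschitzOnWith (Real.toNNReal (2 * K)) (V t) (univ : Set (ℝ × ℝ)) := by
    intro t ht
    apply LipschitzOnWith.of_dist_le_mul
    intro p _ q _
    rw [Real.coe_toNNReal _ (by linarith), dist_eq_norm, dist_eq_norm]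
    have e1 : |p.1 - q.1| ≤ ‖p - q‖ := norm_fst_le (p - q)
    have e2 : |p.2 - q.2| ≤ ‖p - q‖ := norm_snd_le (p - q)
    have key : ∀ x y : ℝ, |x| ≤ K → |y| ≤ K → |x * (p.1 - q.1) + y * (p.2 - q.2)| ≤ 2 * K * ‖p - q‖ := by
      intro x y hx hy
      calc |x * (p.1 - q.1) + y * (p.2 - q.2)| ≤ |x * (p.1 - q.1)| + |y * (p.2 - q.2)| := abs_add_le _ _
        _ = |x| * |p.1 - q.1| + |y| * |p.2 - q.2| := by rw [abs_mul, abs_mul]
        _ ≤ K * ‖p - q‖ + K * ‖p - q‖ := by gcongr
        _ = 2 * K * ‖p - q‖ := by ring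
    apply max_le
    · have := key (a t) (b t) (ha t ht) (hb t ht)
      simp only [hV, Prod.fst_sub, Real.norm_eq_abs]
      refine le_trans (le_of_eq ?_) this
      congr 1; ring
    · have := key (c t) (d t) (hc t ht) (hd t ht)
      simp only [hV, Prod.snd_sub, Real.norm_eq_abs]
      refine le_trans (le_of_eq ?_) this
      congr 1; ring
  have h1 : EqOn (fun t => (u t, v t)) (fun _ => ((0 : ℝ), (0 : ℝ))) (Ioo l r) := by
    apply ODE_solution_unique_of_mem_Ioo (v := V) (s := fun _ => univ) hL hz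
    · intro t ht
      exact ⟨(hu t ht).prodMk (hv t ht), trivial⟩
    · intro t ht
      refine ⟨?_, trivial⟩
      have : V t (0, 0) = (0, 0) := by simp [hV]
      rw [this]
      exact hasDerivAt_const _ _
    · simp [hu0, hv0]
  intro t ht
  have h2 := h1 ht
  simp only [Prod.mk.injEq] at h2
  exact h2

section
variable {φ : Measure ℝ} {A B P Q : ℝ[X]} {g h G : ℝ → ℝ}

lemma evalA_bound {A : ℝ[X]} {z : ℝ} (hz : A.eval z = 0) :
    ∃ C : ℝ, 0 < C ∧ ∀ᶠ x in 𝓝 z, |A.eval x| ≤ C * |x - z| := by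
  obtain ⟨A1, hA1⟩ := dvd_iff_isRoot.2 (show A.IsRoot z from hz)
  refine ⟨|A1.eval z| + 1, by positivity, ?_⟩
  have h1 : ∀ᶠ x in 𝓝 z, |A1.eval x| < |A1.eval z| + 1 :=
    (A1.continuous.abs.continuousAt (x := z)).eventually_lt continuousAt_const (by simp)
  filter_upwards [h1] with x hx
  rw [hA1]
  simp only [eval_mul, eval_sub, eval_X, eval_C, abs_mul]
  rw [mul_comm]
  exact mul_le_mul_of_nonneg_right hx.le (abs_nonneg _)

/-- `g` vanishes at the zeros of `A`. -/
lemma Reg.g_zero (R : Reg φ A B P Q g h G) {z : ℝ} (hz : z ∈ Zs A) : g z = 0 := by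
  by_contra hne
  have hpos : 0 < g z := lt_of_le_of_ne (R.g0 z) (Ne.symm hne)
  obtain ⟨C, hC, hb⟩ := evalA_bound hz
  have h1 : ∀ᶠ x in 𝓝 z, g z / 2 < g x := by
    have : ContinuousAt (fun x => g x) z := R.g_cont.continuousAt
    exact continuousAt_const.eventually_lt this (by linarith)
  have h2 : (fun x => (x - z)⁻¹) =O[𝓝[≠] z] (wt A g) := by
    apply Asymptotics.IsBigO.of_bound (C / (g z / 2))
    have h3 : ∀ᶠ x in 𝓝[≠] z, x ∉ Zs A := by
      have := (Zs_finite R.A0).isClosed.isOpen_compl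
      have h4 : ((Zs A) \ {z}).Finite := (Zs_finite R.A0).subset sdiff_subset
      have h5 : ((Zs A) \ {z})ᶜ ∈ 𝓝 z := h4.isClosed.isOpen_compl.mem_nhds (by simp)
      filter_upwards [mem_nhdsWithin_of_mem_nhds h5, self_mem_nhdsWithin] with x hx hx2 hx3
      exact hx ⟨hx3, hx2⟩
    filter_upwards [mem_nhdsWithin_of_mem_nhds hb, mem_nhdsWithin_of_mem_nhds h1,
      self_mem_nhdsWithin, h3] with x hx1 hx2 hx3 hx4
    have hxz : 0 < |x - z| := abs_pos.2 (sub_ne_zero.2 hx3)
    have hA : 0 < |A.eval x| := abs_pos.2 hx4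
    rw [wt, norm_inv, norm_div, Real.norm_eq_abs, Real.norm_eq_abs, Real.norm_eq_abs, abs_of_nonneg (R.g0 x)]
    rw [inv_eq_one_div, div_mul_div_comm, div_le_div_iff₀ hxz (by positivity)]
    have : |A.eval x| * (g z / 2) ≤ (C * |x - z|) * g x := by
      apply mul_le_mul hx1 hx2.le (by linarith) (by positivity)
    linarith
  have h3 := not_intervalIntegrable_of_sub_inv_isBigO_punctured (a := z - 1) (b := z + 1) h2
    (by intro h; linarith) (by rw [uIcc_of_le (by linarith)]; constructor <;> linarith)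
  exact h3 R.wt_int.intervalIntegrable

lemma isolated {A : ℝ[X]} (hA : A ≠ 0) (z : ℝ) :
    ∃ δ : ℝ, 0 < δ ∧ ∀ x ∈ Ioo (z - δ) (z + δ), x ≠ z → x ∉ Zs A := by
  have h4 : ((Zs A) \ {z}).Finite := (Zs_finite hA).subset sdiff_subset
  have h5 : ((Zs A) \ {z})ᶜ ∈ 𝓝 z := h4.isClosed.isOpen_compl.mem_nhds (by simp)
  obtain ⟨δ, hδ, hsub⟩ := nhds_Ioo h5
  refine ⟨δ, hδ, fun x hx hxz hx2 => hsub hx ⟨hx2, hxz⟩⟩

lemma shrink {S : Set ℝ} {z : ℝ} (hS : S ∈ 𝓝 z) {δ : ℝ} (hδ : 0 < δ) :
    ∃ δ' : ℝ, 0 < δ' ∧ δ' ≤ δ ∧ Ioo (z - δ') (z + δ') ⊆ S := by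
  obtain ⟨δ', h1, h2⟩ := nhds_Ioo hS
  refine ⟨min δ δ', lt_min hδ h1, min_le_left _ _, fun x hx => h2 ?_⟩
  have := min_le_right δ δ'
  exact ⟨by linarith [hx.1], by linarith [hx.2]⟩

/-- At a zero of `A` that is not a zero of `B`, the density vanishes nearby. -/
lemma Reg.dead_of_B (R : Reg φ A B P Q g h G) {z : ℝ} (hz : z ∈ Zs A) (hB : B.eval z ≠ 0) :
    ∃ δ : ℝ, 0 < δ ∧ ∀ x ∈ Ioo (z - δ) (z + δ), g x = 0 := by
  have hfin := R.fin
  have hφz : φ {z} = 0 := by
    have h1 := R.F2 {z} (measurableSet_singleton z)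
    rw [integral_singleton, smul_eq_mul, integral_singleton] at h1
    simp only [measureReal_def, Real.volume_singleton, ENNReal.toReal_zero, zero_smul, neg_zero,
      mul_eq_zero] at h1
    rcases h1 with h1 | h1
    · rcases (ENNReal.toReal_eq_zero_iff _).1 h1 with h2 | h2
      · exact h2
      · exact absurd h2 (measure_ne_top _ _)
    · exact absurd h1 hB
  obtain ⟨δ0, hδ0, hiso⟩ := isolated R.A0 z
  have hBn : ∀ᶠ x in 𝓝 z, B.eval x ≠ 0 := (B.continuous.continuousAt (x := z)).eventually_ne hB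
  -- bounds
  have hc1 : ContinuousAt (fun x => P.eval x / B.eval x) z :=
    P.continuous.continuousAt.div B.continuous.continuousAt hB
  have hc2 : ContinuousAt (fun x => Q.eval x / B.eval x) z :=
    Q.continuous.continuousAt.div B.continuous.continuousAt hB
  set K := |P.eval z / B.eval z| + |Q.eval z / B.eval z| + 1 with hK
  have hb1 : ∀ᶠ x in 𝓝 z, |P.eval x / B.eval x| < K := by
    apply hc1.abs.eventually_lt continuousAt_const
    have := abs_nonneg (Q.eval z / B.eval z)
    rw [hK]; linarith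
  have hb2 : ∀ᶠ x in 𝓝 z, |Q.eval x / B.eval x| < K := by
    apply hc2.abs.eventually_lt continuousAt_const
    have := abs_nonneg (P.eval z / B.eval z)
    rw [hK]; linarith
  have hsgn : ∀ᶠ x in 𝓝 z, 0 < B.eval x * B.eval z := by
    have hcc : ContinuousAt (fun x => B.eval x * B.eval z) z :=
      (B.continuous.mul continuous_const).continuousAt
    exact continuousAt_const.eventually_lt hcc (mul_self_pos.2 hB)
  obtain ⟨δ, hδ, hδle, hsub⟩ := shrink (hBn.and (hb1.and (hb2.and hsgn))) hδ0
  set U := Ioo (z - δ) (z + δ) with hU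
  have hUo : IsOpen U := isOpen_Ioo
  have hUc : OrdConnected U := ordConnected_Ioo
  have hzU : z ∈ U := ⟨by linarith, by linarith⟩
  have hZ : φ (U ∩ Zs A) = 0 := by
    apply measure_mono_null _ hφz
    rintro x ⟨hx1, hx2⟩
    by_contra hne
    exact hiso x ⟨by linarith [hx1.1], by linarith [hx1.2]⟩ hne hx2
  have hoff : ∀ x ∈ U, x ≠ z → x ∉ Zs A := fun x hx hne =>
    hiso x ⟨by linarith [hx.1], by linarith [hx.2]⟩ hne
  have hgz : g z = 0 := R.g_zero hz
  have hGz : G z = 0 := by
    have h1 : IsLocalMin g z := by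
      apply Filter.Eventually.of_forall
      intro x; rw [hgz]; exact R.g0 x
    have h2 := h1.hasDerivAt_eq_zero (R.deriv_g hUo hUc hZ hzU)
    linarith
  -- w = -G/B on U
  have hw : ∀ x ∈ U, wt A g x = -(G x) / B.eval x := by
    intro x hx
    have hBx : B.eval x ≠ 0 := (hsub hx).1
    by_cases hne : x = z
    · rw [hne, hGz, wt, hgz]; simp
    · rw [R.G_eq_Bw (hoff x hx hne)]
      field_simp
  have hwc : ∀ x ∈ U, ContinuousAt (wt A g) x := by
    intro x hx
    have hBx : B.eval x ≠ 0 := (hsub hx).1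
    have h1 : ContinuousAt (fun y => -(G y) / B.eval y) x :=
      (R.contAt_G hUo hUc hZ hx).neg.div B.continuous.continuousAt hBx
    refine h1.congr ?_
    filter_upwards [hUo.mem_nhds hx] with y hy
    exact (hw y hy).symm
  have hdG : ∀ x ∈ U, HasDerivAt G (P.eval x / B.eval x * G x + (-1) * h x) x := by
    intro x hx
    have h1 := R.deriv_G hUo hUc hZ hx (hwc x hx)
    rw [hw x hx] at h1
    convert h1 using 1
    ring
  have hdh : ∀ x ∈ U, HasDerivAt h (Q.eval x / B.eval x * G x + 0 * h x) x := by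
    intro x hx
    have h1 := R.deriv_h hUo hUc hZ hx (hwc x hx)
    rw [hw x hx] at h1
    convert h1 using 1
    ring
  have hhz : h z = 0 := by
    have h3 : HasDerivAt G (-(h z)) z := by
      have := hdG z hzU
      rw [hGz] at this
      convert this using 1
      ring
    have h4 : IsLocalExtr G z := by
      rcases lt_or_gt_of_ne hB with hneg | hpos
      · left
        filter_upwards [hUo.mem_nhds hzU] with x hx
        rw [hGz]
        by_cases hne : x = z
        · rw [hne, hGz]
        · have h5 := (hsub hx).2.2.2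
          have h6 : B.eval x < 0 := by nlinarith
          rw [R.G_eq_Bw (hoff x hx hne)]
          have := R.wt_nonneg x
          nlinarith
      · right
        filter_upwards [hUo.mem_nhds hzU] with x hx
        rw [hGz]
        by_cases hne : x = z
        · rw [hne, hGz]
        · have h5 := (hsub hx).2.2.2
          have h6 : 0 < B.eval x := by
            by_contra hcon
            push Not at hcon
            nlinarith
          rw [R.G_eq_Bw (hoff x hx hne)]
          have := R.wt_nonneg x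
          nlinarith
    have h5 := h4.hasDerivAt_eq_zero h3
    linarith
  have hfinal := lin_unique (K := K) hzU (a := fun x => P.eval x / B.eval x) (b := fun _ => -1)
    (c := fun x => Q.eval x / B.eval x) (d := fun _ => 0)
    (fun t ht => (hsub ht).2.1.le) (fun t ht => by
      have h1 := abs_nonneg (Q.eval z / B.eval z)
      have h2 := abs_nonneg (P.eval z / B.eval z)
      simp only [abs_neg, abs_one]; rw [hK]; linarith)
    (fun t ht => (hsub ht).2.2.1.le) (fun t ht => by
      have h1 := abs_nonneg (Q.eval z / B.eval z)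
      have h2 := abs_nonneg (P.eval z / B.eval z)
      simp only [abs_zero]; rw [hK]; linarith) hdG hdh hGz hhz
  refine ⟨δ, hδ, fun x hx => ?_⟩
  by_cases hne : x = z
  · rw [hne]; exact hgz
  · have h1 := (hfinal x hx).1
    have h2 := hw x hx
    rw [h1] at h2
    simp only [neg_zero, zero_div] at h2
    rw [wt, div_eq_zero_iff] at h2
    rcases h2 with h2 | h2
    · exact h2
    · exact absurd h2 (hoff x hx hne)

/-- At a simple zero of `A` that is a zero of `B`, the density vanishes nearby. -/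
lemma Reg.dead_of_simple (R : Reg φ A B P Q g h G) {z : ℝ} {A1 B1 : ℝ[X]}
    (hA : A = (X - C z) * A1) (hB : B = (X - C z) * B1) (hA1 : A1.eval z ≠ 0) :
    ∃ δ : ℝ, 0 < δ ∧ ∀ x ∈ Ioo (z - δ) (z + δ), g x = 0 := by
  have hz : z ∈ Zs A := by simp [Zs, hA]
  obtain ⟨δ0, hδ0, hiso⟩ := isolated R.A0 z
  have hAn : ∀ᶠ x in 𝓝 z, A1.eval x ≠ 0 := (A1.continuous.continuousAt (x := z)).eventually_ne hA1
  have hc1 : ContinuousAt (fun x => B1.eval x / A1.eval x) z :=
    B1.continuous.continuousAt.div A1.continuous.continuousAt hA1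
  set K := |B1.eval z / A1.eval z| + 1 with hK
  have hb1 : ∀ᶠ x in 𝓝 z, |B1.eval x / A1.eval x| < K := by
    apply hc1.abs.eventually_lt continuousAt_const
    rw [hK]; linarith
  obtain ⟨δ, hδ, hδle, hsub⟩ := shrink (hAn.and hb1) hδ0
  set U := Ioo (z - δ) (z + δ) with hU
  have hUo : IsOpen U := isOpen_Ioo
  have hzU : z ∈ U := ⟨by linarith, by linarith⟩
  have hoff : ∀ x ∈ U, x ≠ z → x ∉ Zs A := fun x hx hne =>
    hiso x ⟨by linarith [hx.1], by linarith [hx.2]⟩ hne
  have hgz : g z = 0 := R.g_zero hz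
  have hG : ∀ x ∈ U, x ≠ z → -G x = B1.eval x / A1.eval x * g x := by
    intro x hx hne
    rw [R.G_eq_Bw (hoff x hx hne), wt]
    have h1 : A.eval x ≠ 0 := hoff x hx hne
    have h2 : A1.eval x ≠ 0 := (hsub hx).1
    have h3 : x - z ≠ 0 := sub_ne_zero.2 hne
    rw [hA, hB]
    simp only [eval_mul, eval_sub, eval_X, eval_C]
    field_simp
  have hincr : ∀ s ∈ U, ∀ t ∈ U, g t - g s = ∫ x in s..t, B1.eval x / A1.eval x * g x := by
    intro s hs t ht
    rw [R.g_incr s t]
    apply intervalIntegral.integral_congr_ae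
    have h1 : ∀ᵐ x ∂(volume : Measure ℝ), x ≠ z := by
      rw [ae_iff]; simp
    filter_upwards [h1] with x hx hx2
    apply hG x _ hx
    have : uIoc s t ⊆ U := by
      intro y hy
      rcases le_total s t with hst | hst
      · rw [uIoc_of_le hst] at hy
        exact ⟨by linarith [hs.1, hy.1], by linarith [ht.2, hy.2]⟩
      · rw [uIoc_of_ge hst] at hy
        exact ⟨by linarith [ht.1, hy.1], by linarith [hs.2, hy.2]⟩
    exact this hx2
  have hcontu : ∀ x ∈ U, ContinuousAt (fun x => B1.eval x / A1.eval x * g x) x := by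
    intro x hx
    exact (B1.continuous.continuousAt.div A1.continuous.continuousAt (hsub hx).1).mul
      R.g_cont.continuousAt
  have hd : ∀ t ∈ U, HasDerivAt g (B1.eval t / A1.eval t * g t) t := by
    intro t ht
    have hmeas : Measurable fun x => B1.eval x / A1.eval x * g x :=
      ((meas_eval B1).div (meas_eval A1)).mul R.g_cont.measurable
    have h1 : HasDerivAt (fun s => ∫ x in t..s, B1.eval x / A1.eval x * g x)
        (B1.eval t / A1.eval t * g t) t :=
      intervalIntegral.integral_hasDerivAt_right (by simp)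
        hmeas.aestronglyMeasurable.stronglyMeasurableAtFilter (hcontu t ht)
    have h2 : g =ᶠ[𝓝 t] fun s => g t + ∫ x in t..s, B1.eval x / A1.eval x * g x := by
      filter_upwards [hUo.mem_nhds ht] with s hs
      rw [← hincr t ht s hs]; ring
    exact (h1.const_add (g t)).congr_of_eventuallyEq h2
  have hfinal := lin_unique (K := K) hzU (u := g) (v := fun _ => 0)
    (a := fun x => B1.eval x / A1.eval x) (b := fun _ => 0)
    (c := fun _ => 0) (d := fun _ => 0)
    (fun t ht => (hsub ht).2.le) (fun t ht => by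
      have h1 := abs_nonneg (B1.eval z / A1.eval z)
      simp only [abs_zero]; rw [hK]; linarith)
    (fun t ht => by
      have h1 := abs_nonneg (B1.eval z / A1.eval z)
      simp only [abs_zero]; rw [hK]; linarith) (fun t ht => by
      have h1 := abs_nonneg (B1.eval z / A1.eval z)
      simp only [abs_zero]; rw [hK]; linarith)
    (fun t ht => by simpa using hd t ht) (fun t ht => by simpa using hasDerivAt_const t (0 : ℝ)) hgz rfl
  exact ⟨δ, hδ, fun x hx => (hfinal x hx).1⟩

/-- An active zero of `A` is at least double, and is a zero of `B`. -/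
lemma Reg.active (R : Reg φ A B P Q g h G) {z : ℝ} (hz : z ∈ Zs A)
    (hact : ∀ δ : ℝ, 0 < δ → ∃ x ∈ Ioo (z - δ) (z + δ), 0 < g x) :
    (X - C z) ^ 2 ∣ A ∧ (X - C z) ∣ B := by
  have hB : B.eval z = 0 := by
    by_contra hne
    obtain ⟨δ, hδ, h1⟩ := R.dead_of_B hz hne
    obtain ⟨x, hx, h2⟩ := hact δ hδ
    rw [h1 x hx] at h2
    exact lt_irrefl _ h2
  obtain ⟨A1, hA1⟩ := dvd_iff_isRoot.2 (show A.IsRoot z from hz)
  obtain ⟨B1, hB1⟩ := dvd_iff_isRoot.2 (show B.IsRoot z from hB)
  refine ⟨?_, ⟨B1, hB1⟩⟩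
  have hA1z : A1.eval z = 0 := by
    by_contra hne
    obtain ⟨δ, hδ, h1⟩ := R.dead_of_simple hA1 hB1 hne
    obtain ⟨x, hx, h2⟩ := hact δ hδ
    rw [h1 x hx] at h2
    exact lt_irrefl _ h2
  obtain ⟨A2, hA2⟩ := dvd_iff_isRoot.2 (show A1.IsRoot z from hA1z)
  exact ⟨A2, by rw [hA1, hA2]; ring⟩

/-- The representation of `g` by an integrating factor. -/
lemma Reg.rep (R : Reg φ A B P Q g h G) {U : Set ℝ} (hUo : IsOpen U) (hUc : OrdConnected U)
    (hU : ∀ x ∈ U, x ∉ Zs A) {F : ℝ → ℝ} (hF : ∀ x ∈ U, HasDerivAt F (B.eval x / A.eval x) x)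
    {s t : ℝ} (hs : s ∈ U) (ht : t ∈ U) : g t * Real.exp (-F t) = g s * Real.exp (-F s) := by
  have hd : ∀ x ∈ U, HasDerivAt (fun x => g x * Real.exp (-F x)) 0 x := by
    intro x hx
    have h1 := (R.off (hU x hx)).1
    have h3 : HasDerivAt (fun x => g x * Real.exp (-F x)) (B.eval x * wt A g x * Real.exp (-F x) +
        g x * (Real.exp (-F x) * -(B.eval x / A.eval x))) x := h1.mul (hF x hx).neg.exp
    have h4 : B.eval x * wt A g x * Real.exp (-F x) +
        g x * (Real.exp (-F x) * -(B.eval x / A.eval x)) = 0 := by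
      have : A.eval x ≠ 0 := hU x hx
      unfold wt
      field_simp
      ring
    rwa [h4] at h3
  apply hUo.is_const_of_deriv_eq_zero hUc.isPreconnected
    (fun x hx => (hd x hx).differentiableAt.differentiableWithinAt)
    (fun x hx => (hd x hx).deriv) ht hs

/-- Positivity propagates. -/
lemma Reg.pos_prop (R : Reg φ A B P Q g h G) {U : Set ℝ} (hUo : IsOpen U) (hUc : OrdConnected U)
    (hU : ∀ x ∈ U, x ∉ Zs A) {s t : ℝ} (hs : s ∈ U) (ht : t ∈ U) (hg : 0 < g s) : 0 < g t := by
  have hmeas : Measurable fun x => B.eval x / A.eval x := (meas_eval B).div (meas_eval A)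
  have hcont : ∀ x ∈ U, ContinuousAt (fun x => B.eval x / A.eval x) x := fun x hx =>
    B.continuous.continuousAt.div A.continuous.continuousAt (hU x hx)
  have hF : ∀ x ∈ U, HasDerivAt (fun y => ∫ u in s..y, B.eval u / A.eval u) (B.eval x / A.eval x) x := by
    intro x hx
    apply intervalIntegral.integral_hasDerivAt_right _
      hmeas.aestronglyMeasurable.stronglyMeasurableAtFilter (hcont x hx)
    apply ContinuousOn.intervalIntegrable
    intro y hy
    exact (hcont y (hUc.uIcc_subset hs hx hy)).continuousWithinAt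
  have h1 := R.rep hUo hUc hU hF hs ht
  have h2 : 0 < g s * Real.exp (-∫ u in s..s, B.eval u / A.eval u) := by positivity
  rw [← h1] at h2
  exact pos_of_mul_pos_left h2 (Real.exp_pos _).le

/-- The relation between `h` and the density off the zeros. -/
lemma Reg.h_rel (R : Reg φ A B P Q g h G) {t : ℝ} (ht : t ∉ Zs A) :
    A.eval t * h t = (A * (derivative B - P) + B * (B - derivative A)).eval t * wt A g t := by
  obtain ⟨U, hUo, hUc, htU, hUZ⟩ := nbhd_compl ht
  have hAt : A.eval t ≠ 0 := ht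
  have h1 := (R.off ht).2.2
  have hw : HasDerivAt (wt A g) (((B.eval t * wt A g t) * A.eval t - g t * (derivative A).eval t) /
      (A.eval t) ^ 2) t := (R.off ht).1.div (A.hasDerivAt t) hAt
  have h2 : HasDerivAt (fun x => -(B.eval x * wt A g x))
      (-((derivative B).eval t * wt A g t + B.eval t * (((B.eval t * wt A g t) * A.eval t -
        g t * (derivative A).eval t) / (A.eval t) ^ 2))) t := ((B.hasDerivAt t).mul hw).neg
  have h3 : G =ᶠ[𝓝 t] fun x => -(B.eval x * wt A g x) := by
    filter_upwards [hUo.mem_nhds htU] with x hx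
    apply R.G_eq_Bw
    intro hx2
    have : x ∈ U ∩ Zs A := ⟨hx, hx2⟩
    rw [hUZ] at this
    exact this
  have h4 := h1.unique (h2.congr_of_eventuallyEq h3)
  have hgw : g t = A.eval t * wt A g t := by rw [wt]; field_simp
  rw [hgw] at h4
  have h5 : (B.eval t * wt A g t * A.eval t - A.eval t * wt A g t * (derivative A).eval t) /
      (A.eval t) ^ 2 = (B.eval t - (derivative A).eval t) * wt A g t / A.eval t := by
    field_simp
  rw [h5] at h4
  have h6 : h t = (derivative B).eval t * wt A g t + B.eval t * ((B.eval t - (derivative A).eval t) *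
      wt A g t / A.eval t) - P.eval t * wt A g t := by linarith
  rw [h6]
  simp only [eval_add, eval_mul, eval_sub]
  field_simp
  ring

/-- The polynomial identity. -/
lemma Reg.ident (R : Reg φ A B P Q g h G) {t : ℝ} (ht : t ∉ Zs A) (hg : 0 < g t) :
    A * derivative (A * (derivative B - P) + B * (B - derivative A)) +
      (B - 2 * derivative A) * (A * (derivative B - P) + B * (B - derivative A)) + Q * A ^ 2 = 0 := by
  set N := A * (derivative B - P) + B * (B - derivative A) with hN
  obtain ⟨δ, hδ, hsub⟩ := nhds_Ioo ((Zs_closed A).isOpen_compl.mem_nhds ht)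
  have hpos : ∀ᶠ x in 𝓝 t, 0 < g x :=
    continuousAt_const.eventually_lt (R.g_cont.continuousAt) hg
  obtain ⟨δ', hδ', hle, hsub'⟩ := shrink hpos hδ
  apply eq_zero_of_infinite_isRoot
  apply Set.Infinite.mono _ (Ioo_infinite (show t - δ' < t + δ' by linarith))
  intro x hx
  have hxZ : x ∉ Zs A := hsub ⟨by linarith [hx.1], by linarith [hx.2]⟩
  have hAx : A.eval x ≠ 0 := hxZ
  have hgx : 0 < g x := hsub' hx
  have hwx : 0 < wt A g x := by
    have h1 := R.wt_nonneg x
    rcases h1.lt_or_eq with h2 | h2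
    · exact h2
    · exfalso
      rw [wt, eq_comm, div_eq_zero_iff] at h2
      rcases h2 with h2 | h2
      · exact hgx.ne' h2
      · exact hAx h2
  have h1 := (R.off hxZ).2.1
  have hw : HasDerivAt (wt A g) (((B.eval x * wt A g x) * A.eval x - g x * (derivative A).eval x) /
      (A.eval x) ^ 2) x := (R.off hxZ).1.div (A.hasDerivAt x) hAx
  have h2 : HasDerivAt (fun y => A.eval y * h y) ((derivative A).eval x * h x +
      A.eval x * (-(Q.eval x * wt A g x))) x := (A.hasDerivAt x).mul h1
  have h3 : HasDerivAt (fun y => N.eval y * wt A g y) ((derivative N).eval x * wt A g x +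
      N.eval x * (((B.eval x * wt A g x) * A.eval x - g x * (derivative A).eval x) /
      (A.eval x) ^ 2)) x := (N.hasDerivAt x).mul hw
  have h4 : (fun y => A.eval y * h y) =ᶠ[𝓝 x] fun y => N.eval y * wt A g y := by
    filter_upwards [(Zs_closed A).isOpen_compl.mem_nhds hxZ] with y hy
    exact R.h_rel hy
  have h5 := h2.unique (h3.congr_of_eventuallyEq h4)
  have h6 := R.h_rel hxZ
  rw [← hN] at h6
  have hgw : g x = A.eval x * wt A g x := by rw [wt]; field_simp
  rw [hgw] at h5
  have h7 : (B.eval x * wt A g x * A.eval x - A.eval x * wt A g x * (derivative A).eval x) /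
      (A.eval x) ^ 2 = (B.eval x - (derivative A).eval x) * wt A g x / A.eval x := by
    field_simp
  rw [h7] at h5
  have h8 : h x = N.eval x * wt A g x / A.eval x := by
    field_simp; linarith
  rw [h8] at h5
  show (A * derivative N + (B - 2 * derivative A) * N + Q * A ^ 2).eval x = 0
  simp only [eval_add, eval_mul, eval_sub, eval_pow, eval_ofNat]
  have h9 : (A.eval x * (derivative N).eval x + (B.eval x - 2 * (derivative A).eval x) * N.eval x +
      Q.eval x * A.eval x ^ 2) * wt A g x = 0 := by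
    field_simp at h5
    linear_combination (-(wt A g x)) * h5
  exact (mul_eq_zero.1 h9).resolve_right hwx.ne'

end

end Pool.Agent.V5helper26.DD
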