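import Pool.Agent.V5helper26.DD.Refl

/-! Masses at the end points. -/

set_option autoImplicit false

open MeasureTheory Polynomial Filter Topology Set

namespace Pool.Agent.V5helper26.DD

section
variable {φ : Measure ℝ} {A B P Q : ℝ[X]} {g h G : ℝ → ℝ}

lemma Reg.h_left (R : Reg φ A B P Q g h G) {l : ℝ} (hl : φ (Iio l) = 0) {t : ℝ} (ht : t < l) :
    h t = 0 := by
  have hi := integrable_poly R.int Q
  have h1 : ∫ x in Iic t, Q.eval x ∂φ = 0 := by
    have h0 : φ (Iic t) = 0 := measure_mono_null (Iic_subset_Iio.2 ht) hl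
    rw [Measure.restrict_eq_zero.2 h0, integral_zero_measure]
  have h2 := integral_add_compl (measurableSet_Iic (a := t)) hi
  rw [compl_Iic, h1, R.Q_tot, ← R.h_eq] at h2
  linarith

lemma mass_eq {l : ℝ} (hl : φ (Iio l) = 0) (f : ℝ → ℝ) :
    ∫ x in Iic l, f x ∂φ = f l * φ.real {l} := by
  have h1 : φ.restrict (Iic l) = φ.restrict {l} := by
    ext S hS
    rw [Measure.restrict_apply hS, Measure.restrict_apply hS]
    apply le_antisymm
    · have hsub : S ∩ Iic l ⊆ (S ∩ {l}) ∪ Iio l := by
        rintro x ⟨hx1, hx2⟩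
        rcases (show x ≤ l from hx2).lt_or_eq with h3 | h3
        · exact Or.inr h3
        · exact Or.inl ⟨hx1, h3⟩
      refine (measure_mono hsub).trans ((measure_union_le _ _).trans ?_)
      rw [hl, add_zero]
    · apply measure_mono
      rintro x ⟨hx1, hx2⟩
      exact ⟨hx1, le_of_eq hx2⟩
  rw [h1, integral_singleton, smul_eq_mul, mul_comm]

lemma Reg.h_at (R : Reg φ A B P Q g h G) {l : ℝ} (hl : φ (Iio l) = 0) :
    h l = -(Q.eval l * φ.real {l}) := by
  have hi := integrable_poly R.int Q
  have h2 := integral_add_compl (measurableSet_Iic (a := l)) hi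
  rw [compl_Iic, mass_eq hl, R.Q_tot, ← R.h_eq] at h2
  linarith

lemma Reg.G_at (R : Reg φ A B P Q g h G) {l : ℝ} (hl : φ (Iio l) = 0) :
    G l = -(P.eval l * φ.real {l}) := by
  have hi := integrable_poly R.int P
  have h2 := integral_add_compl (measurableSet_Iic (a := l)) hi
  rw [compl_Iic, mass_eq hl] at h2
  have h3 := integral_add_compl (measurableSet_Iic (a := l)) R.h_int
  have h4 : ∫ x in Iic l, h x = 0 := by
    rw [integral_Iic_eq_integral_Iio]
    rw [setIntegral_congr_fun measurableSet_Iio (g := fun _ => 0) (fun x hx => R.h_left hl hx)]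
    simp
  rw [compl_Iic, h4] at h3
  have h5 := R.P_tot
  rw [R.G_eq]
  linarith

/-- The analysis of a mass at the left end point of the support. -/
theorem Reg.mass_left (R : Reg φ A B P Q g h G) {l r' α : ℝ} (hlr : l < r')
    (hpos : ∀ x ∈ Ioo l r', x ∉ Zs A ∧ 0 < g x) (hl : φ (Iio l) = 0) {A2 B1 : ℝ[X]}
    (hA : A = (X - C l) ^ 2 * A2) (hB : B = (X - C l) * B1) (hA2 : A2.eval l ≠ 0)
    (hB1 : B1.eval l = (α + 2) * A2.eval l) (hα : -1 < α) {W : ℝ → ℝ} (hW : ContinuousAt W l)
    (hWl : 0 < W l) (hw : ∀ x ∈ Ioo l r', wt A g x = W x * (x - l) ^ α) (hm : φ {l} ≠ 0) :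
    α = 0 ∧ 2 * A2.eval l * W l = -(Q.eval l * φ.real {l}) := by
  have hfin := R.fin
  have hmr : φ.real {l} ≠ 0 := by
    rw [measureReal_def]
    exact (ENNReal.toReal_pos hm (measure_ne_top _ _)).ne'
  have hmem : Ioo l r' ∈ 𝓝[>] l := Ioo_mem_nhdsGT hlr
  -- limits of h and G
  have hZ : ∀ t ∈ Ioo l r', φ (Ioc l t ∩ Zs A) = 0 := by
    intro t ht
    have : Ioc l t ∩ Zs A = ∅ := by
      ext x; constructor
      · rintro ⟨h1, h2⟩
        exact ((hpos x ⟨h1.1, lt_of_le_of_lt h1.2 ht.2⟩).1 h2)
      · intro h; exact h.elim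
    rw [this]; simp
  have limh : Tendsto h (𝓝[>] l) (𝓝 (h l)) := by
    have h1 : Continuous fun t => ∫ x in l..t, -(Q.eval x * wt A g x) :=
      intervalIntegral.continuous_primitive (fun a b => R.Qw_int.intervalIntegrable) l
    have h2 : Tendsto (fun t => h l + ∫ x in l..t, -(Q.eval x * wt A g x)) (𝓝[>] l) (𝓝 (h l)) := by
      have h3 := ((h1.tendsto l).mono_left (nhdsWithin_le_nhds (s := Ioi l))).const_add (h l)
      rw [intervalIntegral.integral_same, add_zero] at h3
      exact h3
    refine h2.congr' ?_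
    filter_upwards [hmem] with t ht
    rw [← R.h_incr ht.1.le (hZ t ht)]; ring
  have limG : Tendsto G (𝓝[>] l) (𝓝 (G l)) := by
    have h1 : Continuous fun t => ∫ x in l..t, -(P.eval x * wt A g x + h x) :=
      intervalIntegral.continuous_primitive (fun a b => R.Pwh_int.intervalIntegrable) l
    have h2 : Tendsto (fun t => G l + ∫ x in l..t, -(P.eval x * wt A g x + h x)) (𝓝[>] l) (𝓝 (G l)) := by
      have h3 := ((h1.tendsto l).mono_left (nhdsWithin_le_nhds (s := Ioi l))).const_add (G l)
      rw [intervalIntegral.integral_same, add_zero] at h3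
      exact h3
    refine h2.congr' ?_
    filter_upwards [hmem] with t ht
    rw [← R.G_incr ht.1.le (hZ t ht)]; ring
  have limx : Tendsto (fun x : ℝ => x - l) (𝓝[>] l) (𝓝[>] 0) := by
    apply tendsto_nhdsWithin_iff.2
    refine ⟨?_, ?_⟩
    · have : Tendsto (fun x : ℝ => x - l) (𝓝 l) (𝓝 (l - l)) := (continuous_id.sub continuous_const).tendsto l
      rw [sub_self] at this
      exact this.mono_left nhdsWithin_le_nhds
    · filter_upwards [self_mem_nhdsWithin] with x hx
      exact sub_pos.2 (show l < x from hx)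
  have limW : Tendsto W (𝓝[>] l) (𝓝 (W l)) := hW.tendsto.mono_left nhdsWithin_le_nhds
  have limp : ∀ f : ℝ[X], Tendsto (fun x => f.eval x) (𝓝[>] l) (𝓝 (f.eval l)) := fun f =>
    (f.continuous.tendsto l).mono_left nhdsWithin_le_nhds
  -- G l = 0
  have hGl : G l = 0 := by
    have h1 : Tendsto (fun x : ℝ => (x - l) ^ (α + 1)) (𝓝[>] l) (𝓝 0) := by
      have h2 : Tendsto (fun x : ℝ => x ^ (α + 1)) (𝓝 0) (𝓝 ((0 : ℝ) ^ (α + 1))) :=
        (Real.continuousAt_rpow_const 0 (α + 1) (Or.inr (by linarith))).tendsto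
      rw [Real.zero_rpow (by linarith)] at h2
      exact h2.comp (limx.mono_right nhdsWithin_le_nhds)
    have h3 : Tendsto (fun x => -(B1.eval x * W x * (x - l) ^ (α + 1))) (𝓝[>] l)
        (𝓝 (-(B1.eval l * W l * 0))) := (((limp B1).mul limW).mul h1).neg
    rw [mul_zero, neg_zero] at h3
    refine tendsto_nhds_unique limG (h3.congr' ?_)
    filter_upwards [hmem] with x hx
    rw [R.G_eq_Bw (hpos x hx).1, hw x hx, hB]
    have hxl : 0 < x - l := sub_pos.2 hx.1
    rw [Real.rpow_add hxl, Real.rpow_one]
    simp only [eval_mul, eval_sub, eval_X, eval_C]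
    ring
  have hPl : P.eval l = 0 := by
    have h1 := R.G_at hl
    rw [hGl] at h1
    have h2 : P.eval l * φ.real {l} = 0 := by linarith
    exact (mul_eq_zero.1 h2).resolve_right hmr
  -- the relation between h and w
  set N2 := A2 * (derivative B - P) + B1 * (B1 - 2 * A2 - (X - C l) * derivative A2) with hN2
  have hrel : ∀ x ∈ Ioo l r', A2.eval x * h x = N2.eval x * (W x * (x - l) ^ α) := by
    intro x hx
    have h1 := R.h_rel (hpos x hx).1
    have hN : A * (derivative B - P) + B * (B - derivative A) = (X - C l) ^ 2 * N2 := by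
      rw [hN2, hA, hB]
      simp only [derivative_mul, derivative_pow, derivative_sub, derivative_X, derivative_C]
      simp only [Nat.cast_ofNat, C_ofNat, Nat.add_one_sub_one, pow_one, sub_zero, mul_one]
      ring
    rw [hN, hw x hx] at h1
    rw [hA] at h1
    simp only [eval_mul, eval_pow, eval_sub, eval_X, eval_C] at h1
    have hxl : (x - l) ^ 2 ≠ 0 := by
      have : 0 < x - l := sub_pos.2 hx.1
      positivity
    have h2 : (x - l) ^ 2 * (A2.eval x * h x) = (x - l) ^ 2 * (N2.eval x * (W x * (x - l) ^ α)) := by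
      linarith
    exact mul_left_cancel₀ hxl h2
  have hN2l : N2.eval l = (α + 2) * (α + 1) * (A2.eval l) ^ 2 := by
    have hB' : (derivative B).eval l = B1.eval l := by
      rw [hB]; simp
    rw [hN2]
    simp only [eval_add, eval_mul, eval_sub, eval_X, eval_C, eval_ofNat, hB', hPl, hB1]
    ring
  have hN2l0 : N2.eval l ≠ 0 := by
    rw [hN2l]
    have h1 : 0 < α + 2 := by linarith
    have h2 : 0 < α + 1 := by linarith
    positivity
  have hhl := R.h_at hl
  -- limit of w
  have hN2ev : ∀ᶠ x in 𝓝[>] l, N2.eval x ≠ 0 :=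
    (limp N2).eventually_ne hN2l0
  have limw : Tendsto (fun x : ℝ => W x * (x - l) ^ α) (𝓝[>] l) (𝓝 (A2.eval l * h l / N2.eval l)) := by
    have h1 : Tendsto (fun x => A2.eval x * h x / N2.eval x) (𝓝[>] l)
        (𝓝 (A2.eval l * h l / N2.eval l)) := ((limp A2).mul limh).div (limp N2) hN2l0
    refine h1.congr' ?_
    filter_upwards [hmem, hN2ev] with x hx hx2
    rw [hrel x hx]
    field_simp
  rcases lt_trichotomy α 0 with hneg | hzero | hposα
  · exfalso
    have h1 : Tendsto (fun x : ℝ => (x - l) ^ α) (𝓝[>] l) atTop :=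
      (tendsto_rpow_neg_nhdsGT_zero hneg).comp limx
    have h2 : Tendsto (fun x : ℝ => W x * (x - l) ^ α) (𝓝[>] l) atTop :=
      Tendsto.pos_mul_atTop hWl limW h1
    exact not_tendsto_nhds_of_tendsto_atTop h2 _ limw
  · refine ⟨hzero, ?_⟩
    rw [hzero] at limw hN2l
    have h1 : Tendsto (fun x : ℝ => W x * (x - l) ^ (0 : ℝ)) (𝓝[>] l) (𝓝 (W l)) := by
      simpa using limW
    have h2 := tendsto_nhds_unique h1 limw
    rw [← hhl, h2, hN2l]
    field_simp
    ring
  · exfalso
    have h1 : Tendsto (fun x : ℝ => (x - l) ^ α) (𝓝[>] l) (𝓝 0) := by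
      have h2 : Tendsto (fun x : ℝ => x ^ α) (𝓝 0) (𝓝 ((0 : ℝ) ^ α)) :=
        (Real.continuousAt_rpow_const 0 α (Or.inr hposα.le)).tendsto
      rw [Real.zero_rpow hposα.ne'] at h2
      exact h2.comp (limx.mono_right nhdsWithin_le_nhds)
    have h2 := limW.mul h1
    rw [mul_zero] at h2
    have h3 := tendsto_nhds_unique h2 limw
    have hhl0 : h l = 0 := by
      have h4 : A2.eval l * h l = 0 := by
        rcases div_eq_zero_iff.1 h3.symm with h5 | h5
        · exact h5
        · exact absurd h5 hN2l0
      exact (mul_eq_zero.1 h4).resolve_left hA2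
    have hQl : Q.eval l = 0 := by
      rw [hhl0] at hhl
      have h2 : Q.eval l * φ.real {l} = 0 := by linarith
      exact (mul_eq_zero.1 h2).resolve_right hmr
    obtain ⟨q, hq⟩ : ∃ q : ℝ, Q = C q * (X - C l) := by
      obtain ⟨Q1, hQ1⟩ := dvd_iff_isRoot.2 (show Q.IsRoot l from hQl)
      by_cases hQ0 : Q = 0
      · exact ⟨0, by rw [hQ0]; simp⟩
      · have hQ10 : Q1 ≠ 0 := by rintro rfl; simp at hQ1; exact hQ0 hQ1
        have h5 : Q.natDegree = 1 + Q1.natDegree := by
          rw [hQ1, natDegree_mul (X_sub_C_ne_zero l) hQ10, natDegree_X_sub_C]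
        have h6 := R.degQ
        have h7 : Q1.natDegree = 0 := by omega
        refine ⟨Q1.coeff 0, ?_⟩
        rw [← eq_C_of_natDegree_eq_zero h7, mul_comm]; exact hQ1
    have hq0 : q = 0 := by
      have h5 := R.Q_tot
      rw [hq] at h5
      simp only [eval_mul, eval_C, eval_sub, eval_X] at h5
      rw [integral_const_mul] at h5
      rcases mul_eq_zero.1 h5 with h6 | h6
      · exact h6
      · exfalso
        have hi : Integrable (fun x : ℝ => x - l) φ := by
          have := integrable_poly R.int (X - C l)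
          simpa using this
        have hnn : 0 ≤ᵐ[φ] fun x : ℝ => x - l := by
          rw [Filter.EventuallyLE, ae_iff]
          apply measure_mono_null _ hl
          intro x hx
          simp only [Pi.zero_apply, not_le, mem_ofPred_eq, sub_neg] at hx
          exact hx
        have h7 := (integral_eq_zero_iff_of_nonneg_ae hnn hi).1 h6
        have h8 : φ (Ioo l r') = 0 := by
          rw [Filter.EventuallyEq, ae_iff] at h7
          apply measure_mono_null _ h7
          intro x hx
          simp only [Pi.zero_apply, mem_ofPred_eq, sub_eq_zero]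
          exact hx.1.ne'
        -- but the density is positive there
        have h9 : ∫ x in Ioo l r', wt A g x = 0 := by
          have := R.setInt 1 (measurableSet_Ioo (a := l) (b := r'))
            (measure_mono_null inter_subset_left h8)
          simp only [eval_one, one_mul] at this
          rw [← this, Measure.restrict_eq_zero.2 h8, integral_zero_measure]
        have h10 : 0 < ∫ x in Ioo l r', wt A g x := by
          rw [setIntegral_pos_iff_support_of_nonneg_ae (ae_of_all _ fun x => R.wt_nonneg x)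
            R.wt_int.integrableOn]
          have h11 : Function.support (wt A g) ∩ Ioo l r' = Ioo l r' := by
            apply inter_eq_right.2
            intro x hx
            have h12 := hpos x hx
            exact div_ne_zero h12.2.ne' h12.1
          rw [h11]
          simp [hlr]
        linarith
    have hh0 : ∀ t, h t = 0 := by
      intro t
      rw [R.h_eq, hq, hq0]; simp
    have h5 : ∀ᶠ x in 𝓝[>] l, False := by
      filter_upwards [hmem, hN2ev] with x hx hx2
      have h6 := hrel x hx
      rw [hh0, mul_zero, ← hw x hx] at h6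
      have h7 : wt A g x ≠ 0 := by
        have h12 := hpos x hx
        exact div_ne_zero h12.2.ne' h12.1
      exact (mul_ne_zero hx2 h7) h6.symm
    rw [Filter.eventually_false_iff_eq_bot] at h5
    exact (inferInstance : (𝓝[>] l).NeBot).ne h5

end

end Pool.Agent.V5helper26.DD
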