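import Pool.Agent.V5helper26.DD.Inf

/-! Reflection. -/

set_option autoImplicit false

open MeasureTheory Polynomial Filter Topology Set

namespace Pool.Agent.V5helper26.DD

/-- Reflection of a polynomial. -/
noncomputable def rf (f : ℝ[X]) : ℝ[X] := f.comp (-X)

@[simp] lemma rf_eval (f : ℝ[X]) (x : ℝ) : (rf f).eval x = f.eval (-x) := by simp [rf, eval_comp]

@[simp] lemma rf_rf (f : ℝ[X]) : rf (rf f) = f := by
  apply Polynomial.funext; intro x; simp

lemma rf_natDegree (f : ℝ[X]) : (rf f).natDegree = f.natDegree := by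
  rw [rf, natDegree_comp, natDegree_neg, natDegree_X, mul_one]

lemma rf_deriv (f : ℝ[X]) : derivative (rf f) = -rf (derivative f) := by
  rw [rf, derivative_comp]; simp [rf]

lemma rf_neg (f : ℝ[X]) : rf (-f) = -rf f := by simp [rf]

lemma rf_lead (f : ℝ[X]) : (rf f).leadingCoeff = (-1) ^ f.natDegree * f.leadingCoeff := by
  rw [rf, leadingCoeff_comp (by simp), leadingCoeff_neg, leadingCoeff_X, mul_comm]

lemma rf_ne {f : ℝ[X]} (hf : f ≠ 0) : rf f ≠ 0 := by
  intro h
  apply hf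
  rw [← rf_rf f, h]; simp [rf]

/-- The reflected measure. -/
noncomputable def rm (φ : Measure ℝ) : Measure ℝ := φ.map (MeasurableEquiv.neg ℝ)

lemma rm_int (φ : Measure ℝ) (f : ℝ → ℝ) : ∫ x, f x ∂(rm φ) = ∫ x, f (-x) ∂φ := by
  rw [rm, integral_map_equiv]; rfl

lemma rm_setInt (φ : Measure ℝ) (f : ℝ → ℝ) (E : Set ℝ) :
    ∫ x in E, f x ∂(rm φ) = ∫ x in Neg.neg ⁻¹' E, f (-x) ∂φ := by
  rw [rm, MeasureTheory.setIntegral_map_equiv]; rfl

lemma rm_apply (φ : Measure ℝ) (E : Set ℝ) : rm φ E = φ (Neg.neg ⁻¹' E) := by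
  rw [rm, MeasurableEquiv.map_apply]; rfl

lemma rm_rm (φ : Measure ℝ) : rm (rm φ) = φ := by
  ext E _
  rw [rm_apply, rm_apply, ← preimage_comp]
  congr 1
  ext x; simp

lemma rm_integrable {φ : Measure ℝ} {f : ℝ → ℝ} (hf : Integrable (fun x => f (-x)) φ) :
    Integrable f (rm φ) := by
  rw [rm, integrable_map_equiv]; exact hf

lemma rm_moments {φ : Measure ℝ} (h : ∀ k : ℕ, Integrable (fun x : ℝ => x ^ k) φ) (k : ℕ) :
    Integrable (fun x : ℝ => x ^ k) (rm φ) := by
  apply rm_integrable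
  have h1 := (h k).const_mul ((-1) ^ k)
  refine h1.congr (ae_of_all _ fun x => ?_)
  simp only
  rw [neg_pow x k]

lemma rm_inf {φ : Measure ℝ} (h : ∀ s : Finset ℝ, φ ((↑s : Set ℝ)ᶜ) ≠ 0) (s : Finset ℝ) :
    rm φ ((↑s : Set ℝ)ᶜ) ≠ 0 := by
  rw [rm_apply]
  have := h (s.image Neg.neg)
  convert this using 2
  ext x
  simp only [mem_preimage, mem_compl_iff, Finset.mem_coe, Finset.coe_image, mem_image, not_iff_not]
  constructor
  · intro hx; exact ⟨-x, hx, by simp⟩
  · rintro ⟨y, hy, rfl⟩; simpa using hy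

theorem Krall.refl {φ : Measure ℝ} {A B P Q : ℝ[X]} (K : Krall φ A B P Q) :
    Krall (rm φ) (rf A) (-rf B) (rf P) (-rf Q) := by
  refine ⟨rm_moments K.int, rm_inf K.inf, rf_ne K.A0, ?_, ?_, ?_, ?_, ?_, ?_, ?_⟩
  · rw [rf_natDegree]; exact K.degA
  · rw [natDegree_neg, rf_natDegree]; exact K.degB
  · rw [rf_natDegree]; exact K.degP
  · rw [natDegree_neg, rf_natDegree]; exact K.degQ
  · obtain ⟨η, h1, h2⟩ := K.eta
    refine ⟨rm η, rm_moments h1, fun f => ?_⟩
    rw [rm_int, rm_int]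
    have := h2 (rf f)
    simp only [rf_eval, eval_mul] at this ⊢
    rw [this]; simp
  · intro f
    rw [rm_int]
    have := K.E1 (rf f)
    rw [← neg_eq_zero, ← integral_neg, ← this]
    congr 1; funext x
    simp only [rf_deriv, eval_add, eval_mul, eval_neg, rf_eval, neg_neg]
    ring
  · intro f
    rw [rm_int]
    have := K.E2 (rf f)
    rw [← neg_eq_zero, ← integral_neg, ← this]
    congr 1; funext x
    simp only [rf_deriv, derivative_neg, eval_add, eval_mul, eval_neg, rf_eval, neg_neg]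
    ring

theorem refl_reg {φ : Measure ℝ} {A B P Q : ℝ[X]} {g h G : ℝ → ℝ} (K : Krall φ A B P Q)
    (R : Reg φ A B P Q g h G) : ∃ g' h' G' : ℝ → ℝ,
      Reg (rm φ) (rf A) (-rf B) (rf P) (-rf Q) g' h' G' ∧ ∀ t, g' t = g (-t) := by
  obtain ⟨g', h', G', R'⟩ := K.refl.reg
  refine ⟨g', h', G', R', ?_⟩
  have h1 : g' =ᵐ[volume] fun t => g (-t) := by
    apply Integrable.ae_eq_of_forall_setIntegral_eq _ _ R'.g_int R.g_int.comp_neg
    intro E hE _
    rw [← R'.F1 E hE, rm_setInt]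
    simp only [rf_eval, neg_neg]
    rw [R.F1 _ (measurable_neg hE)]
    have h2 := (Measure.measurePreserving_neg (volume : Measure ℝ)).setIntegral_preimage_emb
      (MeasurableEquiv.neg ℝ).measurableEmbedding (fun x => g (-x)) E
    simp only [neg_neg] at h2
    exact h2
  have h2 : g' = fun t => g (-t) :=
    (Continuous.ae_eq_iff_eq (μ := volume) R'.g_cont (R.g_cont.comp continuous_neg)).1 h1
  intro t
  exact congrFun h2 t

section
variable {φ : Measure ℝ} {A B P Q : ℝ[X]} {g h G : ℝ → ℝ}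

/-- Structure at minus infinity. -/
lemma inf_left (K : Krall φ A B P Q) (R : Reg φ A B P Q g h G) {M : ℝ}
    (hM : ∀ x, x < M → x ∉ Zs A ∧ 0 < g x) :
    (-1) ^ (A.natDegree + B.natDegree) * (A.leadingCoeff * B.leadingCoeff) > 0 ∧
    ((A.natDegree = 0 ∧ B.natDegree = 0) ∨ (A.natDegree = 0 ∧ B.natDegree = 1) ∨
      (A.natDegree = 1 ∧ B.natDegree = 1) ∨ (A.natDegree = 2 ∧ B.natDegree = 2)) := by
  obtain ⟨g', h', G', R', hg'⟩ := refl_reg K R
  have h1 := R'.inf_right (M := -M) (fun x hx => by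
    have h2 := hM (-x) (by linarith)
    refine ⟨?_, ?_⟩
    · intro h3
      apply h2.1
      simpa [Zs] using h3
    · rw [hg']; exact h2.2)
  rw [natDegree_neg, rf_natDegree, rf_natDegree, leadingCoeff_neg, rf_lead, rf_lead] at h1
  refine ⟨?_, h1.2⟩
  have h3 := h1.1
  rw [pow_add]
  nlinarith

end

end Pool.Agent.V5helper26.DD
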