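import Pool.Agent.V5helper26.DD.Alg

/-! From the moment equations to equations between measures. -/

set_option autoImplicit false

open MeasureTheory Polynomial Filter Topology Set

namespace Pool.Agent.V5helper26.DD

/-- The regularity facts extracted from the moment equations. -/
structure Reg (φ : Measure ℝ) (A B P Q : ℝ[X]) (g h G : ℝ → ℝ) : Prop where
  fin : IsFiniteMeasure φ
  int : ∀ k : ℕ, Integrable (fun x : ℝ => x ^ k) φ
  inf : ∀ s : Finset ℝ, φ ((↑s : Set ℝ)ᶜ) ≠ 0
  A0 : A ≠ 0
  degA : A.natDegree ≤ 4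
  degB : B.natDegree ≤ 3
  degP : P.natDegree ≤ 2
  degQ : Q.natDegree ≤ 1
  h_int : Integrable h
  G_int : Integrable G
  g_int : Integrable g
  h_eq : ∀ t, h t = ∫ x in Ioi t, Q.eval x ∂φ
  G_eq : ∀ t, G t = ∫ x in Ioi t, P.eval x ∂φ + ∫ x in Ioi t, h x
  g_eq : ∀ t, g t = ∫ x in Ioi t, G x
  Q_tot : ∫ x, Q.eval x ∂φ = 0
  P_tot : ∫ x, P.eval x ∂φ + ∫ x, h x = 0
  F1 : ∀ E : Set ℝ, MeasurableSet E → ∫ x in E, A.eval x ∂φ = ∫ x in E, g x
  F2 : ∀ E : Set ℝ, MeasurableSet E → ∫ x in E, B.eval x ∂φ = -∫ x in E, G x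
  Apos : φ {x | A.eval x < 0} = 0
  g0 : ∀ t, 0 ≤ g t
  g_cont : Continuous g

lemma integrable_poly_exp {φ : Measure ℝ} {ε : ℝ} (hε : 0 < ε)
    (h : Integrable (fun x : ℝ => Real.exp (ε * |x|)) φ) (f : ℝ[X]) :
    Integrable (fun x => f.eval x * Real.exp (ε / 2 * |x|)) φ := by
  have h1 : ∀ k : ℕ, Integrable (fun x : ℝ => x ^ k * Real.exp (ε / 2 * |x|)) φ := by
    intro k
    refine (h.const_mul ((Nat.factorial k : ℝ) / (ε / 2) ^ k)).mono' (by fun_prop)
      (ae_of_all _ fun x => ?_)
    rw [norm_mul, norm_pow, Real.norm_eq_abs, Real.norm_of_nonneg (Real.exp_pos _).le]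
    have h2 := mul_le_mul_of_nonneg_right (pow_le_exp (half_pos hε) k x)
      (Real.exp_pos (ε / 2 * |x|)).le
    refine h2.trans (le_of_eq ?_)
    rw [mul_assoc, ← Real.exp_add]
    congr 2; ring
  have : (fun x => f.eval x * Real.exp (ε / 2 * |x|)) =
      fun x => ∑ i ∈ Finset.range (f.natDegree + 1), f.coeff i * (x ^ i * Real.exp (ε / 2 * |x|)) := by
    funext x; rw [eval_eq_sum_range, Finset.sum_mul]
    exact Finset.sum_congr rfl fun i _ => by ring
  rw [this]
  exact integrable_finsetSum _ fun i _ => (h1 i).const_mul _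

lemma meas_eval (f : ℝ[X]) : Measurable fun x : ℝ => f.eval x := f.continuous.measurable

theorem Krall.reg {φ : Measure ℝ} {A B P Q : ℝ[X]} (K : Krall φ A B P Q) :
    ∃ g h G : ℝ → ℝ, Reg φ A B P Q g h G := by
  have hfin : IsFiniteMeasure φ := by
    have := K.int 0
    simp only [pow_zero] at this
    rwa [integrable_const_iff_isFiniteMeasure one_ne_zero] at this
  have hφ1 : ∫ _x : ℝ, (1 : ℝ) ∂φ ≠ 0 := by
    simp only [integral_const, smul_eq_mul, mul_one]
    intro h
    have h2 := (measureReal_eq_zero_iff).1 h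
    have h3 := K.inf ∅
    simp only [Finset.coe_empty, compl_empty] at h3
    exact h3 h2
  obtain ⟨K0, C0, hC0, hgr⟩ := growth K.int hφ1 K.A0 K.E1
  obtain ⟨ε, hε, hexp⟩ := expint K.int hC0 hgr
  set c := ε / 2 with hc
  have hcp : 0 < c := half_pos hε
  have hpe : ∀ f : ℝ[X], Integrable (fun x => f.eval x * Real.exp (c * |x|)) φ := fun f =>
    integrable_poly_exp hε hexp f
  have hzero : Integrable (fun x : ℝ => (fun _ : ℝ => (0 : ℝ)) x * Real.exp (c * |x|)) φ := by simp
  have hmono : ∀ (f : ℝ[X]) (n : ℕ), ∫ x, f.eval x * x ^ n ∂φ = ∫ x, (f * X ^ n).eval x ∂φ := by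
    intro f n
    congr 1; funext x; simp
  -- g
  have hB0 : ∫ x, B.eval x ∂φ = 0 := by
    have := K.E1 1
    simpa using this
  have hQ0 : ∫ x, Q.eval x ∂φ = 0 := by
    have := K.E2 1
    simpa using this
  obtain ⟨hgm, hge, hgn⟩ := tail (ρ := φ) (σ := φ) (meas_eval B) measurable_const hcp (hpe B) hzero
    (by simpa using hB0)
  obtain ⟨hhm, hhe, hhn⟩ := tail (ρ := φ) (σ := φ) (meas_eval Q) measurable_const hcp (hpe Q) hzero
    (by simpa using hQ0)
  simp only [integral_zero, add_zero, zero_mul] at hgm hge hgn hhm hhe hhn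
  set h : ℝ → ℝ := fun t => ∫ x in Ioi t, Q.eval x ∂φ with hh
  set gm : ℝ → ℝ := fun t => ∫ x in Ioi t, B.eval x ∂φ with hgmdef
  have hh_int : Integrable h := integrable_of_exp hhm (half_pos hcp) hhe
  have hP0 : ∫ x, P.eval x ∂φ + ∫ x, h x = 0 := by
    have e1 := hhn 0
    have e2 := K.E2 X
    simp only [derivative_X, derivative_one, mul_zero, mul_one, zero_add] at e2
    simp only [pow_zero, mul_one, Nat.cast_zero, zero_add, div_one, one_mul, pow_one] at e1
    have e3 : ∫ x, (P + Q * X).eval x ∂φ = ∫ x, P.eval x ∂φ + ∫ x, Q.eval x * x ∂φ := by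
      simp only [eval_add, eval_mul, eval_X]
      rw [integral_add (integrable_poly K.int P)]
      have := integrable_poly K.int (Q * X)
      simpa using this
    rw [e1]; linarith
  -- scale of exponent
  have hpe2 : ∀ f : ℝ[X], Integrable (fun x => f.eval x * Real.exp (c / 2 * |x|)) φ := by
    intro f
    refine (hpe f).mono (by have := meas_eval f; fun_prop) (ae_of_all _ fun x => ?_)
    rw [norm_mul, norm_mul]
    apply mul_le_mul_of_nonneg_left _ (norm_nonneg _)
    rw [Real.norm_of_nonneg (Real.exp_pos _).le, Real.norm_of_nonneg (Real.exp_pos _).le]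
    apply Real.exp_le_exp.2
    have := abs_nonneg x
    nlinarith
  have hpe3 : ∀ f : ℝ[X], Integrable (fun x => f.eval x * Real.exp (c / 2 / 2 * |x|)) φ := by
    intro f
    refine (hpe f).mono (by have := meas_eval f; fun_prop) (ae_of_all _ fun x => ?_)
    rw [norm_mul, norm_mul]
    apply mul_le_mul_of_nonneg_left _ (norm_nonneg _)
    rw [Real.norm_of_nonneg (Real.exp_pos _).le, Real.norm_of_nonneg (Real.exp_pos _).le]
    apply Real.exp_le_exp.2
    have := abs_nonneg x
    nlinarith
  obtain ⟨hGm, hGe, hGn⟩ := tail (ρ := φ) (σ := volume) (meas_eval P) hhm (half_pos hcp) (hpe2 P) hhe hP0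
  set G : ℝ → ℝ := fun t => ∫ x in Ioi t, P.eval x ∂φ + ∫ x in Ioi t, h x with hG
  have hG_int : Integrable G := integrable_of_exp hGm (half_pos (half_pos hcp)) hGe
  have hg_int0 : Integrable gm := integrable_of_exp hgm (half_pos hcp) hge
  -- F1
  have hF1 : ∀ E : Set ℝ, MeasurableSet E → ∫ x in E, A.eval x ∂φ = ∫ x in E, -gm x := by
    intro E hE
    apply detS (half_pos hcp) (meas_eval A) hgm.neg (hpe2 A) _ _ _ _ hE
    · simpa using hge.neg
    · intro n
      exact integrable_mul_pow (meas_eval A) (half_pos hcp) (hpe2 A) n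
    · intro n
      have := integrable_mul_pow hgm (half_pos hcp) hge n
      simpa using this.neg
    · intro n
      have e1 := hgn n
      have e2 := K.E1 (X ^ (n + 1))
      have e3 : (∫ x, -gm x * x ^ n) = -((1 / ((n : ℝ) + 1)) * ∫ x, B.eval x * x ^ (n + 1) ∂φ) := by
        rw [← e1, ← integral_neg]
        congr 1; funext x; ring
      have e4 : ∫ x, (A * derivative (X ^ (n + 1)) + B * X ^ (n + 1)).eval x ∂φ =
          ((n : ℝ) + 1) * ∫ x, A.eval x * x ^ n ∂φ + ∫ x, B.eval x * x ^ (n + 1) ∂φ := by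
        rw [← integral_const_mul, ← integral_add]
        · congr 1; funext x
          simp
          ring
        · exact (integrable_mul_pow (meas_eval A) (half_pos hcp) (hpe2 A) n).const_mul _
        · exact integrable_mul_pow (meas_eval B) (half_pos hcp) (hpe2 B) (n + 1)
      rw [e4] at e2
      show ∫ x, A.eval x * x ^ n ∂φ = ∫ x, -gm x * x ^ n
      rw [e3]
      have hn : ((n : ℝ) + 1) ≠ 0 := by positivity
      field_simp
      linarith
  -- F2
  have hF2 : ∀ E : Set ℝ, MeasurableSet E → ∫ x in E, B.eval x ∂φ = ∫ x in E, -G x := by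
    intro E hE
    apply detS (half_pos (half_pos hcp)) (meas_eval B) hGm.neg (hpe3 B) _ _ _ _ hE
    · simpa using hGe.neg
    · intro n
      exact integrable_mul_pow (meas_eval B) (half_pos hcp) (hpe2 B) n
    · intro n
      have := integrable_mul_pow hGm (half_pos (half_pos hcp)) hGe n
      simpa using this.neg
    · intro n
      have e1 := hGn n
      have e1' := hhn (n + 1)
      have e2 := K.E2 (X ^ (n + 2))
      have e4 : ∫ x, (B * derivative (derivative (X ^ (n + 2))) + P * derivative (X ^ (n + 2)) +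
          Q * X ^ (n + 2)).eval x ∂φ =
          ((n : ℝ) + 2) * ((n : ℝ) + 1) * ∫ x, B.eval x * x ^ n ∂φ +
          ((n : ℝ) + 2) * ∫ x, P.eval x * x ^ (n + 1) ∂φ + ∫ x, Q.eval x * x ^ (n + 2) ∂φ := by
        rw [← integral_const_mul, ← integral_const_mul, ← integral_add, ← integral_add]
        · congr 1; funext x
          have d1 : derivative (X ^ (n + 2) : ℝ[X]) = C ((n : ℝ) + 2) * X ^ (n + 1) := by
            rw [derivative_X_pow]; push_cast; rfl
          have d2 : derivative (X ^ (n + 1) : ℝ[X]) = C ((n : ℝ) + 1) * X ^ n := by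
            rw [derivative_X_pow]; push_cast; rfl
          rw [d1, derivative_C_mul, d2]
          simp
          ring
        · exact ((integrable_mul_pow (meas_eval B) (half_pos hcp) (hpe2 B) n).const_mul _).add
            ((integrable_mul_pow (meas_eval P) (half_pos hcp) (hpe2 P) (n + 1)).const_mul _)
        · exact integrable_mul_pow (meas_eval Q) (half_pos hcp) (hpe2 Q) (n + 2)
        · exact (integrable_mul_pow (meas_eval B) (half_pos hcp) (hpe2 B) n).const_mul _
        · exact (integrable_mul_pow (meas_eval P) (half_pos hcp) (hpe2 P) (n + 1)).const_mul _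
      rw [e4] at e2
      have e3 : (∫ x, -G x * x ^ n) = -(∫ x, G x * x ^ n) := by
        rw [← integral_neg]
        congr 1; funext x; ring
      show ∫ x, B.eval x * x ^ n ∂φ = ∫ x, -G x * x ^ n
      rw [e3, e1, e1']
      have hn : ((n : ℝ) + 1) ≠ 0 := by positivity
      have hn2 : ((n : ℝ) + 2) ≠ 0 := by positivity
      push_cast
      have hn3 : ((n : ℝ) + 1 + 1) = (n : ℝ) + 2 := by ring
      rw [hn3]
      field_simp
      linarith
  -- the measure η
  obtain ⟨η, hηint, hη⟩ := K.eta
  have hηfin : IsFiniteMeasure η := by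
    have := hηint 0
    simp only [pow_zero] at this
    rwa [integrable_const_iff_isFiniteMeasure one_ne_zero] at this
  have hηexp : Integrable (fun x => 1 * Real.exp (c / 2 * |x|)) η := by
    apply integrable_exp_of_lintegral (w := fun _ => 1) measurable_const (fun _ => zero_le_one)
      (half_pos hcp).le
    rw [lintegral_cosh (w := fun _ => 1) measurable_const (fun _ => zero_le_one)]
    have hfinA : ∫⁻ x, ENNReal.ofReal (|A.eval x| * Real.cosh (c / 2 * x)) ∂φ < ⊤ := by
      have h1 : Integrable (fun x => |A.eval x| * Real.cosh (c / 2 * x)) φ := by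
        refine (hpe2 A).mono (by have := meas_eval A; fun_prop) (ae_of_all _ fun x => ?_)
        rw [norm_mul, norm_mul, Real.norm_eq_abs, abs_abs, Real.norm_eq_abs (A.eval x)]
        apply mul_le_mul_of_nonneg_left _ (abs_nonneg _)
        rw [Real.norm_of_nonneg (Real.exp_pos _).le, Real.norm_of_nonneg (Real.cosh_pos _).le]
        exact cosh_le_exp (half_pos hcp).le
      have h2 := h1.2
      rw [hasFiniteIntegral_iff_ofReal (ae_of_all _ fun x => by
        have := Real.cosh_pos (c / 2 * x); positivity)] at h2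
      exact h2
    rw [lintegral_cosh (w := fun x => |A.eval x|) ((meas_eval A).abs) (fun _ => abs_nonneg _)] at hfinA
    refine lt_of_le_of_lt (ENNReal.tsum_le_tsum fun n => ?_) hfinA
    have heq : (fun x : ℝ => 1 * ((c / 2 * x) ^ (2 * n) / (Nat.factorial (2 * n) : ℝ))) =
        fun x => ((c / 2) ^ (2 * n) / (Nat.factorial (2 * n) : ℝ)) * (X ^ (2 * n) : ℝ[X]).eval x := by
      funext x; rw [mul_pow]; simp; ring
    have hnn : ∀ x : ℝ, 0 ≤ 1 * ((c / 2 * x) ^ (2 * n) / (Nat.factorial (2 * n) : ℝ)) := by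
      intro x
      have : 0 ≤ (c / 2 * x) ^ (2 * n) := by rw [pow_mul]; positivity
      positivity
    rw [← ofReal_integral_eq_lintegral_ofReal (by
      rw [heq]; exact (integrable_poly hηint _).const_mul _) (ae_of_all _ hnn), heq,
      integral_const_mul, hη, ← integral_const_mul]
    have hi : Integrable (fun x => |A.eval x| * ((c / 2 * x) ^ (2 * n) / (Nat.factorial (2 * n) : ℝ))) φ := by
      have h3 := ((integrable_poly K.int (A * X ^ (2 * n))).abs).const_mul
        ((c / 2) ^ (2 * n) / (Nat.factorial (2 * n) : ℝ))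
      refine h3.congr (ae_of_all _ fun x => ?_)
      simp only [eval_mul, eval_pow, eval_X, abs_mul, abs_pow]
      rw [mul_pow]
      have : |x| ^ (2 * n) = x ^ (2 * n) := by rw [pow_mul, sq_abs, ← pow_mul]
      rw [this]
      ring
    rw [← ofReal_integral_eq_lintegral_ofReal hi (ae_of_all _ fun x => by
      have h4 := hnn x
      rw [one_mul] at h4
      exact mul_nonneg (abs_nonneg _) h4)]
    apply ENNReal.ofReal_le_ofReal
    apply integral_mono ((integrable_poly K.int _).const_mul _) hi
    intro x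
    simp only [eval_mul, eval_pow, eval_X]
    have h4 := hnn x
    rw [one_mul] at h4
    have h5 : (c / 2) ^ (2 * n) / (Nat.factorial (2 * n) : ℝ) * (A.eval x * x ^ (2 * n)) =
        A.eval x * ((c / 2 * x) ^ (2 * n) / (Nat.factorial (2 * n) : ℝ)) := by
      rw [mul_pow]; ring
    rw [h5]
    exact mul_le_mul_of_nonneg_right (le_abs_self _) h4
  have hηE : ∀ E : Set ℝ, MeasurableSet E → ∫ x in E, A.eval x ∂φ = ∫ _x in E, (1 : ℝ) ∂η := by
    intro E hE
    apply detS (half_pos hcp) (meas_eval A) measurable_const (hpe2 A) hηexp _ _ _ hE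
    · intro n
      exact integrable_mul_pow (meas_eval A) (half_pos hcp) (hpe2 A) n
    · intro n
      simpa using hηint n
    · intro n
      rw [hmono]
      rw [← hη]
      simp
  have hηpos : ∀ E : Set ℝ, MeasurableSet E → 0 ≤ ∫ x in E, A.eval x ∂φ := by
    intro E hE
    rw [hηE E hE]
    exact integral_nonneg fun _ => zero_le_one
  have hAneg : φ {x | A.eval x < 0} = 0 := by
    set E := {x : ℝ | A.eval x < 0} with hEdef
    have hE : MeasurableSet E := measurableSet_lt (meas_eval A) measurable_const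
    have h1 := hηpos E hE
    have hi : Integrable (fun x => A.eval x) (φ.restrict E) := (integrable_poly K.int A).integrableOn
    have h2 : 0 ≤ᵐ[φ.restrict E] fun x => -A.eval x := by
      filter_upwards [ae_restrict_mem hE] with x hx
      have : A.eval x < 0 := hx
      simp only [Pi.zero_apply]; linarith
    have h3 : ∫ x in E, -A.eval x ∂φ = 0 := by
      apply le_antisymm
      · rw [integral_neg]; linarith
      · exact integral_nonneg_of_ae h2
    rw [integral_eq_zero_iff_of_nonneg_ae h2 hi.neg] at h3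
    have h4 : ∀ᵐ x ∂(φ.restrict E), False := by
      filter_upwards [h3, ae_restrict_mem hE] with x hx hx2
      have : A.eval x < 0 := hx2
      simp only [Pi.zero_apply] at hx; linarith
    rw [ae_iff] at h4
    simpa using h4
  -- g as a primitive
  have hgG : ∀ t, -gm t = ∫ x in Ioi t, G x := by
    intro t
    have := hF2 (Ioi t) measurableSet_Ioi
    rw [integral_neg] at this
    simp only [hgmdef]
    rw [this]; ring
  have hgc : Continuous fun t => -gm t := by
    have h1 : (fun t => -gm t) = fun t => (∫ x in Ioi (0 : ℝ), G x) - ∫ x in (0 : ℝ)..t, G x := by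
      funext t
      rw [hgG t]
      have := intervalIntegral.integral_Ioi_sub_Ioi' (μ := volume) (f := G) (a := 0) (b := t)
        hG_int.integrableOn hG_int.integrableOn
      linarith
    rw [h1]
    exact continuous_const.sub (intervalIntegral.continuous_primitive
      (fun a b => hG_int.intervalIntegrable) 0)
  have hg0 : ∀ t, 0 ≤ -gm t := by
    have h1 : 0 ≤ᵐ[volume] fun t => -gm t := by
      apply ae_nonneg_of_forall_setIntegral_nonneg hg_int0.neg
      intro s hs _
      show 0 ≤ ∫ x in s, -gm x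
      rw [← hF1 s hs]
      exact hηpos s hs
    have h2 : ∀ t, (0 : ℝ) ≤ -gm t := by
      intro t
      have h3 : IsClosed {t : ℝ | 0 ≤ -gm t} := isClosed_le continuous_const hgc
      have h4 : Dense {t : ℝ | 0 ≤ -gm t} := Measure.dense_of_ae h1
      have h5 := h4.closure_eq
      rw [h3.closure_eq] at h5
      have : t ∈ {t : ℝ | 0 ≤ -gm t} := by rw [h5]; trivial
      exact this
    exact h2
  refine ⟨fun t => -gm t, h, G, ⟨hfin, K.int, K.inf, K.A0, K.degA, K.degB, K.degP, K.degQ, hh_int, hG_int,
    hg_int0.neg, fun t => rfl, fun t => rfl, hgG, hQ0, hP0, hF1, ?_, hAneg, hg0, hgc⟩⟩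
  intro E hE
  rw [hF2 E hE, integral_neg]

end Pool.Agent.V5helper26.DD
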